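import Pool.Agent.Lib.MP_8fffab_lc_NB.Defs

/-! Row COVNO: a cover stays in one level. -/

open Finset FewNeg

namespace NegBase

/-- COVNO: a cover stays in one level. -/
theorem cover_no {q D s M L r r₁ R₀ : ℕ} (hr : r₁ < r) {Θ : ℕ → Sup q D s → Fin M}
    (hΘ : ∀ l < L, ∑ c, (Θ l c : ℕ) ^ 2 = R₀)
    (hinj : ∀ l < L, ∀ l' < L, Θ l = Θ l' → l = l') {S : Set (ℕ × Finset (Win q D s))}
    (hc : Covers L r₁ r Θ (D * s + 1 + r₁) S) :
    ∃ l < L, ∃ A : Pos D s → Finset (Win q D s), (∀ j, (l, A j) ∈ S) ∧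
      ∀ v, ∃! j, v ∈ A j := by
  classical
  obtain ⟨I, hI, hcov⟩ := hc
  -- the rows which cover the labels
  have h1 : ∀ j : Pos D s, ∃ (l : Fin L) (A : {A : Finset (Win q D s) // IsTrans A}),
      (Sum.inl (l, A) : Rows q D s L r₁) ∈ I ∧ ((l : ℕ), A.1) ∈ S ∧ Sum.inr j ∈ A.1 := by
    intro j
    obtain ⟨i, hi, hinc⟩ := hcov (.inr (.inl j))
    rcases i with ⟨l, A⟩ | l | e
    · obtain ⟨hS, w, hw, hws⟩ := hinc
      refine ⟨l, A, hi, hS, ?_⟩
      rcases w with ⟨c, d, i⟩ | j'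
      · simp [shift] at hws
      · simp only [shift, Sum.inr.injEq, Sum.inl.injEq] at hws
        rw [hws]; exact hw
    · exact absurd hinc (by simp [inc, special])
    · obtain ⟨e', -, he'⟩ := hinc
      simp at he'
  choose lj Aj hjI hjS hjl using h1
  -- the sets of these rows
  have h2 : ∀ j : Pos D s, ∃ g : Sup q D s → Fin s, ∀ v : Win q D s,
      v ∈ (Aj j).1 ↔ v = .inr j ∨ ∃ c, v = .inl (c, (c.2.symm j).1, g c) := by
    intro j
    obtain ⟨j', g, hg⟩ := (Aj j).2
    have h3 := (hg (.inr j)).1 (hjl j)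
    have h4 : j = j' := by
      rcases h3 with h3 | ⟨c, h3⟩
      · exact Sum.inr.inj h3
      · exact absurd h3 (by simp)
    subst h4
    exact ⟨g, hg⟩
  choose g hg using h2
  -- the rows of the further points
  have h3 : ∀ e : Fin r₁, (Sum.inr (.inr e) : Rows q D s L r₁) ∈ I := by
    intro e
    obtain ⟨i, hi, hinc⟩ := hcov (.inr (.inr ⟨e, e.2.trans hr⟩))
    rcases i with ⟨l, A⟩ | l | e'
    · obtain ⟨-, w, hw, hws⟩ := hinc
      rcases w with ⟨c, d, i⟩ | j' <;> simp [shift] at hws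
    · have : r₁ ≤ (e : ℕ) := hinc
      exact absurd this (by have := e.2; omega)
    · obtain ⟨e'', he'', he⟩ := hinc
      simp only [Sum.inr.injEq] at he
      have : e = e' := by
        apply Fin.ext
        rw [← he'', ← he]
      rw [this]; exact hi
  obtain ⟨l₀, hl₀⟩ : ∃ l₀ : Fin L, (Sum.inr (.inl l₀) : Rows q D s L r₁) ∈ I := by
    obtain ⟨i, hi, hinc⟩ := hcov (.inr (.inr ⟨r₁, hr⟩))
    rcases i with ⟨l, A⟩ | l | e'
    · obtain ⟨-, w, hw, hws⟩ := hinc
      rcases w with ⟨c, d, i⟩ | j' <;> simp [shift] at hws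
    · exact ⟨l, hi⟩
    · obtain ⟨e'', he'', he⟩ := hinc
      simp only [Sum.inr.injEq] at he
      rw [← he] at he''
      have := e'.2
      simp only at he''
      omega
  -- there are no other rows
  obtain ⟨φ, hφ⟩ : ∃ φ : Pos D s ⊕ (Unit ⊕ Fin r₁) → Rows q D s L r₁, φ = fun x => match x with
      | .inl j => .inl (lj j, Aj j)
      | .inr (.inl _) => .inr (.inl l₀)
      | .inr (.inr e) => .inr (.inr e) := ⟨_, rfl⟩
  have hφinj : Function.Injective φ := by
    rintro (j | u | e) (j' | u' | e') h <;> rw [hφ] at h <;>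
      simp only [Sum.inl.injEq, Sum.inr.injEq, Prod.mk.injEq, reduceCtorEq] at h
    · have h4 := (hg j' (.inr j)).1 (by rw [← h.2]; exact hjl j)
      rcases h4 with h4 | ⟨c, h4⟩
      · rw [Sum.inr.inj h4]
      · exact absurd h4 (by simp)
    · rw [h]
  have himg : univ.image φ ⊆ I := by
    intro i hi
    obtain ⟨x, -, rfl⟩ := mem_image.1 hi
    rcases x with j | u | e
    · rw [hφ]; exact hjI j
    · rw [hφ]; exact hl₀
    · rw [hφ]; exact h3 e
  have hcardimg : (univ.image φ).card = D * s + 1 + r₁ := by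
    rw [card_image_of_injective _ hφinj, card_univ]
    simp only [Fintype.card_sum, Fintype.card_prod, Fintype.card_fin, Fintype.card_unit]
    ring
  have hIeq : univ.image φ = I := eq_of_subset_of_card_le himg (by rw [hcardimg]; exact hI)
  -- the points of the window of the level `l₀`
  have h5 : ∀ (c : Sup q D s) (x : Pos D s), ∃ j : Pos D s,
      (x.1 : ℕ) + Θ l₀ c = ((c.2.symm j).1 : ℕ) + Θ (lj j) c ∧ x.2 = g j c := by
    rintro c ⟨d, i⟩
    obtain ⟨ρ, hρ, hinc⟩ := hcov (.inl (c, ⟨d + Θ l₀ c, Nat.add_lt_add d.2 (Θ l₀ c).2⟩, i))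
    rw [← hIeq] at hρ
    obtain ⟨x, -, rfl⟩ := mem_image.1 hρ
    rw [hφ] at hinc
    rcases x with j | u | e
    · obtain ⟨-, w, hw, hws⟩ := hinc
      rcases (hg j w).1 hw with h6 | ⟨c', h6⟩
      · rw [h6] at hws
        simp [shift] at hws
      · rw [h6] at hws
        simp only [shift, Sum.inl.injEq, Prod.mk.injEq, Fin.mk.injEq] at hws
        obtain ⟨rfl, h7, h8⟩ := hws
        exact ⟨j, h7, h8⟩
    · simp only [inc, special] at hinc
      exfalso
      apply hinc
      have := d.2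
      omega
    · obtain ⟨e', -, he⟩ := hinc
      simp at he
  choose ψ hψ1 hψ2 using h5
  have hψinj : ∀ c, Function.Injective (ψ c) := by
    intro c x y hxy
    have e1 := hψ1 c x
    have e2 := hψ1 c y
    rw [hxy] at e1
    apply Prod.ext
    · apply Fin.ext; omega
    · rw [hψ2 c x, hψ2 c y, hxy]
  have hψbij : ∀ c, Function.Bijective (ψ c) := fun c => Finite.injective_iff_bijective.1 (hψinj c)
  -- sums in a super-piece
  have hsum : ∀ c, ∑ j : Pos D s, (Θ (lj j) c : ℕ) = D * s * (Θ l₀ c : ℕ) := by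
    intro c
    have e1 : ∑ x : Pos D s, ((x.1 : ℕ) + Θ l₀ c) =
        ∑ j : Pos D s, (((c.2.symm j).1 : ℕ) + Θ (lj j) c) := by
      rw [← (hψbij c).sum_comp (fun j : Pos D s => (((c.2.symm j).1 : ℕ) + Θ (lj j) c))]
      exact sum_congr rfl fun x _ => hψ1 c x
    rw [sum_add_distrib, sum_add_distrib, sum_const, card_univ, smul_eq_mul] at e1
    have e2 : ∑ j : Pos D s, ((c.2.symm j).1 : ℕ) = ∑ x : Pos D s, (x.1 : ℕ) :=
      Equiv.sum_comp c.2.symm (fun x : Pos D s => (x.1 : ℕ))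
    rw [e2] at e1
    simp only [Fintype.card_prod, Fintype.card_fin] at e1
    omega
  -- all levels are equal
  have hzero : ∑ j : Pos D s, ∑ c, (((Θ (lj j) c : ℕ) : ℤ) - ((Θ l₀ c : ℕ) : ℤ)) ^ 2 = 0 := by
    have e1 : ∀ l : Fin L, ∑ c, ((Θ l c : ℕ) : ℤ) ^ 2 = (R₀ : ℤ) := by
      intro l
      rw [← hΘ l l.2]
      push_cast
      rfl
    have e2 : ∀ c, ∑ j : Pos D s, (((Θ (lj j) c : ℕ)) : ℤ) = D * s * ((Θ l₀ c : ℕ) : ℤ) := by
      intro c
      exact_mod_cast hsum c
    calc ∑ j : Pos D s, ∑ c, (((Θ (lj j) c : ℕ) : ℤ) - ((Θ l₀ c : ℕ) : ℤ)) ^ 2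
        = ∑ j : Pos D s, (∑ c, ((Θ (lj j) c : ℕ) : ℤ) ^ 2 + ∑ c, ((Θ l₀ c : ℕ) : ℤ) ^ 2 -
            2 * ∑ c, ((Θ l₀ c : ℕ) : ℤ) * ((Θ (lj j) c : ℕ) : ℤ)) := by
          apply sum_congr rfl
          intro j _
          rw [mul_sum, ← sum_add_distrib, ← sum_sub_distrib]
          exact sum_congr rfl fun c _ => by ring
      _ = ∑ j : Pos D s, ((R₀ : ℤ) + R₀) -
            2 * ∑ c, ((Θ l₀ c : ℕ) : ℤ) * ∑ j : Pos D s, ((Θ (lj j) c : ℕ) : ℤ) := by
          rw [sum_sub_distrib, ← mul_sum, sum_comm (s := univ) (t := univ)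
            (f := fun (j : Pos D s) c => ((Θ l₀ c : ℕ) : ℤ) * ((Θ (lj j) c : ℕ) : ℤ))]
          simp only [e1, mul_sum]
      _ = (D * s : ℤ) * ((R₀ : ℤ) + R₀) - 2 * ∑ c, (D * s : ℤ) * ((Θ l₀ c : ℕ) : ℤ) ^ 2 := by
          rw [sum_const, card_univ]
          simp only [Fintype.card_prod, Fintype.card_fin, nsmul_eq_mul, Nat.cast_mul]
          congr 2
          apply sum_congr rfl
          intro c _
          rw [e2]
          ring
      _ = 0 := by
          rw [← mul_sum, e1]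
          ring
  have hlev : ∀ j, (lj j : ℕ) = l₀ := by
    intro j
    apply hinj _ (lj j).2 _ l₀.2
    funext c
    have e1 := (sum_eq_zero_iff_of_nonneg (fun j _ => sum_nonneg fun c _ => sq_nonneg _)).1 hzero
      j (mem_univ j)
    have e2 := (sum_eq_zero_iff_of_nonneg (fun c _ => sq_nonneg _)).1 e1 c (mem_univ c)
    apply Fin.ext
    have e3 := pow_eq_zero_iff (two_ne_zero) |>.1 e2
    omega
  -- the partition
  refine ⟨l₀, l₀.2, fun j => (Aj j).1, fun j => ?_, ?_⟩
  · rw [← hlev j]; exact hjS j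
  · rintro (⟨c, d, i⟩ | j')
    · obtain ⟨j, hj⟩ : ∃ j, j = ψ c (d, i) := ⟨_, rfl⟩
      have e1 := hψ1 c (d, i)
      have e2 := hψ2 c (d, i)
      rw [← hj] at e1 e2
      have e3 : (d : ℕ) = ((c.2.symm j).1 : ℕ) := by
        have := hlev j
        simp only [this] at e1
        omega
      refine ⟨j, (hg j _).2 (Or.inr ⟨c, ?_⟩), ?_⟩
      · have e4 : d = (c.2.symm j).1 := Fin.ext e3
        rw [← e4, ← e2]
      · intro j' hj'
        rcases (hg j' _).1 hj' with h6 | ⟨c', h6⟩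
        · exact absurd h6 (by simp)
        · simp only [Sum.inl.injEq, Prod.mk.injEq] at h6
          obtain ⟨rfl, h7, h8⟩ := h6
          obtain ⟨x, hx⟩ := (hψbij c).2 j'
          have e5 := hψ1 c x
          have e6 := hψ2 c x
          rw [hx, hlev j'] at e5
          rw [hx] at e6
          have e7 : x = (d, i) := by
            apply Prod.ext
            · apply Fin.ext
              have := congrArg Fin.val h7
              simp only at this ⊢
              omega
            · simp only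
              rw [e6, h8]
          rw [hj, ← e7, hx]
    · refine ⟨j', (hg j' _).2 (Or.inl rfl), fun j hj => ?_⟩
      rcases (hg j _).1 hj with h6 | ⟨c', h6⟩
      · exact (Sum.inr.inj h6).symm
      · exact absurd h6 (by simp)

end NegBase
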