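import Pool.Agent.Lib.MP_8fffab_lc_NB.Defs

/-! Row COVYES: the colour classes at a level give a cover. -/

open Finset FewNeg

namespace NegBase

/-- The colour class of a position. -/
noncomputable def cls {q D s : ℕ} (z : Col q D s) (j : Pos D s) : Finset (Win q D s) := by
  classical exact univ.filter fun v => colour z v = j

theorem mem_cls {q D s : ℕ} {z : Col q D s} {j : Pos D s} {v : Win q D s} :
    v ∈ cls z j ↔ colour z v = j := by
  classical
  unfold cls; simp

theorem isTrans_cls {q D s : ℕ} (z : Col q D s) (j : Pos D s) : IsTrans (cls z j) := by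
  refine ⟨j, fun c => (z c (c.2.symm j).1).symm (c.2.symm j).2, fun v => ?_⟩
  rw [mem_cls]
  rcases v with ⟨c, d, i⟩ | j'
  · simp only [colour, reduceCtorEq, false_or, Sum.inl.injEq, Prod.mk.injEq]
    constructor
    · intro h
      refine ⟨c, rfl, ?_, ?_⟩
      · rw [← h, Equiv.symm_apply_apply]
      · rw [← h, Equiv.symm_apply_apply]
        simp
    · rintro ⟨c', rfl, rfl, rfl⟩
      simp
  · simp only [colour, Sum.inr.injEq, reduceCtorEq, exists_false, or_false]

/-- COVYES: the colour classes of `z` at a level give a cover. -/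
theorem cover_yes {q D s M L r r₁ : ℕ} {Θ : ℕ → Sup q D s → Fin M} {l : ℕ}
    (hl : l < L) (z : Col q D s) {S : Set (ℕ × Finset (Win q D s))}
    (hS : ∀ A, classesV (colour z) A → (l, A) ∈ S) :
    Covers L r₁ r Θ (D * s + 1 + r₁) S := by
  classical
  obtain ⟨φ, hφ⟩ : ∃ φ : Pos D s ⊕ (Unit ⊕ Fin r₁) → Rows q D s L r₁, φ = fun x => match x with
      | .inl j => .inl (⟨l, hl⟩, ⟨cls z j, isTrans_cls z j⟩)
      | .inr (.inl _) => .inr (.inl ⟨l, hl⟩)
      | .inr (.inr e) => .inr (.inr e) := ⟨_, rfl⟩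
  refine ⟨univ.image φ, ?_, ?_⟩
  · refine card_image_le.trans ?_
    rw [card_univ]
    simp only [Fintype.card_sum, Fintype.card_prod, Fintype.card_fin, Fintype.card_unit]
    omega
  · -- a point of the window
    have hwin : ∀ w : Win q D s, ∃ i ∈ univ.image φ, inc r Θ S i (shift r (Θ l) w) := by
      intro w
      refine ⟨φ (.inl (colour z w)), mem_image_of_mem _ (mem_univ _), ?_⟩
      rw [hφ]
      exact ⟨hS _ ⟨colour z w, fun v => mem_cls⟩, w, mem_cls.2 rfl, rfl⟩
    have hsp : ∀ v : Pts q D s M r, special r₁ (Θ l) v → ∃ i ∈ univ.image φ, inc r Θ S i v := by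
      intro v hv
      refine ⟨φ (.inr (.inl ())), mem_image_of_mem _ (mem_univ _), ?_⟩
      rw [hφ]
      exact hv
    rintro (⟨c, x, i⟩ | j | e)
    · by_cases hx : (Θ l c : ℕ) ≤ x ∧ (x : ℕ) < D + Θ l c
      · obtain ⟨ρ, hρ, h⟩ := hwin (.inl (c, ⟨(x : ℕ) - Θ l c, by omega⟩, i))
        refine ⟨ρ, hρ, ?_⟩
        have e1 : shift r (Θ l) (.inl (c, ⟨(x : ℕ) - Θ l c, by omega⟩, i)) =
            (.inl (c, x, i) : Pts q D s M r) := by
          simp only [shift, Sum.inl.injEq, Prod.mk.injEq, true_and, and_true]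
          apply Fin.ext
          simp only
          omega
        rw [e1] at h
        exact h
      · exact hsp _ hx
    · exact hwin (.inr j)
    · by_cases he : r₁ ≤ (e : ℕ)
      · exact hsp _ he
      · refine ⟨φ (.inr (.inr ⟨e, by omega⟩)), mem_image_of_mem _ (mem_univ _), ?_⟩
        rw [hφ]
        exact ⟨e, rfl, rfl⟩

end NegBase
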