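import Pool.Agent.Lib.MP_8fffab_lc_RG.End

/-!
# Levels which do not interact: definitions

The positions are the pairs `(d, i)` with `d < D`, `i < s`. A super-piece is one of `q` copies of a
permutation of the positions. The window of a level has in every super-piece the `D` blocks of
`s` elements; position `j` belongs in the super-piece `c` to the block `(c.2.symm j).1`. Besides,
the window has a label for every position.
-/

open Finset FewNeg

namespace NegBase

/-- Few members of the family `y` of colourings have two given sets as unions of classes, if these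
two disjoint sets have at most half of the points each, and together at least half of them. -/
def FewPairs {Z V J : Type} [Fintype Z] [Fintype V] (y : Z → V → J) (x : ℝ) : Prop :=
  ∀ S T : Finset V, Disjoint S T → 2 * S.card ≤ Fintype.card V → 2 * T.card ≤ Fintype.card V →
    Fintype.card V ≤ 2 * (S.card + T.card) →
      avg (fun z => ind (∀ u v, y z u = y z v → (u ∈ S ↔ v ∈ S) ∧ (u ∈ T ↔ v ∈ T))) ≤ x

/-- Few members of the family `y` of colourings have a given nonempty set with at most half of the
points as a union of classes. -/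
def FewUnions {Z V J : Type} [Fintype Z] [Fintype V] (y : Z → V → J) (x : ℝ) : Prop :=
  ∀ S : Finset V, S.Nonempty → 2 * S.card ≤ Fintype.card V →
    avg (fun z => ind (∀ u v, y z u = y z v → (u ∈ S ↔ v ∈ S))) ≤ x

/-- The family of the colour classes of `y`. -/
def classesV {V J : Type} (y : V → J) (A : Finset V) : Prop := ∃ j, ∀ v, v ∈ A ↔ y v = j

/-- The family of the sets with sum zero. -/
def zerosV {V : Type} {p : ℕ} (f : V → ZMod p) (A : Finset V) : Prop := ∑ v ∈ A, f v = 0

/-- Inputs: `a x i` is constant or says that some set of size `h` belongs to the family `x`. -/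
def IsLitV (V : Type) (h : ℕ) {ι : Type} (a : (Finset V → Prop) → ι → Prop) : Prop :=
  ∀ i, (∀ x, a x i) ∨ (∀ x, ¬ a x i) ∨ ∃ A : Finset V, A.card = h ∧ ∀ x, a x i ↔ x A

/-- Positions. -/
abbrev Pos (D s : ℕ) := Fin D × Fin s

/-- Super-pieces. -/
abbrev Sup (q D s : ℕ) := Fin q × Equiv.Perm (Pos D s)

/-- Points of the window: the element `i` of the block `d` in the super-piece `c`, and labels. -/
abbrev Win (q D s : ℕ) := (Sup q D s × Fin D × Fin s) ⊕ Pos D s

noncomputable instance decWin (q D s : ℕ) : DecidableEq (Win q D s) := Classical.decEq _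

/-- The positive inputs of a level: a permutation of every block. -/
abbrev Col (q D s : ℕ) := Sup q D s → Fin D → Equiv.Perm (Fin s)

/-- The colouring of the window by positions. -/
def colour {q D s : ℕ} (z : Col q D s) : Win q D s → Pos D s
  | .inl (c, d, i) => c.2 (d, z c d i)
  | .inr j => j

/-- The set of the point `inr j` and of the points `g c` of the block which belongs to `j` in the
super-piece `c`. -/
def IsTrans {q D s : ℕ} (A : Finset (Win q D s)) : Prop :=
  ∃ (j : Pos D s) (g : Sup q D s → Fin s), ∀ v : Win q D s,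
    v ∈ A ↔ v = .inr j ∨ ∃ c, v = .inl (c, (c.2.symm j).1, g c)

/-- Points of the universe: the element `i` of the piece `x < D + M` in the super-piece `c`, the
labels, and `r` further points. -/
abbrev Pts (q D s M r : ℕ) := (Sup q D s × Fin (D + M) × Fin s) ⊕ (Pos D s ⊕ Fin r)

noncomputable instance decPts (q D s M r : ℕ) : DecidableEq (Pts q D s M r) := Classical.decEq _

/-- The window of the level `θ` in the universe. -/
def shift {q D s M : ℕ} (r : ℕ) (θ : Sup q D s → Fin M) : Win q D s → Pts q D s M r
  | .inl (c, d, i) => .inl (c, ⟨d + θ c, Nat.add_lt_add d.2 (θ c).2⟩, i)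
  | .inr j => .inr (.inl j)

/-- The special set of the level `θ`: everything outside the window, but not the first `r₁` further
points. -/
def special {q D s M r : ℕ} (r₁ : ℕ) (θ : Sup q D s → Fin M) : Pts q D s M r → Prop
  | .inl (c, x, _) => ¬ ((θ c : ℕ) ≤ x ∧ (x : ℕ) < D + θ c)
  | .inr (.inl _) => False
  | .inr (.inr e) => r₁ ≤ (e : ℕ)

/-- The sets of the instances: transversal sets of a level, the special set of a level, and a set
for each of the first `r₁` further points. -/
abbrev Rows (q D s L r₁ : ℕ) :=
  (Fin L × {A : Finset (Win q D s) // IsTrans A}) ⊕ (Fin L ⊕ Fin r₁)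

/-- The incidences of the instance which has the transversal sets in `S`. -/
def inc {q D s M L r₁ : ℕ} (r : ℕ) (Θ : ℕ → Sup q D s → Fin M)
    (S : Set (ℕ × Finset (Win q D s))) : Rows q D s L r₁ → Pts q D s M r → Prop
  | .inl (l, A), v => ((l : ℕ), A.1) ∈ S ∧ ∃ w ∈ A.1, v = shift r (Θ l) w
  | .inr (.inl l), v => special r₁ (Θ l) v
  | .inr (.inr e), v => ∃ e' : Fin r, (e' : ℕ) = e ∧ v = .inr (.inr e')

/-- At most `K` sets of the instance cover all points. -/
def Covers {q D s M : ℕ} (L r₁ r : ℕ) (Θ : ℕ → Sup q D s → Fin M) (K : ℕ)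
    (S : Set (ℕ × Finset (Win q D s))) : Prop :=
  ∃ I : Finset (Rows q D s L r₁), I.card ≤ K ∧ ∀ v, ∃ i ∈ I, inc r Θ S i v

/-- Number of the elements of the block `d` which go to a position of type `a`. -/
def cntT {D s : ℕ} (τ : Pos D s → Fin 3) (π : Equiv.Perm (Pos D s)) (d : Fin D) (a : Fin 3) : ℕ :=
  (univ.filter fun i : Fin s => τ (π (d, i)) = a).card

/-- The inverse of the multinomial coefficient of the numbers `cntT τ π d`. -/
noncomputable def wT {D s : ℕ} (τ : Pos D s → Fin 3) (π : Equiv.Perm (Pos D s)) (d : Fin D) : ℝ :=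
  (∏ a, ((cntT τ π d a).factorial : ℝ)) / s.factorial

end NegBase
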