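import Pool.Agent.Lib.MP_8fffab_lc_NB.Defs

/-! Rows TRC, EMB: numbers of sets, and the instances as families of `m` subsets of `Fin n`. -/

open Finset FewNeg

namespace NegBase

/-- The transversal set of a position and a choice. -/
noncomputable def tr {q D s : ℕ} (j : Pos D s) (g : Sup q D s → Fin s) : Finset (Win q D s) := by
  classical exact univ.image fun o : Option (Sup q D s) => match o with
    | none => (.inr j : Win q D s)
    | some c => .inl (c, (c.2.symm j).1, g c)

theorem mem_tr {q D s : ℕ} {j : Pos D s} {g : Sup q D s → Fin s} {v : Win q D s} :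
    v ∈ tr j g ↔ v = .inr j ∨ ∃ c, v = .inl (c, (c.2.symm j).1, g c) := by
  classical
  unfold tr
  rw [mem_image]
  constructor
  · rintro ⟨o, -, rfl⟩
    rcases o with _ | c
    · exact Or.inl rfl
    · exact Or.inr ⟨c, rfl⟩
  · rintro (rfl | ⟨c, rfl⟩)
    · exact ⟨none, mem_univ _, rfl⟩
    · exact ⟨some c, mem_univ _, rfl⟩

theorem card_sup (q D s : ℕ) : Fintype.card (Sup q D s) = q * (D * s).factorial := by
  rw [Fintype.card_prod, Fintype.card_perm]
  simp

theorem card_isTrans {q D s : ℕ} {A : Finset (Win q D s)} (hA : IsTrans A) :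
    A.card = q * (D * s).factorial + 1 := by
  classical
  obtain ⟨j, g, hg⟩ := hA
  have h1 : A = tr j g := by
    ext v; rw [hg, mem_tr]
  rw [h1]
  unfold tr
  rw [card_image_of_injective, card_univ, Fintype.card_option, card_sup]
  rintro (_ | c) (_ | c') h
  · rfl
  · simp at h
  · simp at h
  · simp only [Sum.inl.injEq, Prod.mk.injEq] at h
    rw [h.1]

/-- Number of the transversal sets. -/
theorem card_trans (q D s : ℕ) : Nat.card {A : Finset (Win q D s) // IsTrans A} ≤
    D * s * s ^ (q * (D * s).factorial) := by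
  classical
  have h1 : Function.Surjective fun x : Pos D s × (Sup q D s → Fin s) =>
      (⟨tr x.1 x.2, x.1, x.2, fun v => mem_tr⟩ : {A : Finset (Win q D s) // IsTrans A}) := by
    rintro ⟨A, j, g, hg⟩
    refine ⟨(j, g), Subtype.ext ?_⟩
    ext v
    rw [hg]
    exact mem_tr
  refine (Nat.card_le_card_of_surjective _ h1).trans (le_of_eq ?_)
  rw [Nat.card_eq_fintype_card, Fintype.card_prod, Fintype.card_fun, card_sup]
  simp

/-- EMB: the instances as families of `m` subsets of `Fin n`. -/
theorem embed_rows {q D s M L r r₁ m n : ℕ} (Θ : ℕ → Sup q D s → Fin M)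
    (hn : q * (D * s).factorial * ((D + M) * s) + (D * s + r) = n)
    (hm : L * (D * s * s ^ (q * (D * s).factorial)) + (L + r₁) ≤ m) :
    ∃ a : Set (ℕ × Finset (Win q D s)) → Fin m × Fin n → Prop,
      (∀ e, (∀ S, ¬ a S e) ∨ (∀ S, a S e) ∨ ∃ (l : ℕ) (A : Finset (Win q D s)),
        A.card = q * (D * s).factorial + 1 ∧ ∀ S, a S e ↔ (l, A) ∈ S) ∧
      ∀ K S, RealMono.HasCover K (fun i v => a S (i, v)) ↔ Covers L r₁ r Θ K S := by
  classical
  have hpts : Fintype.card (Pts q D s M r) = n := by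
    rw [← hn, Fintype.card_sum, Fintype.card_sum, Fintype.card_prod, card_sup]
    simp
  obtain ⟨ν⟩ : Nonempty (Pts q D s M r ≃ Fin n) := ⟨Fintype.equivFinOfCardEq hpts⟩
  have hfin : Fintype {A : Finset (Win q D s) // IsTrans A} := Fintype.ofFinite _
  have hrows : Fintype.card (Rows q D s L r₁) ≤ Fintype.card (Fin m) := by
    rw [Fintype.card_fin]
    refine le_trans ?_ hm
    rw [Fintype.card_sum, Fintype.card_sum, Fintype.card_prod, Fintype.card_fin, Fintype.card_fin,
      ← Nat.card_eq_fintype_card]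
    exact Nat.add_le_add_right (Nat.mul_le_mul_left _ (card_trans q D s)) _
  obtain ⟨ρ⟩ : Nonempty (Rows q D s L r₁ ↪ Fin m) :=
    Function.Embedding.nonempty_of_card_le hrows
  refine ⟨fun S e => ∃ i, ρ i = e.1 ∧ inc r Θ S i (ν.symm e.2), ?_, ?_⟩
  · rintro ⟨x, v⟩
    by_cases hx : ∃ i, ρ i = x
    · obtain ⟨i, rfl⟩ := hx
      have h1 : ∀ S, (∃ i', ρ i' = ρ i ∧ inc r Θ S i' (ν.symm v)) ↔ inc r Θ S i (ν.symm v) := by
        intro S
        constructor
        · rintro ⟨i', h2, h3⟩
          rw [← ρ.injective h2]; exact h3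
        · exact fun h => ⟨i, rfl, h⟩
      simp only [h1]
      rcases i with ⟨l, A⟩ | l | e
      · by_cases hw : ∃ w ∈ A.1, ν.symm v = shift r (Θ l) w
        · refine Or.inr (Or.inr ⟨l, A.1, card_isTrans A.2, fun S => ?_⟩)
          exact ⟨fun h => h.1, fun h => ⟨h, hw⟩⟩
        · exact Or.inl fun S h => hw h.2
      · by_cases hs : special r₁ (Θ l) (ν.symm v)
        · exact Or.inr (Or.inl fun S => hs)
        · exact Or.inl fun S => hs
      · by_cases hs : ∃ e' : Fin r, (e' : ℕ) = e ∧ ν.symm v = .inr (.inr e')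
        · exact Or.inr (Or.inl fun S => hs)
        · exact Or.inl fun S => hs
    · exact Or.inl fun S h => hx ⟨h.choose, h.choose_spec.1⟩
  · intro K S
    constructor
    · rintro ⟨I, hI, hcov⟩
      refine ⟨univ.filter fun i => ρ i ∈ I, ?_, fun v => ?_⟩
      · refine le_trans ?_ hI
        exact card_le_card_of_injOn ρ (fun i hi => (mem_filter.1 hi).2) (ρ.injective.injOn)
      · obtain ⟨x, hx, i, hi, hinc⟩ := hcov (ν v)
        simp only at hi hinc
        rw [Equiv.symm_apply_apply] at hinc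
        exact ⟨i, mem_filter.2 ⟨mem_univ _, by rw [hi]; exact hx⟩, hinc⟩
    · rintro ⟨I, hI, hcov⟩
      refine ⟨I.map ρ, by rw [card_map]; exact hI, fun v => ?_⟩
      obtain ⟨i, hi, hinc⟩ := hcov (ν.symm v)
      exact ⟨ρ i, mem_map_of_mem _ hi, i, rfl, hinc⟩

end NegBase
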