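import Pool.Agent.Lib.MP_8fffab_lc_NB.Defs

/-! Row FAM: small real circuits cannot tell a random member of a family of colourings from a
random sum-zero family. -/

open Finset FewNeg

namespace NegBase

open SetCoverMono (Tm PosSat NegSat OneDim IsLit classes zeros single supp mem_supp allT mem_allT
  card_allT clo clo_cl clo_mono clo_subset subset_clo ent mem_ent ent_spec ent_card chain_err Cl
  minT mem_minT exists_minT min_card exists_closure supp_inf supp_anti posSat_single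
  zeros_of_negSat supp_single negSat_top supp_nonempty card_nonzero avg_ind rk rk_le Vs mem_Vs)
open RealMono (cnt cnt_succ bit bit_true bit_false bit_nonneg bit_le_one bit_mono one_le_bit
  Gate)

variable {n k : ℕ} {Z : Type}

/-- The allowed terms: satisfied by some colouring of the family, and of size at most `n / 2`. -/
noncomputable def termsZ (y : Z → Fin n → Fin k) : Finset (Tm n) := by
  classical exact (allT n k).filter fun b => (∃ z, PosSat (y z) b) ∧ 2 * (supp b).card ≤ n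

theorem mem_termsZ {y : Z → Fin n → Fin k} {b : Tm n} : b ∈ termsZ y ↔
    (∃ z, PosSat (y z) b) ∧ 2 * (supp b).card ≤ n := by
  classical
  unfold termsZ
  rw [mem_filter]
  constructor
  · exact fun h => h.2
  · intro h
    obtain ⟨z, hz⟩ := h.1
    exact ⟨mem_allT hz, h⟩

theorem termsZ_up {y : Z → Fin n → Fin k} {b b' : Tm n} (hb : b ∈ termsZ y)
    (h : b ≤ b') : b' ∈ termsZ y := by
  rw [mem_termsZ] at hb ⊢
  obtain ⟨⟨z, hz⟩, hs⟩ := hb
  refine ⟨⟨z, hz.mono h⟩, ?_⟩
  have := card_le_card (supp_anti h)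
  omega

theorem termsZ_card (y : Z → Fin n → Fin k) : (termsZ y).card ≤ (k + 1) ^ (n + 1) := by
  classical
  unfold termsZ
  exact (card_filter_le _ _).trans (card_allT n k)

theorem exists_clZ {p t G κ : ℕ} [Fact p.Prime] (y : Z → Fin n → Fin k)
    {A : Finset (Tm n)} (hA : A ⊆ termsZ y) :
    ∃ A', A ⊆ A' ∧ Cl p (κ ^ G) (n + k * (2 * t + 1)) (termsZ y) A' ∧
      ∃ F : Finset (Fin n → ZMod p),
        κ ^ G * F.card ≤ (k + 1) ^ (n + 1) * p ^ (n + k * (2 * t + 1)) ∧
        ∀ f, (∃ b ∈ A', NegSat f b) → f ∈ F ∨ ∃ b ∈ A, NegSat f b := by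
  obtain ⟨A', h1, h2, F, h3, h4⟩ := exists_closure (p := p) (K := κ ^ G)
    (e := n + k * (2 * t + 1)) (termsZ y) _ A hA rfl
  refine ⟨A', h1, h2, F, h3.trans ?_, h4⟩
  exact Nat.mul_le_mul_right _ ((Nat.sub_le _ _).trans (termsZ_card y))

theorem union_of_posSat {y : Fin n → Fin k} {b : Tm n} (hb : PosSat y b) {u v : Fin n}
    (h : y u = y v) : u ∈ supp b ↔ v ∈ supp b := by
  have h3 := hb u v h
  rw [mem_supp, mem_supp]
  exact not_congr ⟨fun h => b.trans (b.symm h3) h, fun h => b.trans h3 h⟩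

variable [Fintype Z]

/-- Few colourings satisfy an intersection of two allowed terms which is too large. -/
theorem bad_pairZ {y : Z → Fin n → Fin k} {x₁ : ℝ} (hx₁ : 0 ≤ x₁) (hy₁ : FewPairs y x₁)
    {b₁ b₂ : Tm n} (h₁ : b₁ ∈ termsZ y)
    (h₂ : b₂ ∈ termsZ y) (hT : b₁ ⊓ b₂ ∉ termsZ y) [DecidablePred fun z => PosSat (y z) (b₁ ⊓ b₂)] :
    ((univ.filter fun z => PosSat (y z) (b₁ ⊓ b₂)).card : ℝ) ≤ x₁ * Fintype.card Z := by
  classical
  rcases (univ.filter fun z => PosSat (y z) (b₁ ⊓ b₂)).eq_empty_or_nonempty with he | ⟨z₀, hz₀⟩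
  · rw [he]
    simp only [card_empty, Nat.cast_zero]
    positivity
  have hc : (0 : ℝ) < Fintype.card Z := by
    have : 0 < Fintype.card Z := Fintype.card_pos_iff.2 ⟨z₀⟩
    exact_mod_cast this
  have hbig : n ≤ 2 * ((supp b₁).card + (supp b₂ \ supp b₁).card) := by
    have h3 : (supp b₁).card + (supp b₂ \ supp b₁).card = (supp (b₁ ⊓ b₂)).card := by
      rw [supp_inf, ← card_union_of_disjoint disjoint_sdiff, union_sdiff_self_eq_union]
    rw [h3]
    by_contra hcon
    apply hT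
    rw [mem_termsZ]
    exact ⟨⟨z₀, (mem_filter.1 hz₀).2⟩, by omega⟩
  have key := hy₁ (supp b₁) (supp b₂ \ supp b₁) disjoint_sdiff
    (by rw [Fintype.card_fin]; exact (mem_termsZ.1 h₁).2)
    (by rw [Fintype.card_fin]
        exact (Nat.mul_le_mul_left 2 (card_le_card sdiff_subset)).trans (mem_termsZ.1 h₂).2)
    (by rw [Fintype.card_fin]; exact hbig)
  rw [← div_le_iff₀ hc, ← avg_ind]
  refine le_trans (avg_mono fun z => ind_mono fun hz u v huv => ?_) key
  have h5 := union_of_posSat (hz.mono inf_le_left) huv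
  have h6 := union_of_posSat (hz.mono inf_le_right) huv
  refine ⟨h5, ?_⟩
  rw [mem_sdiff, mem_sdiff, h5, h6]

theorem real_stepZ {p t G κ : ℕ} [Fact p.Prime] (hG : G < 2 * t) (h1 : OneDim p k t G)
    (hκ : 0 < κ) {y : Z → Fin n → Fin k} {x₁ : ℝ}
    (hx₁ : 0 ≤ x₁) (hy₁ : FewPairs y x₁) {A₁ A₂ : ℝ → Finset (Tm n)}
    (hA₁ : ∀ θ, A₁ θ ⊆ termsZ y) (hA₂ : ∀ θ, A₂ θ ⊆ termsZ y)
    (ha₁ : ∀ θ θ', θ ≤ θ' → A₁ θ' ⊆ A₁ θ) (ha₂ : ∀ θ θ', θ ≤ θ' → A₂ θ' ⊆ A₂ θ)
    (g : ℝ → ℝ → ℝ) :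
    ∃ A : ℝ → Finset (Tm n), (∀ θ, A θ ⊆ termsZ y) ∧ (∀ θ θ', θ ≤ θ' → A θ' ⊆ A θ) ∧
      (∃ B : Finset (Z),
        (B.card : ℝ) ≤ (2 * κ) ^ k * (2 * κ) ^ k * x₁ * Fintype.card Z ∧
        ∀ (π : Z) (α β : ℝ), (∃ b ∈ A₁ α, PosSat (y π) b) →
          (∃ b ∈ A₂ β, PosSat (y π) b) → π ∈ B ∨ ∃ b ∈ A (g α β), PosSat (y π) b) ∧
      ∃ F : Finset (Fin n → ZMod p),
        κ ^ G * F.card ≤ 2 * (((k + 1) ^ (n + 1) + 1) *
          ((k + 1) ^ (n + 1) * p ^ (n + k * (2 * t + 1)))) ∧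
        ∀ (f : Fin n → ZMod p) (θ : ℝ), (∃ b ∈ A θ, NegSat f b) →
          f ∈ F ∨ ∃ α β, θ ≤ g α β ∧ (∃ b ∈ A₁ α, NegSat f b) ∧ ∃ b ∈ A₂ β, NegSat f b := by
  classical
  obtain ⟨F₁, hF₁, hF₁'⟩ := chain_err (p := p) (K := κ ^ G) (e := n + k * (2 * t + 1)) hA₁ ha₁
  obtain ⟨F₂, hF₂, hF₂'⟩ := chain_err (p := p) (K := κ ^ G) (e := n + k * (2 * t + 1)) hA₂ ha₂
  have hbd : ∀ F : Finset (Fin n → ZMod p), κ ^ G * F.card ≤
      ((termsZ y).card + 1) * ((termsZ y).card * p ^ (n + k * (2 * t + 1))) →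
      κ ^ G * F.card ≤ ((k + 1) ^ (n + 1) + 1) *
          ((k + 1) ^ (n + 1) * p ^ (n + k * (2 * t + 1))) := by
    intro F hF
    have := termsZ_card y
    exact hF.trans (Nat.mul_le_mul (Nat.add_le_add_right this 1) (Nat.mul_le_mul_right _ this))
  let C₁ : ℝ → Finset (Tm n) := fun θ => clo p (κ ^ G) (n + k * (2 * t + 1)) (termsZ y) (A₁ θ)
  let C₂ : ℝ → Finset (Tm n) := fun θ => clo p (κ ^ G) (n + k * (2 * t + 1)) (termsZ y) (A₂ θ)
  have hC₁ : ∀ θ θ', θ ≤ θ' → C₁ θ' ⊆ C₁ θ := fun θ θ' h => clo_mono (ha₁ θ θ' h)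
  have hC₂ : ∀ θ θ', θ ≤ θ' → C₂ θ' ⊆ C₂ θ := fun θ θ' h => clo_mono (ha₂ θ θ' h)
  have hup : ∀ b ∈ termsZ y, ∀ b', b ≤ b' → b' ∈ termsZ y := fun b hb b' h => termsZ_up hb h
  have hy : ∀ b ∈ termsZ y, ∃ y : Fin n → Fin k, PosSat y b := by
    intro b hb
    obtain ⟨⟨π, hπ⟩, _⟩ := mem_termsZ.1 hb
    exact ⟨_, hπ⟩
  have he₁ : (ent (termsZ y) C₁).card ≤ (2 * κ) ^ k :=
    ent_card hG h1 hκ hup hy (fun θ => clo_cl _) hC₁
  have he₂ : (ent (termsZ y) C₂).card ≤ (2 * κ) ^ k :=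
    ent_card hG h1 hκ hup hy (fun θ => clo_cl _) hC₂
  let pairs := ent (termsZ y) C₁ ×ˢ ent (termsZ y) C₂
  let A : ℝ → Finset (Tm n) := fun θ => (termsZ y).filter fun b =>
    ∃ α β, θ ≤ g α β ∧ ∃ b₁ ∈ C₁ α, ∃ b₂ ∈ C₂ β, b = b₁ ⊓ b₂
  let bad : Tm n × Tm n → Finset (Z) := fun x =>
    if x.1 ⊓ x.2 ∈ termsZ y then ∅ else
      univ.filter fun π : Z => PosSat (y π) (x.1 ⊓ x.2)
  refine ⟨A, fun θ b hb => (mem_filter.1 hb).1, ?_, ⟨pairs.biUnion bad, ?_, ?_⟩, F₁ ∪ F₂, ?_, ?_⟩
  · intro θ θ' h b hb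
    obtain ⟨hb1, α, β, h2, h3⟩ := mem_filter.1 hb
    exact mem_filter.2 ⟨hb1, α, β, h.trans h2, h3⟩
  · have hbad : ∀ x ∈ pairs, ((bad x).card : ℝ) ≤ x₁ * Fintype.card Z := by
      intro x hx
      simp only [bad]
      split_ifs with hx'
      · simp only [card_empty, Nat.cast_zero]; positivity
      · exact bad_pairZ hx₁ hy₁ (mem_ent.1 (mem_product.1 hx).1).1
          (mem_ent.1 (mem_product.1 hx).2).1 hx'
    calc ((pairs.biUnion bad).card : ℝ) ≤ ∑ x ∈ pairs, ((bad x).card : ℝ) := by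
          exact_mod_cast card_biUnion_le
      _ ≤ ∑ x ∈ pairs, x₁ * Fintype.card Z := Finset.sum_le_sum hbad
      _ = pairs.card * (x₁ * Fintype.card Z) := by
          rw [Finset.sum_const, nsmul_eq_mul]
      _ ≤ (2 * κ) ^ k * (2 * κ) ^ k * (x₁ * Fintype.card Z) := by
          apply mul_le_mul_of_nonneg_right _ (by positivity)
          rw [card_product]
          exact_mod_cast Nat.mul_le_mul he₁ he₂
      _ = _ := by ring
  · rintro π α β ⟨b₁, hb₁, hπ₁⟩ ⟨b₂, hb₂, hπ₂⟩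
    obtain ⟨c₁, hc₁, hc₁C, hs₁⟩ := ent_spec (𝒯 := termsZ y) (C := C₁)
      (fun θ => clo_subset) hC₁ (P := fun b => PosSat (y π) b) (fun b b' h hb => hb.mono h)
      (θ := α) ⟨b₁, subset_clo (hA₁ α) hb₁, hπ₁⟩
    obtain ⟨c₂, hc₂, hc₂C, hs₂⟩ := ent_spec (𝒯 := termsZ y) (C := C₂)
      (fun θ => clo_subset) hC₂ (P := fun b => PosSat (y π) b) (fun b b' h hb => hb.mono h)
      (θ := β) ⟨b₂, subset_clo (hA₂ β) hb₂, hπ₂⟩
    have hπ : PosSat (y π) (c₁ ⊓ c₂) := hs₁.inf hs₂
    have hp : (c₁, c₂) ∈ pairs := mem_product.2 ⟨hc₁, hc₂⟩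
    by_cases hT : c₁ ⊓ c₂ ∈ termsZ y
    · exact Or.inr ⟨c₁ ⊓ c₂,
        mem_filter.2 ⟨hT, α, β, le_rfl, c₁, hc₁C, c₂, hc₂C, rfl⟩, hπ⟩
    · refine Or.inl (mem_biUnion.2 ⟨(c₁, c₂), hp, ?_⟩)
      simp only [bad]
      rw [if_neg hT]
      exact mem_filter.2 ⟨mem_univ _, hπ⟩
  · calc κ ^ G * (F₁ ∪ F₂).card ≤ κ ^ G * (F₁.card + F₂.card) :=
          Nat.mul_le_mul_left _ (card_union_le _ _)
      _ = κ ^ G * F₁.card + κ ^ G * F₂.card := by ring
      _ ≤ _ := by
          rw [two_mul]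
          exact Nat.add_le_add (hbd F₁ hF₁) (hbd F₂ hF₂)
  · rintro f θ ⟨b, hb, hf⟩
    obtain ⟨-, α, β, h2, b₁, hb₁, b₂, hb₂, rfl⟩ := mem_filter.1 hb
    rcases hF₁' α f ⟨b₁, hb₁, hf.mono inf_le_left⟩ with h | h
    · exact Or.inl (mem_union_left _ h)
    rcases hF₂' β f ⟨b₂, hb₂, hf.mono inf_le_right⟩ with h' | h'
    · exact Or.inl (mem_union_right _ h')
    exact Or.inr ⟨α, β, h2, h, h'⟩

omit [Fintype Z] in
theorem top_mem_termsZ [Nonempty Z] (y : Z → Fin n → Fin k) : (⊤ : Tm n) ∈ termsZ y := by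
  rw [mem_termsZ]
  refine ⟨⟨Classical.arbitrary Z, fun _ _ _ => trivial⟩, ?_⟩
  have : supp (⊤ : Tm n) = ∅ := by
    ext v
    rw [mem_supp]
    simp only [notMem_empty, iff_false, not_not]
    trivial
  rw [this]
  simp

/-- `A θ` says that the value `vp π` on the positive input `π`, `vn f` on the negative input `f`,
is at least `θ`, up to the errors `Bp` and `Bn`. -/
def ApprZ {n k p : ℕ} {Z : Type} (y : Z → Fin n → Fin k) (Bp : Finset (Z))
    (Bn : Finset (Fin n → ZMod p)) (vp : Z → ℝ) (vn : (Fin n → ZMod p) → ℝ)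
    (A : ℝ → Finset (Tm n)) : Prop :=
  (∀ θ, A θ ⊆ termsZ y) ∧ (∀ θ θ', θ ≤ θ' → A θ' ⊆ A θ) ∧
    (∀ π, π ∈ Bp ∨ ∃ b ∈ A (vp π), PosSat (y π) b) ∧
    ∀ f θ, (∃ b ∈ A θ, NegSat f b) → f ∈ Bn ∨ θ ≤ vn f

theorem ApprZ.mono {n k p : ℕ} {Z : Type} {y : Z → Fin n → Fin k} {Bp Bp' : Finset (Z)}
    {Bn Bn' : Finset (Fin n → ZMod p)} {vp : Z → ℝ} {vn : (Fin n → ZMod p) → ℝ}
    {A : ℝ → Finset (Tm n)} (h : ApprZ y Bp Bn vp vn A) (hp : Bp ⊆ Bp') (hn : Bn ⊆ Bn') :
    ApprZ y Bp' Bn' vp vn A :=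
  ⟨h.1, h.2.1, fun π => (h.2.2.1 π).imp (fun h' => hp h') id,
    fun f θ hf => (h.2.2.2 f θ hf).imp (fun h' => hn h') id⟩

omit [Fintype Z] in
/-- Constants. -/
theorem apprZ_const {p : ℕ} [Nonempty Z] (y : Z → Fin n → Fin k) (c : ℝ) :
    ∃ A, ApprZ (p := p) y ∅ ∅ (fun _ => c) (fun _ => c) A := by
  classical
  refine ⟨fun θ => if θ ≤ c then {⊤} else ∅, ?_, ?_, fun π => Or.inr ⟨⊤, ?_, fun _ _ _ => trivial⟩,
    ?_⟩
  · intro θ
    dsimp only
    split_ifs
    · rw [singleton_subset_iff]; exact top_mem_termsZ y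
    · simp
  · intro θ θ' h
    dsimp only
    by_cases h' : θ' ≤ c
    · rw [if_pos h', if_pos (h.trans h')]
    · rw [if_neg h']; simp
  · dsimp only
    rw [if_pos le_rfl]; simp
  · intro f θ hf
    right
    by_contra hcon
    dsimp only at hf
    rw [if_neg hcon] at hf
    simp at hf

omit [Fintype Z] in
/-- Bits. -/
theorem apprZ_bit {p : ℕ} [Nonempty Z] (y : Z → Fin n → Fin k) {Pp : Z → Prop}
    {Pn : (Fin n → ZMod p) → Prop} {D : Finset (Tm n)} (hD : D ⊆ termsZ y)
    (h1 : ∀ π, Pp π → ∃ b ∈ D, PosSat (y π) b) (h2 : ∀ f, (∃ b ∈ D, NegSat f b) → Pn f) :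
    ∃ A, ApprZ (p := p) y ∅ ∅ (fun π => bit (Pp π)) (fun f => bit (Pn f)) A := by
  classical
  refine ⟨fun θ => if θ ≤ 0 then insert ⊤ D else if θ ≤ 1 then D else ∅, ?_, ?_, ?_, ?_⟩
  · intro θ
    dsimp only
    split_ifs
    · exact insert_subset (top_mem_termsZ y) hD
    · exact hD
    · simp
  · intro θ θ' h
    dsimp only
    by_cases h0 : θ ≤ 0
    · rw [if_pos h0]
      split_ifs
      · exact subset_rfl
      · exact subset_insert _ _
      · simp
    · have h0' : ¬ θ' ≤ 0 := fun h' => h0 (h.trans h')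
      rw [if_neg h0, if_neg h0']
      by_cases h3 : θ' ≤ 1
      · rw [if_pos h3, if_pos (h.trans h3)]
      · rw [if_neg h3]; simp
  · intro π
    right
    dsimp only
    by_cases hπ : Pp π
    · rw [bit_true hπ, if_neg (by norm_num), if_pos le_rfl]
      exact h1 π hπ
    · rw [bit_false hπ, if_pos le_rfl]
      exact ⟨⊤, mem_insert_self _ _, fun _ _ _ => trivial⟩
  · intro f θ hf
    right
    dsimp only at hf
    by_cases h0 : θ ≤ 0
    · exact h0.trans (bit_nonneg _)
    · rw [if_neg h0] at hf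
      by_cases h3 : θ ≤ 1
      · rw [if_pos h3] at hf
        exact h3.trans (bit_true (h2 f hf)).ge
      · rw [if_neg h3] at hf
        simp at hf

/-- The approximators of the gates. -/
theorem approx_realZ {p h t G κ : ℕ} [Fact p.Prime] [Nonempty Z] (hG : G < 2 * t) (h1 : OneDim p k t G)
    (hκ : 0 < κ) {y : Z → Fin n → Fin k} {x₁ : ℝ}
    (hx₁ : 0 ≤ x₁) (hy₁ : FewPairs y x₁) (hh : 2 * h ≤ n) {ι : Type}
    {a : (Finset (Fin n) → Prop) → ι → Prop} (ha : IsLit n h a) (C : RealMono.Circuit ι)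
    (β : ℕ → Prop) (s : ℕ) :
    ∃ (A : ℕ → ℝ → Finset (Tm n)) (Bp : Finset (Z))
      (Bn : Finset (Fin n → ZMod p)),
      (Bp.card : ℝ) ≤ cnt C s * ((2 * κ) ^ k * (2 * κ) ^ k * x₁ * Fintype.card Z) ∧
      κ ^ G * Bn.card ≤ cnt C s * (2 * (((k + 1) ^ (n + 1) + 1) *
          ((k + 1) ^ (n + 1) * p ^ (n + k * (2 * t + 1))))) ∧
      ∀ i < s, ApprZ y Bp Bn (fun π => C.mval β (a (classes (y π))) i)
        (fun f => C.mval β (a (zeros f)) i) (A i) := by
  classical
  induction s with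
  | zero => exact ⟨fun _ _ => ∅, ∅, ∅, by simp only [card_empty, Nat.cast_zero]; positivity, by simp,
      fun i hi => absurd hi (Nat.not_lt_zero i)⟩
  | succ s ih =>
    obtain ⟨A, Bp, Bn, hBp, hBn, hA⟩ := ih
    -- it suffices to treat the new gate
    suffices h : ∃ (D : ℝ → Finset (Tm n)) (B : Finset (Z))
        (B' : Finset (Fin n → ZMod p)),
        (B.card : ℝ) ≤ ((if (C s).isMono = true then 1 else 0 : ℕ) : ℝ) *
          ((2 * κ) ^ k * (2 * κ) ^ k * x₁ * Fintype.card Z) ∧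
        κ ^ G * B'.card ≤ (if (C s).isMono = true then 1 else 0) *
          (2 * (((k + 1) ^ (n + 1) + 1) * ((k + 1) ^ (n + 1) * p ^ (n + k * (2 * t + 1))))) ∧
        ApprZ y (Bp ∪ B) (Bn ∪ B') (fun π => C.mval β (a (classes (y π))) s)
          (fun f => C.mval β (a (zeros f)) s) D by
      obtain ⟨D, B, B', hB, hB', hD⟩ := h
      refine ⟨Function.update A s D, Bp ∪ B, Bn ∪ B', ?_, ?_, ?_⟩
      · rw [cnt_succ, Nat.cast_add, add_mul]
        calc ((Bp ∪ B).card : ℝ) ≤ Bp.card + B.card := by exact_mod_cast card_union_le _ _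
          _ ≤ _ := add_le_add hBp hB
      · rw [cnt_succ, add_mul]
        calc κ ^ G * (Bn ∪ B').card ≤ κ ^ G * (Bn.card + B'.card) :=
              Nat.mul_le_mul_left _ (card_union_le _ _)
          _ = κ ^ G * Bn.card + κ ^ G * B'.card := by ring
          _ ≤ _ := Nat.add_le_add hBn hB'
      · intro i hi
        rcases Nat.lt_succ_iff_lt_or_eq.1 hi with h | rfl
        · rw [Function.update_of_ne h.ne]
          exact (hA i h).mono subset_union_left subset_union_left
        · rw [Function.update_self]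
          exact hD
    -- gates without errors
    have hfree : (∃ D, ApprZ (p := p) y Bp Bn (fun π => C.mval β (a (classes (y π))) s)
          (fun f => C.mval β (a (zeros f)) s) D) → ∃ (D : ℝ → Finset (Tm n))
        (B : Finset (Z)) (B' : Finset (Fin n → ZMod p)),
        (B.card : ℝ) ≤ ((if (C s).isMono = true then 1 else 0 : ℕ) : ℝ) *
          ((2 * κ) ^ k * (2 * κ) ^ k * x₁ * Fintype.card Z) ∧
        κ ^ G * B'.card ≤ (if (C s).isMono = true then 1 else 0) *
          (2 * (((k + 1) ^ (n + 1) + 1) * ((k + 1) ^ (n + 1) * p ^ (n + k * (2 * t + 1))))) ∧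
        ApprZ y (Bp ∪ B) (Bn ∪ B') (fun π => C.mval β (a (classes (y π))) s)
          (fun f => C.mval β (a (zeros f)) s) D := by
      rintro ⟨D, hD⟩
      exact ⟨D, ∅, ∅, by simp only [card_empty, Nat.cast_zero]; positivity, by simp,
        hD.mono subset_union_left subset_union_left⟩
    rcases hg : C s with v | c | ⟨g, hgm, x, y⟩ | S | ⟨r, w, g⟩
    · rw [← hg]
      apply hfree
      have hval : ∀ z, C.mval β z s = bit (z v) := by
        intro z; rw [RealMono.Circuit.mval, hg]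
      simp only [hval]
      -- the three kinds of inputs
      have hD : ∃ D : Finset (Tm n), D ⊆ termsZ y ∧
          (∀ π : Z, a (classes (y π)) v → ∃ b ∈ D, PosSat (y π) b) ∧
          ∀ f : Fin n → ZMod p, (∃ b ∈ D, NegSat f b) → a (zeros f) v := by
        rcases ha v with h | h | ⟨S, hS, h⟩
        · exact ⟨{⊤}, by rw [singleton_subset_iff]; exact top_mem_termsZ y,
            fun π _ => ⟨⊤, by simp, fun _ _ _ => trivial⟩, fun f _ => h _⟩
        · exact ⟨∅, by simp, fun π hπ => absurd hπ (h _), fun f hf => by simp at hf⟩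
        · by_cases hT : single S ∈ termsZ y
          · refine ⟨{single S}, by simpa using hT, fun π hπ => ?_, fun f hf => ?_⟩
            · exact ⟨single S, by simp, posSat_single ((h _).1 hπ)⟩
            · obtain ⟨b, hb, hf⟩ := hf
              rw [mem_singleton] at hb
              subst hb
              exact (h _).2 (zeros_of_negSat hf)
          · refine ⟨∅, by simp, fun π hπ => ?_, fun f hf => by simp at hf⟩
            exfalso
            apply hT
            rw [mem_termsZ, supp_single, hS]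
            exact ⟨⟨π, posSat_single ((h _).1 hπ)⟩, hh⟩
      obtain ⟨D, hD1, hD2, hD3⟩ := hD
      obtain ⟨A', hA'⟩ := apprZ_bit (p := p) y hD1 hD2 hD3
      exact ⟨A', hA'.mono (empty_subset _) (empty_subset _)⟩
    · rw [← hg]
      apply hfree
      have hval : ∀ z, C.mval β z s = c := by
        intro z; rw [RealMono.Circuit.mval, hg]
      simp only [hval]
      obtain ⟨A', hA'⟩ := apprZ_const (p := p) y c
      exact ⟨A', hA'.mono (empty_subset _) (empty_subset _)⟩
    · -- the essential case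
      have hval : ∀ z, C.mval β z s = g (C.mval β z x) (C.mval β z y) := by
        intro z; rw [RealMono.Circuit.mval, hg]
      simp only [hval]
      obtain ⟨hx1, hx2, hx3, hx4⟩ := hA x x.2
      obtain ⟨hy1, hy2, hy3, hy4⟩ := hA y y.2
      obtain ⟨D, hD1, hD2, ⟨B, hB, hB'⟩, F, hF, hF'⟩ :=
        real_stepZ hG h1 hκ hx₁ hy₁ hx1 hy1 hx2 hy2 g
      refine ⟨D, B, F, ?_, ?_, hD1, hD2, fun π => ?_, fun f θ hf => ?_⟩
      · simpa [Gate.isMono] using hB
      · simpa [Gate.isMono] using hF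
      · rcases hx3 π with h | h
        · exact Or.inl (mem_union_left _ h)
        rcases hy3 π with h' | h'
        · exact Or.inl (mem_union_left _ h')
        rcases hB' π _ _ h h' with h'' | h''
        · exact Or.inl (mem_union_right _ h'')
        · exact Or.inr h''
      · rcases hF' f θ hf with h | ⟨α, γ, h2, h3, h4⟩
        · exact Or.inl (mem_union_right _ h)
        rcases hx4 f α h3 with h5 | h5
        · exact Or.inl (mem_union_left _ h5)
        rcases hy4 f γ h4 with h6 | h6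
        · exact Or.inl (mem_union_left _ h6)
        exact Or.inr (h2.trans (hgm _ _ _ _ h5 h6))
    · rw [← hg]
      apply hfree
      by_cases hS : S.Nonempty
      · have hval : ∀ z, C.mval β z s = S.sup' hS fun i => C.mval β z i := by
          intro z; rw [RealMono.Circuit.mval, hg]
          simp only [dif_pos hS]
        simp only [hval]
        refine ⟨fun θ => S.biUnion fun i => A i θ, ?_, ?_, fun π => ?_, fun f θ hf => ?_⟩
        · intro θ b hb
          obtain ⟨i, -, hb⟩ := mem_biUnion.1 hb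
          exact (hA i i.2).1 θ hb
        · intro θ θ' hθ b hb
          obtain ⟨i, hi, hb⟩ := mem_biUnion.1 hb
          exact mem_biUnion.2 ⟨i, hi, (hA i i.2).2.1 θ θ' hθ hb⟩
        · obtain ⟨i, hi, hmax⟩ := S.exists_mem_eq_sup' hS
            fun i => C.mval β (a (classes (y π))) i
          rcases (hA i i.2).2.2.1 π with h | ⟨b, hb, h⟩
          · exact Or.inl h
          · refine Or.inr ⟨b, mem_biUnion.2 ⟨i, hi, ?_⟩, h⟩
            change b ∈ A i (S.sup' hS fun i => C.mval β (a (classes (y π))) i)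
            rw [hmax]
            exact hb
        · obtain ⟨b, hb, hfb⟩ := hf
          obtain ⟨i, hi, hb⟩ := mem_biUnion.1 hb
          rcases (hA i i.2).2.2.2 f θ ⟨b, hb, hfb⟩ with h | h
          · exact Or.inl h
          · exact Or.inr (h.trans (le_sup' (fun i : Fin s => C.mval β (a (zeros f)) i) hi))
      · have hval : ∀ z, C.mval β z s = 0 := by
          intro z; rw [RealMono.Circuit.mval, hg]
          simp only [dif_neg hS]
        simp only [hval]
        obtain ⟨A', hA'⟩ := apprZ_const (p := p) y 0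
        exact ⟨A', hA'.mono (empty_subset _) (empty_subset _)⟩
    · rw [← hg]
      apply hfree
      have hval : ∀ z, C.mval β z s = bit (β s) := by
        intro z; rw [RealMono.Circuit.mval, hg]
      simp only [hval]
      obtain ⟨A', hA'⟩ := apprZ_const (p := p) y (bit (β s))
      exact ⟨A', hA'.mono (empty_subset _) (empty_subset _)⟩



/-- The sums over the parts of the classes of `y` in `S`. -/
noncomputable def sumsOn {n k : ℕ} (p : ℕ) (y : Fin n → Fin k) (S : Finset (Fin n)) :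
    (Fin n → ZMod p) →ₗ[ZMod p] (Fin k → ZMod p) := by
  classical exact
  { toFun := fun f j => ∑ v ∈ S.filter (fun v => y v = j), f v
    map_add' := fun f g => by
      funext j
      simp [sum_add_distrib]
    map_smul' := fun c f => by
      funext j
      simp [mul_sum] }

theorem sumsOn_apply {n k p : ℕ} (y : Fin n → Fin k) (S : Finset (Fin n)) (f : Fin n → ZMod p)
    (j : Fin k) : sumsOn p y S f j = ∑ v ∈ S.filter (fun v => y v = j), f v := by
  classical
  unfold sumsOn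
  simp only [LinearMap.coe_mk, AddHom.coe_mk]

/-- Many vectors satisfy an allowed term. -/
theorem negProb {n k p : ℕ} [Fact p.Prime] (hn : 0 < n) {y : Fin n → Fin k} {b : Tm n}
    (hb : PosSat y b) (hs : 2 * (supp b).card ≤ n) :
    1 / (2 * (p : ℝ) ^ k) ≤ avg (fun f : {f : Fin n → ZMod p // ∑ v, f v ≠ 0} =>
      ind (NegSat f.1 b)) := by
  classical
  have hp0 : 0 < p := (Fact.out : p.Prime).pos
  have hpr : (0 : ℝ) < p := by exact_mod_cast hp0
  -- a point outside
  obtain ⟨v₀, hv₀⟩ : ∃ v, v ∉ supp b := by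
    by_contra hcon
    push Not at hcon
    have h1 : supp b = univ := eq_univ_of_forall hcon
    rw [h1, card_univ, Fintype.card_fin] at hs
    omega
  obtain ⟨T, hT⟩ : ∃ T, T = sumsOn p y (supp b) := ⟨_, rfl⟩
  -- the kernel satisfies the term
  have hker : ∀ f, T f = 0 → NegSat f b := by
    intro f hf w hw
    obtain ⟨c, hc⟩ := SetCoverMono.exists_comp hb hw
    have h1 : ∀ v, f v * w v = if v ∈ supp b then f v * c (y v) else 0 := by
      intro v
      by_cases hv : v ∈ supp b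
      · rw [if_pos hv, hc]; rfl
      · rw [if_neg hv]
        have : w v = 0 := hw.2 v (by
          by_contra h
          exact hv (mem_supp.2 h))
        rw [this, mul_zero]
    rw [dotProduct]
    simp only [h1]
    rw [← sum_filter, filter_mem_eq_inter, univ_inter, ← sum_fiberwise (supp b) y]
    apply sum_eq_zero
    intro j _
    have h2 : T f j = 0 := by rw [hf]; rfl
    rw [hT, sumsOn_apply] at h2
    calc ∑ v ∈ (supp b).filter (fun v => y v = j), f v * c (y v)
        = ∑ v ∈ (supp b).filter (fun v => y v = j), f v * c j := by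
          apply sum_congr rfl
          intro v hv
          rw [(mem_filter.1 hv).2]
      _ = 0 := by rw [← sum_mul, h2, zero_mul]
  -- the size of the kernel
  have hcardker : p ^ n ≤ p ^ k * Fintype.card (LinearMap.ker T) := by
    have h1 := LinearMap.finrank_range_add_finrank_ker T
    have h2 : Module.finrank (ZMod p) (LinearMap.range T) ≤ k := by
      refine (Submodule.finrank_le _).trans ?_
      simp
    have h3 : Module.finrank (ZMod p) (Fin n → ZMod p) = n := by simp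
    rw [h3] at h1
    have h4 : Fintype.card (LinearMap.ker T) = p ^ Module.finrank (ZMod p) (LinearMap.ker T) := by
      have := Module.card_eq_pow_finrank (K := ZMod p) (V := LinearMap.ker T)
      rwa [ZMod.card] at this
    rw [h4, ← pow_add]
    exact Nat.pow_le_pow_right hp0 (by omega)
  -- at least half of the kernel has nonzero sum
  have hhalf : Fintype.card (LinearMap.ker T) ≤
      2 * (univ.filter fun f : {f : Fin n → ZMod p // ∑ v, f v ≠ 0} => NegSat f.1 b).card := by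
    obtain ⟨f₀, hf₀⟩ : ∃ f₀ : Fin n → ZMod p, f₀ = Pi.single v₀ 1 := ⟨_, rfl⟩
    have hTf₀ : T f₀ = 0 := by
      funext j
      rw [hT, sumsOn_apply, hf₀]
      apply sum_eq_zero
      intro v hv
      have : v ≠ v₀ := fun h => hv₀ (h ▸ (mem_filter.1 hv).1)
      simp [this]
    have hsum₀ : ∑ v, f₀ v = 1 := by
      rw [hf₀, Finset.sum_pi_single']
      simp
    have h1 : ((univ : Finset (Fin n → ZMod p)).filter fun f => T f = 0 ∧ ∑ v, f v = 0).card ≤
        ((univ : Finset (Fin n → ZMod p)).filter fun f => T f = 0 ∧ ∑ v, f v ≠ 0).card := by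
      refine card_le_card_of_injOn (fun f => f + f₀) ?_ (fun f _ g _ h => add_right_cancel h)
      intro f hf
      simp only [coe_filter, mem_univ, true_and, Set.mem_ofPred_eq] at hf ⊢
      refine ⟨by rw [map_add, hf.1, hTf₀, add_zero], ?_⟩
      simp only [Pi.add_apply, sum_add_distrib, hf.2, zero_add, hsum₀]
      exact one_ne_zero
    have h2 : Fintype.card (LinearMap.ker T) =
        ((univ : Finset (Fin n → ZMod p)).filter fun f => T f = 0).card := by
      rw [← Fintype.card_subtype]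
      exact Fintype.card_congr (Equiv.refl _)
    have h3 : ((univ : Finset (Fin n → ZMod p)).filter fun f => T f = 0).card =
        ((univ : Finset (Fin n → ZMod p)).filter fun f => T f = 0 ∧ ∑ v, f v = 0).card +
        ((univ : Finset (Fin n → ZMod p)).filter fun f => T f = 0 ∧ ∑ v, f v ≠ 0).card := by
      rw [← card_filter_add_card_filter_not (s := univ.filter fun f => T f = 0)
        (fun f => ∑ v, f v = 0), filter_filter, filter_filter]
    have h4 : ((univ : Finset (Fin n → ZMod p)).filter fun f => T f = 0 ∧ ∑ v, f v ≠ 0).card ≤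
        (univ.filter fun f : {f : Fin n → ZMod p // ∑ v, f v ≠ 0} => NegSat f.1 b).card := by
      refine card_le_card_of_surjOn (fun f => f.1) ?_
      intro f hf
      simp only [coe_filter, mem_univ, true_and, Set.mem_ofPred_eq] at hf
      refine ⟨⟨f, hf.2⟩, ?_, rfl⟩
      simp only [coe_filter, mem_univ, true_and, Set.mem_ofPred_eq]
      exact hker f hf.1
    omega
  have hΩ : Fintype.card {f : Fin n → ZMod p // ∑ v, f v ≠ 0} ≤ p ^ n := by
    refine (Fintype.card_subtype_le _).trans ?_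
    rw [Fintype.card_fun, ZMod.card, Fintype.card_fin]
  have hΩ0 : 0 < Fintype.card {f : Fin n → ZMod p // ∑ v, f v ≠ 0} := by
    have := card_nonzero (p := p) hn
    have h2 : 0 < p ^ n := Nat.pow_pos hp0
    omega
  rw [avg_ind, div_le_div_iff₀ (by positivity) (by exact_mod_cast hΩ0), one_mul]
  have h5 : Fintype.card {f : Fin n → ZMod p // ∑ v, f v ≠ 0} ≤
      (univ.filter fun f : {f : Fin n → ZMod p // ∑ v, f v ≠ 0} => NegSat f.1 b).card *
        (2 * p ^ k) := by
    calc _ ≤ p ^ n := hΩ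
      _ ≤ p ^ k * Fintype.card (LinearMap.ker T) := hcardker
      _ ≤ p ^ k * (2 * (univ.filter fun f : {f : Fin n → ZMod p // ∑ v, f v ≠ 0} =>
          NegSat f.1 b).card) := Nat.mul_le_mul_left _ hhalf
      _ = _ := by ring
  exact_mod_cast h5

/-- `RealMono.ineq_real` with a family `y` of colourings in place of `y₀ ∘ π`, and without the
additive error. -/
theorem ineq_fam {p n k h t G κ : ℕ} [Fact p.Prime] (hG : G < 2 * t) (h1 : OneDim p k t G)
    (hκ : 0 < κ) {Z : Type} [Fintype Z] [Nonempty Z] (y : Z → Fin n → Fin k) (hh : 2 * h ≤ n)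
    (hn : 0 < n) {x₁ x₂ : ℝ} (hx₁ : 0 ≤ x₁) (hy₁ : FewPairs y x₁) (hy₂ : FewUnions y x₂)
    (hx₂ : (κ : ℝ) ^ k * x₂ * (2 * p ^ k) ≤ 1) {ι : Type}
    {a : (Finset (Fin n) → Prop) → ι → Prop} (ha : IsLit n h a) (C : RealMono.Circuit ι)
    (β : ℕ → Prop) (o : ℕ) :
    avg (fun z : Z => ind (1 ≤ C.mval β (a (classes (y z))) o)) ≤
      avg (fun f : {f : Fin n → ZMod p // ∑ v, f v ≠ 0} =>
        ind (1 ≤ C.mval β (a (zeros f.1)) o)) +
      (cnt C (o + 1) * ((2 * κ) ^ k * (2 * κ) ^ k * x₁) +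
        (2 * cnt C (o + 1) + 1) * (2 * (((k + 1) ^ (n + 1) + 1) ^ 2 *
          p ^ (k * (2 * t + 1))) / κ ^ G)) := by
  classical
  obtain ⟨A, Bp, Bn, hBp, hBn, hA⟩ := approx_realZ hG h1 hκ hx₁ hy₁ hh ha C β (o + 1)
  obtain ⟨hA1, hA2, hA3, hA4⟩ := hA o (Nat.lt_succ_self o)
  obtain ⟨A', hAA', hcl, F, hF, hFA⟩ := exists_clZ (p := p) (t := t) (G := G) (κ := κ) y (hA1 1)
  obtain ⟨N, hN⟩ : ∃ N, N = cnt C (o + 1) := ⟨_, rfl⟩
  rw [← hN] at hBp hBn ⊢
  obtain ⟨M, hM⟩ : ∃ M, M = (k + 1) ^ (n + 1) := ⟨_, rfl⟩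
  have hMr : ((k : ℝ) + 1) ^ (n + 1) = M := by rw [hM]; push_cast; rfl
  rw [← hM] at hBn hF
  rw [hMr]
  obtain ⟨accp, haccp⟩ : ∃ accp : Z → Prop, accp = fun z =>
    1 ≤ C.mval β (a (classes (y z))) o := ⟨_, rfl⟩
  obtain ⟨accn, haccn⟩ : ∃ accn : (Fin n → ZMod p) → Prop, accn = fun f =>
    1 ≤ C.mval β (a (zeros f)) o := ⟨_, rfl⟩
  have hP : ∀ z, accp z → z ∈ Bp ∨ ∃ b ∈ A', PosSat (y z) b := by
    intro z hz
    rw [haccp] at hz
    rcases hA3 z with h | ⟨b, hb, h⟩
    · exact Or.inl h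
    · exact Or.inr ⟨b, hAA' (hA2 _ _ hz hb), h⟩
  have hNeg : ∀ f, (∃ b ∈ A', NegSat f b) → f ∈ F ∪ Bn ∨ accn f := by
    intro f hf
    rcases hFA f hf with h | h
    · exact Or.inl (mem_union_left _ h)
    · rcases hA4 f 1 h with h | h
      · exact Or.inl (mem_union_right _ h)
      · exact Or.inr (by rw [haccn]; exact h)
  have hgoal1 : (fun z : Z => ind (1 ≤ C.mval β (a (classes (y z))) o)) =
      fun z => ind (accp z) := by rw [haccp]
  have hgoal2 : (fun f : {f : Fin n → ZMod p // ∑ v, f v ≠ 0} =>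
      ind (1 ≤ C.mval β (a (zeros f.1)) o)) = fun f => ind (accn f.1) := by rw [haccn]
  rw [hgoal1, hgoal2]
  have hp0 : 0 < p := (Fact.out : p.Prime).pos
  have hpr : (0 : ℝ) < p := by exact_mod_cast hp0
  have hκ' : (0 : ℝ) < (κ : ℝ) ^ G := by positivity
  have hp' : (0 : ℝ) < (p : ℝ) ^ n := by positivity
  have hΩ := card_nonzero (p := p) hn
  have hΩ' : ((p : ℝ) ^ n) ≤ 2 * Fintype.card {f : Fin n → ZMod p // ∑ v, f v ≠ 0} := by
    exact_mod_cast hΩ
  have hΩ0 : (0 : ℝ) < Fintype.card {f : Fin n → ZMod p // ∑ v, f v ≠ 0} := by linarith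
  have hneΩ : Nonempty {f : Fin n → ZMod p // ∑ v, f v ≠ 0} := by
    rw [← Fintype.card_pos_iff]
    exact_mod_cast hΩ0
  have hZ0 : (0 : ℝ) < Fintype.card Z := by exact_mod_cast Fintype.card_pos
  have hM0 : (0 : ℝ) ≤ M := Nat.cast_nonneg _
  have hN0 : (0 : ℝ) ≤ N := Nat.cast_nonneg _
  -- the negative errors
  obtain ⟨e₂, he₂⟩ : ∃ e₂ : ℝ, e₂ = (2 * N + 1) * (2 * (((M : ℝ) + 1) ^ 2 *
      p ^ (k * (2 * t + 1))) / κ ^ G) := ⟨_, rfl⟩
  have hFB : ((F ∪ Bn).card : ℝ) * κ ^ G ≤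
      (2 * N + 1) * ((M : ℝ) + 1) ^ 2 * (p : ℝ) ^ (n + k * (2 * t + 1)) := by
    have h2 : ((F ∪ Bn).card : ℝ) ≤ F.card + Bn.card := by exact_mod_cast card_union_le _ _
    have h3 : (κ : ℝ) ^ G * F.card ≤ M * p ^ (n + k * (2 * t + 1)) := by exact_mod_cast hF
    have h4 : (κ : ℝ) ^ G * Bn.card ≤ N * (2 * ((M + 1) * (M * p ^ (n + k * (2 * t + 1))))) := by
      exact_mod_cast hBn
    have hpp : (0 : ℝ) ≤ (p : ℝ) ^ (n + k * (2 * t + 1)) := by positivity
    calc ((F ∪ Bn).card : ℝ) * κ ^ G ≤ (F.card + Bn.card) * κ ^ G :=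
          mul_le_mul_of_nonneg_right h2 hκ'.le
      _ = κ ^ G * F.card + κ ^ G * Bn.card := by ring
      _ ≤ M * p ^ (n + k * (2 * t + 1)) +
          N * (2 * ((M + 1) * (M * p ^ (n + k * (2 * t + 1))))) := add_le_add h3 h4
      _ = (M + N * (2 * ((M + 1) * M))) * p ^ (n + k * (2 * t + 1)) := by ring
      _ ≤ _ := by
          apply mul_le_mul_of_nonneg_right _ hpp
          nlinarith [mul_nonneg hN0 hM0]
  have hfrac : ((F ∪ Bn).card : ℝ) /
      (Fintype.card {f : Fin n → ZMod p // ∑ v, f v ≠ 0} : ℝ) ≤ e₂ := by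
    rw [div_le_iff₀ hΩ0]
    have he0 : 0 ≤ e₂ := by rw [he₂]; positivity
    have h2 : e₂ * (Fintype.card {f : Fin n → ZMod p // ∑ v, f v ≠ 0} : ℝ) ≥
        e₂ * ((p : ℝ) ^ n / 2) := mul_le_mul_of_nonneg_left (by linarith) he0
    refine le_trans ?_ h2
    have h3 : e₂ * ((p : ℝ) ^ n / 2) =
        (2 * N + 1) * ((M : ℝ) + 1) ^ 2 * (p : ℝ) ^ (n + k * (2 * t + 1)) / κ ^ G := by
      have hpa : (p : ℝ) ^ (n + k * (2 * t + 1)) = p ^ n * p ^ (k * (2 * t + 1)) :=
        pow_add _ _ _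
      rw [hpa, he₂]
      field_simp
    rw [h3, le_div_iff₀ hκ']
    exact hFB
  -- the negative side accepts almost all inputs which satisfy a term of `A'`
  have hneg : avg (fun f : {f : Fin n → ZMod p // ∑ v, f v ≠ 0} =>
      ind (∃ b ∈ A', NegSat f.1 b)) ≤
      avg (fun f : {f : Fin n → ZMod p // ∑ v, f v ≠ 0} => ind (accn f.1)) + e₂ := by
    have h2 : avg (fun f : {f : Fin n → ZMod p // ∑ v, f v ≠ 0} =>
        ind (∃ b ∈ A', NegSat f.1 b)) ≤
        avg (fun f : {f : Fin n → ZMod p // ∑ v, f v ≠ 0} => ind (accn f.1) +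
          ind (f.1 ∈ F ∪ Bn)) := by
      apply avg_mono
      intro f
      refine le_trans (ind_mono fun hf => ?_) (ind_or_le (accn f.1) (f.1 ∈ F ∪ Bn))
      exact (hNeg f.1 hf).symm
    rw [avg_add] at h2
    have h3 : avg (fun f : {f : Fin n → ZMod p // ∑ v, f v ≠ 0} => ind (f.1 ∈ F ∪ Bn)) ≤
        e₂ := by
      refine le_trans ?_ hfrac
      rw [avg_ind]
      apply div_le_div_of_nonneg_right _ hΩ0.le
      have : (univ.filter fun f : {f : Fin n → ZMod p // ∑ v, f v ≠ 0} =>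
          f.1 ∈ F ∪ Bn).card ≤ (F ∪ Bn).card :=
        card_le_card_of_injOn (fun f => f.1) (fun f hf => (mem_filter.1 hf).2)
          (fun f _ g _ h => Subtype.ext h)
      exact_mod_cast this
    linarith
  -- the positive side
  have hBpZ : (Bp.card : ℝ) / Fintype.card Z ≤ N * ((2 * κ) ^ k * (2 * κ) ^ k * x₁) := by
    rw [div_le_iff₀ hZ0]
    calc (Bp.card : ℝ) ≤ N * ((2 * κ) ^ k * (2 * κ) ^ k * x₁ * Fintype.card Z) := hBp
      _ = _ := by ring
  have hBpavg : avg (fun z : Z => ind (z ∈ Bp)) ≤ N * ((2 * κ) ^ k * (2 * κ) ^ k * x₁) := by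
    rw [avg_ind]
    refine le_trans (le_of_eq ?_) hBpZ
    congr 3
    ext z
    simp
  have hpos : avg (fun z : Z => ind (accp z)) ≤
      N * ((2 * κ) ^ k * (2 * κ) ^ k * x₁) + avg (fun z : Z => ind (∃ b ∈ A', PosSat (y z) b)) := by
    have h2 : avg (fun z : Z => ind (accp z)) ≤
        avg (fun z : Z => ind (z ∈ Bp) + ind (∃ b ∈ A', PosSat (y z) b)) := by
      apply avg_mono
      intro z
      exact (ind_mono (hP z)).trans (ind_or_le _ _)
    rw [avg_add] at h2
    linarith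
  -- comparison of the two sides
  have hcomp : avg (fun z : Z => ind (∃ b ∈ A', PosSat (y z) b)) ≤
      avg (fun f : {f : Fin n → ZMod p // ∑ v, f v ≠ 0} => ind (∃ b ∈ A', NegSat f.1 b)) := by
    by_cases htop : (⊤ : Tm n) ∈ A'
    · have h2 : avg (fun f : {f : Fin n → ZMod p // ∑ v, f v ≠ 0} =>
          ind (∃ b ∈ A', NegSat f.1 b)) = 1 := by
        have h3 : (fun f : {f : Fin n → ZMod p // ∑ v, f v ≠ 0} =>
            ind (∃ b ∈ A', NegSat f.1 b)) = fun _ => (1 : ℝ) := by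
          funext f
          exact ind_true ⟨⊤, htop, negSat_top _⟩
        rw [h3, avg_const]
      rw [h2]
      exact avg_le_one fun _ => ind_le_one _
    · rcases A'.eq_empty_or_nonempty with he | ⟨b₀, hb₀⟩
      · rw [he]
        have h3 : (fun z : Z => ind (∃ b ∈ (∅ : Finset (Tm n)), PosSat (y z) b)) =
            fun _ => (0 : ℝ) := by
          funext z
          exact ind_false (by simp)
        rw [h3, avg_const]
        exact avg_nonneg fun _ => ind_nonneg _
      · -- few positive inputs, not so few negative ones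
        have hm : (minT A').card ≤ κ ^ k := by
          refine min_card hG h1 hκ (fun b hb b' h => termsZ_up hb h) (fun b hb => ?_) hcl
          obtain ⟨⟨z, hz⟩, _⟩ := mem_termsZ.1 hb
          exact ⟨_, hz⟩
        have h2 : avg (fun z : Z => ind (∃ b ∈ A', PosSat (y z) b)) ≤ κ ^ k * x₂ := by
          have h3 : avg (fun z : Z => ind (∃ b ∈ A', PosSat (y z) b)) ≤
              avg (fun z : Z => ∑ b ∈ minT A', ind (PosSat (y z) b)) := by
            apply avg_mono
            intro z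
            refine le_trans (ind_mono ?_) (ind_exists_le (minT A') fun b => PosSat (y z) b)
            rintro ⟨b, hb, hz⟩
            obtain ⟨b', hb', hle⟩ := exists_minT hb
            exact ⟨b', hb', hz.mono hle⟩
          rw [avg_sum] at h3
          have h4 : ∀ b ∈ minT A', avg (fun z : Z => ind (PosSat (y z) b)) ≤ x₂ := by
            intro b hb
            have hb' := (mem_minT.1 hb).1
            have hne : b ≠ ⊤ := fun he => htop (he ▸ hb')
            refine le_trans (avg_mono fun z => ind_mono fun hz u v huv => ?_)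
              (hy₂ (supp b) (supp_nonempty hne) (by
                rw [Fintype.card_fin]; exact (mem_termsZ.1 (hcl.1 hb')).2))
            exact union_of_posSat hz huv
          have hx20 : 0 ≤ x₂ := by
            obtain ⟨b', hb', -⟩ := exists_minT hb₀
            exact (avg_nonneg fun _ => ind_nonneg _).trans (h4 b' hb')
          calc _ ≤ _ := h3
            _ ≤ ∑ b ∈ minT A', x₂ := sum_le_sum h4
            _ = (minT A').card * x₂ := by rw [sum_const, nsmul_eq_mul]
            _ ≤ (κ : ℝ) ^ k * x₂ := by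
                apply mul_le_mul_of_nonneg_right _ hx20
                exact_mod_cast hm
        obtain ⟨⟨z, hz⟩, hs⟩ := mem_termsZ.1 (hcl.1 hb₀)
        have h3 := negProb (p := p) hn hz hs
        have h4 : avg (fun f : {f : Fin n → ZMod p // ∑ v, f v ≠ 0} => ind (NegSat f.1 b₀)) ≤
            avg (fun f : {f : Fin n → ZMod p // ∑ v, f v ≠ 0} =>
              ind (∃ b ∈ A', NegSat f.1 b)) :=
          avg_mono fun f => ind_mono fun h => ⟨b₀, hb₀, h⟩
        have h5 : (κ : ℝ) ^ k * x₂ ≤ 1 / (2 * (p : ℝ) ^ k) := by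
          rw [le_div_iff₀ (by positivity)]
          exact hx₂
        linarith
  rw [← he₂]
  linarith

end NegBase
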