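import Pool.Agent.Lib.MP_8fffab_lc_NB.Fam

/-! Row TRANS: `ineq_fam` for colourings of any finite type by any finite type. -/

open Finset FewNeg

namespace NegBase

open SetCoverMono (OneDim classes zeros IsLit)
open RealMono (cnt)

theorem avg_equivV {A B : Type} [Fintype A] [Fintype B] (e : A ≃ B) (F : A → ℝ) (G : B → ℝ)
    (h : ∀ a, F a = G (e a)) : avg F = avg G := by
  unfold avg
  rw [Fintype.card_congr e]
  congr 1
  exact Fintype.sum_equiv e _ _ h

/-- Functions with nonzero sum, transported by an equivalence. -/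
def funEquivV {p : ℕ} {V : Type} [Fintype V] {N : ℕ} (e : V ≃ Fin N) :
    {f : Fin N → ZMod p // ∑ v, f v ≠ 0} ≃ {f : V → ZMod p // ∑ v, f v ≠ 0} where
  toFun f := ⟨fun v => f.1 (e v), by
    have := f.2
    rwa [Fintype.sum_equiv e (fun v => f.1 (e v)) f.1 fun _ => rfl]⟩
  invFun f := ⟨fun v => f.1 (e.symm v), by
    have := f.2
    rwa [Fintype.sum_equiv e.symm (fun v => f.1 (e.symm v)) f.1 fun _ => rfl]⟩
  left_inv f := by
    apply Subtype.ext
    funext v
    simp
  right_inv f := by
    apply Subtype.ext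
    funext v
    simp

theorem ineq_famV {p h t G κ : ℕ} [Fact p.Prime] {V J : Type} [Fintype V] [DecidableEq V]
    [Fintype J] (hG : G < 2 * t) (h1 : OneDim p (Fintype.card J) t G)
    (hκ : 0 < κ) {Z : Type} [Fintype Z] [Nonempty Z] (y : Z → V → J)
    (hh : 2 * h ≤ Fintype.card V) (hn : 0 < Fintype.card V) {x₁ x₂ : ℝ} (hx₁ : 0 ≤ x₁)
    (hy₁ : FewPairs y x₁) (hy₂ : FewUnions y x₂)
    (hx₂ : (κ : ℝ) ^ Fintype.card J * x₂ * (2 * p ^ Fintype.card J) ≤ 1) {ι : Type}
    {a : (Finset V → Prop) → ι → Prop} (ha : IsLitV V h a) (C : RealMono.Circuit ι)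
    (β : ℕ → Prop) (o : ℕ) :
    avg (fun z : Z => ind (1 ≤ C.mval β (a (classesV (y z))) o)) ≤
      avg (fun f : {f : V → ZMod p // ∑ v, f v ≠ 0} =>
        ind (1 ≤ C.mval β (a (zerosV f.1)) o)) +
      (cnt C (o + 1) * ((2 * κ) ^ Fintype.card J * (2 * κ) ^ Fintype.card J * x₁) +
        (2 * cnt C (o + 1) + 1) * (2 * ((((Fintype.card J : ℕ) + 1) ^ (Fintype.card V + 1) + 1) ^ 2
          * p ^ (Fintype.card J * (2 * t + 1))) / κ ^ G)) := by
  classical
  let e : V ≃ Fin (Fintype.card V) := Fintype.equivFin V
  let eJ : J ≃ Fin (Fintype.card J) := Fintype.equivFin J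
  let y' : Z → Fin (Fintype.card V) → Fin (Fintype.card J) := fun z i => eJ (y z (e.symm i))
  let a' : (Finset (Fin (Fintype.card V)) → Prop) → ι → Prop := fun x =>
    a fun A => x (A.map e.toEmbedding)
  have hp1 : FewPairs y' x₁ := by
    intro S T hST hS hT hST2
    rw [Fintype.card_fin] at hS hT hST2
    have h2 := hy₁ (S.map e.symm.toEmbedding) (T.map e.symm.toEmbedding)
      ((Finset.disjoint_map _).2 hST) (by rwa [card_map]) (by rwa [card_map])
      (by rwa [card_map, card_map])
    refine le_trans (le_of_eq ?_) h2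
    congr 1
    funext z
    congr 1
    apply propext
    constructor
    · intro h u v huv
      have := h (e u) (e v) (by simp [y', huv])
      simpa [mem_map_equiv] using this
    · intro h u v huv
      have := h (e.symm u) (e.symm v) (by simpa [y'] using huv)
      simpa [mem_map_equiv] using this
  have hp2 : FewUnions y' x₂ := by
    intro S hS0 hS
    rw [Fintype.card_fin] at hS
    have h2 := hy₂ (S.map e.symm.toEmbedding) (by simpa using hS0) (by rwa [card_map])
    refine le_trans (le_of_eq ?_) h2
    congr 1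
    funext z
    congr 1
    apply propext
    constructor
    · intro h u v huv
      have := h (e u) (e v) (by simp [y', huv])
      simpa [mem_map_equiv] using this
    · intro h u v huv
      have := h (e.symm u) (e.symm v) (by simpa [y'] using huv)
      simpa [mem_map_equiv] using this
  have hl : IsLit (Fintype.card V) h a' := by
    intro i
    rcases ha i with h | h | ⟨A, hA, h⟩
    · exact Or.inl fun x => h _
    · exact Or.inr (Or.inl fun x => h _)
    · exact Or.inr (Or.inr ⟨A.map e.toEmbedding, by rw [card_map, hA], fun x => h _⟩)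
  have key := ineq_fam hG h1 hκ y' hh hn hx₁ hp1 hp2 hx₂ hl C β o
  have hc : ∀ z, a' (classes (y' z)) = a (classesV (y z)) := by
    intro z
    change a (fun A => classes (y' z) (A.map e.toEmbedding)) = _
    congr 1
    funext A
    apply propext
    constructor
    · rintro ⟨j, hj⟩
      refine ⟨eJ.symm j, fun v => ?_⟩
      have := hj (e v)
      rw [mem_map_equiv, Equiv.symm_apply_apply] at this
      rw [this]
      simp [y', Equiv.eq_symm_apply]
    · rintro ⟨j, hj⟩
      refine ⟨eJ j, fun v => ?_⟩
      rw [mem_map_equiv, hj]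
      simp [y']
  have hz : ∀ f : Fin (Fintype.card V) → ZMod p,
      a' (zeros f) = a (zerosV fun v => f (e v)) := by
    intro f
    change a (fun A => zeros f (A.map e.toEmbedding)) = _
    congr 1
    funext A
    apply propext
    unfold zeros zerosV
    rw [sum_map]
    rfl
  have h3 : avg (fun f : {f : Fin (Fintype.card V) → ZMod p // ∑ v, f v ≠ 0} =>
      ind (1 ≤ C.mval β (a' (zeros f.1)) o)) =
      avg (fun f : {f : V → ZMod p // ∑ v, f v ≠ 0} =>
        ind (1 ≤ C.mval β (a (zerosV f.1)) o)) := by
    refine avg_equivV (funEquivV e) _ _ fun f => ?_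
    rw [hz]
    rfl
  have h4 : avg (fun z : Z => ind (1 ≤ C.mval β (a' (classes (y' z))) o)) =
      avg (fun z : Z => ind (1 ≤ C.mval β (a (classesV (y z))) o)) := by
    congr 1
    funext z
    rw [hc]
  rw [h3, h4] at key
  exact key

end NegBase
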