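import Pool.Agent.Lib.MP_8fffab_lc_NB.Sphere
import Pool.Agent.Lib.MP_8fffab_lc_NB.CovNo
import Pool.Agent.Lib.MP_8fffab_lc_NB.CovYes
import Pool.Agent.Lib.MP_8fffab_lc_NB.Emb

/-! The levels do not interact. -/
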