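import Pool.Agent.Lib.MP_8fffab_lc_NB.NumC

/-! Rows NUM: the choice of the parameters. -/

open Finset Filter

namespace NegBase

/-- Item (v). -/
theorem num_v {b η η' X E₁ E₂ : ℝ} {c k n M g : ℕ} (hη' : 0 ≤ 1 - η') (hηη : η' ≤ η) (hM : 0 < M)
    (h1 : b ^ n * X ^ c ≤ (2 : ℝ) ^ ((1 - η) * (k * (n / k : ℕ) : ℝ)))
    (hE₁ : 0 < E₁) (hE₂ : 0 ≤ E₂)
    (h2 : (M : ℝ) ^ g * E₁ * 2 ^ ((1 - η') * n) ≤ 1 / 2)
    (h3 : (M : ℝ) ^ g * (3 * E₂) * 2 ^ ((1 - η') * n) ≤ 1 / 2) :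
    ∀ L σ : ℕ, L ≤ M ^ g → 1 ≤ L * (σ * E₁ + (2 * σ + 1) * E₂) → b ^ n * X ^ c ≤ σ := by
  intro L σ hL hσ
  obtain ⟨T, hT⟩ : ∃ T : ℝ, T = 2 ^ ((1 - η') * n) := ⟨_, rfl⟩
  have hn0 : (0 : ℝ) ≤ n := Nat.cast_nonneg n
  have hT1 : 1 ≤ T := by
    rw [hT]
    exact Real.one_le_rpow one_le_two (mul_nonneg hη' hn0)
  have h4 : (2 : ℝ) ^ ((1 - η) * (k * (n / k : ℕ) : ℝ)) ≤ T := by
    rw [hT]
    refine Real.rpow_le_rpow_of_exponent_le one_le_two ?_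
    have h5 : ((k * (n / k) : ℕ) : ℝ) ≤ n := by exact_mod_cast Nat.mul_div_le n k
    push_cast at h5
    have h6 : (0 : ℝ) ≤ ((k : ℝ) * ((n / k : ℕ) : ℝ)) := by positivity
    rcases le_total 0 (1 - η) with h | h
    · calc (1 - η) * ((k : ℝ) * ((n / k : ℕ) : ℝ)) ≤ (1 - η) * n := mul_le_mul_of_nonneg_left h5 h
        _ ≤ (1 - η') * n := mul_le_mul_of_nonneg_right (by linarith) hn0
    · calc (1 - η) * ((k : ℝ) * ((n / k : ℕ) : ℝ)) ≤ 0 := mul_nonpos_of_nonpos_of_nonneg h h6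
        _ ≤ (1 - η') * n := mul_nonneg hη' hn0
  refine (h1.trans h4).trans ?_
  by_contra hlt
  push Not at hlt
  rw [← hT] at h2 h3
  have hMg : (0 : ℝ) < (M : ℝ) ^ g := by
    have : (0 : ℝ) < M := by exact_mod_cast hM
    positivity
  have hL' : (L : ℝ) ≤ (M : ℝ) ^ g := by exact_mod_cast hL
  have hσ0 : (0 : ℝ) ≤ σ := Nat.cast_nonneg σ
  have h7 : (L : ℝ) * (σ * E₁ + (2 * σ + 1) * E₂) ≤
      (M : ℝ) ^ g * (σ * E₁ + (2 * σ + 1) * E₂) :=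
    mul_le_mul_of_nonneg_right hL' (by positivity)
  have h8 : (2 * σ + 1) * E₂ ≤ 3 * T * E₂ := mul_le_mul_of_nonneg_right (by linarith) hE₂
  have h9 : σ * E₁ < T * E₁ := mul_lt_mul_of_pos_right hlt hE₁
  have h10 : (M : ℝ) ^ g * (σ * E₁ + (2 * σ + 1) * E₂) < (M : ℝ) ^ g * (T * E₁ + 3 * T * E₂) :=
    mul_lt_mul_of_pos_left (by linarith) hMg
  have h11 : (M : ℝ) ^ g * (T * E₁ + 3 * T * E₂) =
      (M : ℝ) ^ g * E₁ * T + (M : ℝ) ^ g * (3 * E₂) * T := by ring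
  linarith

/-- NUM: all numerical facts. `g = q * (D * s)!` is the number of super-pieces. -/
theorem num_main (b : ℝ) (hb0 : 0 ≤ b) (hb : b < 2) (c : ℕ) {ε : ℝ} (hε : 0 < ε) :
    ∃ k₀ : ℕ, ∀ k ≥ k₀, ∃ s D M G : ℕ, 2 ≤ s ∧ s ≤ D ∧ 0 < M ∧ D * s + 1 ≤ k ∧ ∀ p t : ℕ, 0 < p →
      ∃ n₀ : ℕ, ∀ n ≥ n₀, ∃ q κ : ℕ, 0 < q ∧ 0 < κ ∧
        q * (D * s).factorial * ((D + M) * s) + k ≤ n ∧
        (κ : ℝ) ^ (D * s) * (1 / 2) ^ (q * (D * s).factorial / 2) * (2 * p ^ (D * s)) ≤ 1 ∧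
        (∀ L ≤ M ^ (q * (D * s).factorial),
          L * (D * s * s ^ (q * (D * s).factorial)) + (L + (k - 1 - D * s)) ≤ n.choose (n / k)) ∧
        ((n.choose (n / k) : ℝ) * n) ^ (1 - ε) * ((q * (D * s).factorial : ℕ) * M ^ 2) ≤
          M ^ (q * (D * s).factorial) ∧
        ∀ L σ : ℕ, L ≤ M ^ (q * (D * s).factorial) →
          1 ≤ L * (σ * err1 D s (q * (D * s).factorial) κ +
            (2 * σ + 1) * err2 D s (q * (D * s).factorial) κ p t G) →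
          b ^ n * ((n.choose (n / k) : ℝ) * n) ^ c ≤ σ := by
  obtain ⟨η, hη, k₁, hk₁, hbound⟩ := SetCoverMono.num_bound b hb hb0 c
  have hlog2 : 0 < Real.log 2 := Real.log_pos one_lt_two
  obtain ⟨ε', hε'⟩ : ∃ ε', ε' = min ε (1 / 2) := ⟨_, rfl⟩
  obtain ⟨η', hη'⟩ : ∃ η', η' = min η (1 / 2) := ⟨_, rfl⟩
  have hε0 : 0 < ε' := by rw [hε']; exact lt_min hε (by norm_num)
  have hε1 : ε' ≤ 1 / 2 := by rw [hε']; exact min_le_right _ _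
  have hε2 : ε' ≤ ε := by rw [hε']; exact min_le_left _ _
  have hη0 : 0 < η' := by rw [hη']; exact lt_min hη (by norm_num)
  have hη1 : η' ≤ 1 / 2 := by rw [hη']; exact min_le_right _ _
  have hη2 : η' ≤ η := by rw [hη']; exact min_le_left _ _
  obtain ⟨s₁, hs₁⟩ := log_small (show 0 < η' * Real.log 2 by positivity)
  obtain ⟨s₂, hs₂⟩ := log_small (show 0 < ε' * Real.log 2 by positivity)
  obtain ⟨s₀, hs₀⟩ : ∃ s₀, s₀ = max (max s₁ s₂) 10 := ⟨_, rfl⟩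
  refine ⟨max k₁ (2 ^ s₀), fun k hk => ?_⟩
  have hkk₁ : k₁ ≤ k := (le_max_left _ _).trans hk
  have hks₀ : 2 ^ s₀ ≤ k := (le_max_right _ _).trans hk
  have hk0 : k ≠ 0 := by
    have : 0 < 2 ^ s₀ := by positivity
    omega
  obtain ⟨s, hs⟩ : ∃ s, s = Nat.log 2 k := ⟨_, rfl⟩
  have hsk1 : 2 ^ s ≤ k := by rw [hs]; exact Nat.pow_log_le_self 2 hk0
  have hsk2 : k < 2 ^ (s + 1) := by rw [hs]; exact Nat.lt_pow_succ_log_self (by norm_num) k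
  have hs₀s : s₀ ≤ s := by
    rw [hs]
    exact Nat.le_log_of_pow_le (by norm_num) hks₀
  have hs10 : 10 ≤ s := by omega
  obtain ⟨D, M, hsD, hM, hDsk, hkW, hMs, hkM, hDs, hMD⟩ := params hs10 hsk1
  have hs1 : 1 ≤ s := by omega
  have hD1 : 1 ≤ D := by omega
  have hc1 := hs₁ s (by omega)
  have hc2 := hs₂ s (by omega)
  obtain ⟨H, hH⟩ : ∃ H, H = 8 * (D * s) ^ 2 := ⟨_, rfl⟩
  have hK0 : 0 < D * s := Nat.mul_pos hD1 hs1
  have hH0 : 0 < H := by rw [hH]; positivity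
  refine ⟨s, D, M, (2 * (D * s) + 5) * H, by omega, hsD, hM, hDsk, fun p t hp => ?_⟩
  obtain ⟨n₁, hn₁⟩ := hbound k hkk₁
  obtain ⟨F, hF⟩ : ∃ F, F = (D * s).factorial := ⟨_, rfl⟩
  have hF0 : 0 < F := by rw [hF]; exact Nat.factorial_pos _
  obtain ⟨W, hW⟩ : ∃ W, W = (D + M) * s := ⟨_, rfl⟩
  have hW0 : 0 < W := by rw [hW]; exact Nat.mul_pos (by omega) hs1
  obtain ⟨C, hC⟩ : ∃ C, C = F * W + k := ⟨_, rfl⟩
  have hF4 := num_F4 hs1 hsk1 hsk2 hM hMs hkM hDs hε0.le (by linarith) hc2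
  obtain ⟨g₁, hg₁⟩ := num_levels (C := C) (Nat.pos_of_ne_zero hk0) hM one_pos hε0.le (by linarith) hF4
  obtain ⟨g₂, hg₂⟩ := num_err1 (k := k) (C := C) hs1 hD1 hM hη0 (by linarith) hMs hH0 hH.ge hc1
  obtain ⟨g₃, hg₃⟩ := num_err2 (C := C) (p := p) (t := t) (η := η') hs1 hD1 hM hη0 hMD hH0
  obtain ⟨g₄, hg₄⟩ := num_ii (p := p) hK0 hH.ge
  obtain ⟨g₀, hg₀⟩ : ∃ g₀, g₀ = max (max g₁ g₂) (max g₃ g₄) := ⟨_, rfl⟩
  refine ⟨max n₁ (k + F * W + g₀ * W), fun n hn => ?_⟩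
  have hnn₁ : n₁ ≤ n := (le_max_left _ _).trans hn
  have hnk : k + F * W + g₀ * W ≤ n := (le_max_right _ _).trans hn
  obtain ⟨q, hq⟩ : ∃ q, q = (n - k) / (F * W) := ⟨_, rfl⟩
  obtain ⟨g, hg⟩ : ∃ g, g = q * F := ⟨_, rfl⟩
  have hFW : 0 < F * W := Nat.mul_pos hF0 hW0
  have hgW : g * W = F * W * q := by rw [hg]; ring
  have hq1 : F * W * q ≤ n - k := by rw [hq]; exact Nat.mul_div_le _ _
  have hq2 : n - k < F * W * q + F * W := by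
    rw [hq]
    have := Nat.lt_mul_div_succ (n - k) hFW
    linarith [Nat.mul_succ (F * W) ((n - k) / (F * W))]
  have hg₀g : g₀ < g := by
    have h1 : g₀ * W < g * W := by omega
    exact Nat.lt_of_mul_lt_mul_right h1
  have hq0 : 0 < q := by
    rcases Nat.eq_zero_or_pos q with h | h
    · rw [h, Nat.zero_mul] at hg
      omega
    · exact h
  have hn0 : 0 < n := by omega
  have hnC : n ≤ g * W + C := by omega
  have hgn : g * W + k ≤ n := by omega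
  obtain ⟨κ, hκ⟩ : ∃ κ : ℕ, κ = 2 ^ ((g * (D * s) + D * s) / H) := ⟨_, rfl⟩
  have hκ0 : 0 < κ := by rw [hκ]; positivity
  rw [← hF, ← hW]
  refine ⟨q, κ, hq0, hκ0, ?_⟩
  rw [← hg]
  have hi4 := hg₁ g (by omega) n hn0 (by rw [← hW]; exact hnC)
  refine ⟨hgn, hg₄ g (by omega) κ hκ, ?_, ?_, ?_⟩
  · rw [hW] at hgn
    exact num_iii hs10 hM hMs hDsk (by omega) hkW hgn
  · refine le_trans ?_ hi4
    refine mul_le_mul_of_nonneg_right ?_ (by positivity)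
    refine Real.rpow_le_rpow_of_exponent_le ?_ (by linarith)
    have h1 : 1 ≤ n.choose (n / k) := Nat.choose_pos (Nat.div_le_self _ _)
    have h2 : (1 : ℝ) ≤ n.choose (n / k) := by exact_mod_cast h1
    have h3 : (1 : ℝ) ≤ n := by exact_mod_cast hn0
    nlinarith
  · have hκ' : (0 : ℝ) < κ := by exact_mod_cast hκ0
    refine num_v (η := η) (η' := η') (k := k) (by linarith) hη2 hM (hn₁ n hnn₁) ?_ ?_
      (hg₂ g (by omega) n κ (by rw [← hW]; exact hnC) hκ)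
      (hg₃ g (by omega) n κ (by rw [← hW]; exact hnC) hκ)
    · unfold err1
      positivity
    · unfold err2
      positivity

end NegBase
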