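import Pool.Agent.Lib.MP_8fffab_lc_NB.Defs

open Finset FewNeg

namespace NegBase

private lemma sum_patterns (s : ℕ) : 2 * ∑ u : Fin s → Fin 3,
    ∏ a, (univ.filter fun i => u i = a).card.factorial = (s + 2).factorial := by
  induction s with
  | zero => simp
  | succ s ih =>
    have h1 : ∑ u : Fin (s + 1) → Fin 3, ∏ a, (univ.filter fun i => u i = a).card.factorial =
        ∑ p : Fin 3 × (Fin s → Fin 3), (∏ a, (univ.filter fun i => p.2 i = a).card.factorial) *
          ((univ.filter fun i => p.2 i = p.1).card + 1) := by
      refine (Fintype.sum_equiv (Fin.consEquiv fun _ => Fin 3) _ _ ?_).symm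
      rintro ⟨a, u⟩
      have h2 : ∀ b, (univ.filter fun i => (Fin.consEquiv fun _ => Fin 3) (a, u) i = b).card =
          (if a = b then 1 else 0) + (univ.filter fun i => u i = b).card := by
        intro b
        rw [Fin.card_filter_univ_succ]
        simp only [Fin.consEquiv_apply, Fin.cons_zero, Fin.cons_succ]
        split_ifs <;> simp [add_comm]
      simp only [h2]
      rw [← mul_prod_erase univ _ (mem_univ a), ← mul_prod_erase univ
        (fun b => ((if a = b then 1 else 0) + (univ.filter fun i => u i = b).card).factorial)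
        (mem_univ a)]
      rw [if_pos rfl, add_comm 1, Nat.factorial_succ]
      have h3 : ∏ b ∈ univ.erase a, ((if a = b then 1 else 0) +
          (univ.filter fun i => u i = b).card).factorial =
          ∏ b ∈ univ.erase a, (univ.filter fun i => u i = b).card.factorial := by
        refine prod_congr rfl fun b hb => ?_
        rw [if_neg (ne_of_mem_erase hb).symm, zero_add]
      rw [h3]
      ring
    rw [h1, Fintype.sum_prod_type_right]
    simp only [← mul_sum]
    have h4 : ∀ u : Fin s → Fin 3,
        ∑ a, ((univ.filter fun i => u i = a).card + 1) = s + 3 := by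
      intro u
      rw [sum_add_distrib, ← card_eq_sum_card_fiberwise (f := u) (s := univ) (t := univ)
        (fun _ _ => by simp)]
      simp
    simp only [h4, ← sum_mul]
    rw [← mul_assoc, ih, show (s + 1 + 2).factorial = (s + 3) * (s + 2).factorial from
      Nat.factorial_succ (s + 2)]
    ring

private lemma card_fix {α β : Type*} [Fintype α] [DecidableEq α] [Fintype β] (e : β → α)
    (he : Function.Injective e) (f : β → α) :
    (univ.filter fun π : Equiv.Perm α => ∀ i, π (e i) = f i).card ≤
      (Fintype.card α - Fintype.card β).factorial := by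
  classical
  by_cases hne : ∃ π₀ : Equiv.Perm α, ∀ i, π₀ (e i) = f i
  · obtain ⟨π₀, h0⟩ := hne
    let p : α → Prop := fun x => x ∉ Set.range e
    have h1 : Fintype.card {g : Equiv.Perm α // ∀ a, ¬ p a → g a = a} =
        (Fintype.card α - Fintype.card β).factorial := by
      rw [← Fintype.card_congr (Equiv.Perm.subtypeEquivSubtypePerm p), Fintype.card_perm]
      congr 1
      rw [Fintype.card_subtype_compl]
      congr 1
      exact Set.card_range_of_injective he
    rw [← h1, Fintype.card_subtype]
    refine card_le_card_of_injOn (fun π => π₀⁻¹ * π) ?_ ?_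
    · intro π hπ
      simp only [coe_filter, mem_univ, true_and, Set.mem_ofPred_eq] at hπ ⊢
      intro a ha
      simp only [p, Set.mem_range, not_exists, not_forall, not_not] at ha
      obtain ⟨i, hi⟩ := ha
      rw [← hi, Equiv.Perm.mul_apply, hπ i, ← h0 i]
      simp
    · intro π _ π' _ h
      exact mul_left_cancel h
  · have : (univ.filter fun π : Equiv.Perm α => ∀ i, π (e i) = f i) = ∅ := by
      rw [filter_eq_empty_iff]
      intro π _ h
      exact hne ⟨π, h⟩
    rw [this, card_empty]
    exact Nat.zero_le _

private lemma pow_le_desc (K s : ℕ) (h : s * s ≤ K) :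
    (K : ℝ) ^ s * (K - s).factorial ≤ 2 * K.factorial := by
  rcases Nat.eq_zero_or_pos s with rfl | hs
  · simp
    have : (0 : ℝ) ≤ K.factorial := by positivity
    linarith
  have hKs : s ≤ K := le_trans (Nat.le_mul_of_pos_left s hs) h
  have hK : 0 < K := lt_of_lt_of_le hs hKs
  have key : ∀ j ≤ s, (K : ℝ) ^ j * (2 * K - j * (j - 1)) ≤ 2 * K * K.descFactorial j := by
    intro j
    induction j with
    | zero => intro _; simp
    | succ j ih =>
      intro hj
      have hj' := ih (by omega)
      rw [Nat.descFactorial_succ]
      push_cast [Nat.cast_sub (show j ≤ K by omega)]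
      have hjK : (j : ℝ) ≤ K := by exact_mod_cast (show j ≤ K by omega)
      have h1 : (K : ℝ) ^ j * (2 * K - j * (j - 1)) * (K - j) ≤
          2 * K * K.descFactorial j * (K - j) :=
        mul_le_mul_of_nonneg_right hj' (by linarith)
      have h2 : (0 : ℝ) ≤ (K : ℝ) ^ j * (j * (j * (j - 1))) := by
        rcases Nat.eq_zero_or_pos j with rfl | hj0
        · simp
        · have : (1 : ℝ) ≤ j := by exact_mod_cast hj0
          have : (0 : ℝ) ≤ (j : ℝ) - 1 := by linarith
          positivity
      have h3 : (K : ℝ) ^ (j + 1) * (2 * K - (j + 1) * (j + 1 - 1)) =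
          (K : ℝ) ^ j * (2 * K - j * (j - 1)) * (K - j) -
            (K : ℝ) ^ j * (j * (j * (j - 1))) := by ring
      rw [h3]
      linarith
  have h1 := key s le_rfl
  have h2 : (K : ℝ) ^ s * K ≤ 2 * K * K.descFactorial s := by
    refine le_trans ?_ h1
    refine mul_le_mul_of_nonneg_left ?_ (by positivity)
    have : ((s * s : ℕ) : ℝ) ≤ K := by exact_mod_cast h
    push_cast at this
    have : (0 : ℝ) ≤ s := by positivity
    nlinarith
  have h3 : (K : ℝ) ^ s ≤ 2 * K.descFactorial s := by
    have hK' : (0 : ℝ) < K := by exact_mod_cast hK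
    have : (K : ℝ) ^ s * K ≤ (2 * K.descFactorial s) * K := by linarith
    exact le_of_mul_le_mul_right this hK'
  have h4 : (K - s).factorial * K.descFactorial s = K.factorial := Nat.factorial_mul_descFactorial hKs
  calc (K : ℝ) ^ s * (K - s).factorial ≤ 2 * K.descFactorial s * (K - s).factorial := by
        gcongr
    _ = 2 * (((K - s).factorial * K.descFactorial s : ℕ) : ℝ) := by push_cast; ring
    _ = _ := by rw [h4]

/-- PAIR2: the average over all permutations. -/
theorem pair_avg {D s : ℕ} (hs : 1 ≤ s) (hD : s ≤ D) (τ : Pos D s → Fin 3)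
    (hτ : ∀ a, 2 * (univ.filter fun j => τ j = a).card ≤ D * s) (d : Fin D) :
    ∑ π : Equiv.Perm (Pos D s), wT τ π d ≤ (D * s).factorial * (3 * (s + 1) ^ 2 / 2 ^ s) := by
  classical
  have hcard : Fintype.card (Pos D s) = D * s := by simp [Pos]
  let W : (Fin s → Fin 3) → ℝ := fun u =>
    (∏ a, ((univ.filter fun i => u i = a).card.factorial : ℝ)) / s.factorial
  have hW0 : ∀ u, 0 ≤ W u := fun u => by positivity
  have h1 : ∑ π : Equiv.Perm (Pos D s), wT τ π d =
      ∑ u : Fin s → Fin 3, ∑ π ∈ univ.filter fun π : Equiv.Perm (Pos D s) =>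
        (fun i => τ (π (d, i))) = u, W u := by
    rw [← sum_fiberwise_of_maps_to (s := univ) (t := univ)
      (g := fun π : Equiv.Perm (Pos D s) => fun i => τ (π (d, i))) (fun _ _ => mem_univ _)]
    refine sum_congr rfl fun u _ => sum_congr rfl fun π hπ => ?_
    have hu := (mem_filter.1 hπ).2
    simp only [W, wT, cntT, ← hu]
  have h2 : ∀ u : Fin s → Fin 3, ((univ.filter fun π : Equiv.Perm (Pos D s) =>
      (fun i => τ (π (d, i))) = u).card : ℝ) ≤
        ((D * s : ℕ) / 2 : ℝ) ^ s * (D * s - s).factorial := by
    intro u
    have h3 : (univ.filter fun π : Equiv.Perm (Pos D s) =>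
        (fun i => τ (π (d, i))) = u) ⊆
        (Fintype.piFinset fun i => univ.filter fun j => τ j = u i).biUnion fun f =>
          univ.filter fun π : Equiv.Perm (Pos D s) => ∀ i, π (d, i) = f i := by
      intro π hπ
      have hu := (mem_filter.1 hπ).2
      rw [mem_biUnion]
      refine ⟨fun i => π (d, i), ?_, ?_⟩
      · rw [Fintype.mem_piFinset]
        intro i
        simp only [mem_filter, mem_univ, true_and]
        exact congrFun hu i
      · simp
    have h4 : (univ.filter fun π : Equiv.Perm (Pos D s) =>
        (fun i => τ (π (d, i))) = u).card ≤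
        (∏ i, (univ.filter fun j => τ j = u i).card) * (D * s - s).factorial := by
      refine (card_le_card h3).trans ?_
      refine (card_biUnion_le_card_mul _ _ (D * s - s).factorial ?_).trans ?_
      · intro f _
        have := card_fix (fun i : Fin s => ((d, i) : Pos D s)) (fun i j h => by simpa using h) f
        rw [hcard, Fintype.card_fin] at this
        exact (card_le_card (fun π hπ => by simpa using hπ)).trans this
      · rw [Fintype.card_piFinset]
    calc ((univ.filter fun π : Equiv.Perm (Pos D s) =>
        (fun i => τ (π (d, i))) = u).card : ℝ) ≤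
        ((∏ i, (univ.filter fun j => τ j = u i).card) * (D * s - s).factorial : ℕ) := by
          exact_mod_cast h4
      _ = (∏ i, ((univ.filter fun j => τ j = u i).card : ℝ)) * (D * s - s).factorial := by
          push_cast; ring
      _ ≤ (∏ _i : Fin s, ((D * s : ℕ) / 2 : ℝ)) * (D * s - s).factorial := by
          refine mul_le_mul_of_nonneg_right ?_ (by positivity)
          refine prod_le_prod (fun _ _ => by positivity) fun i _ => ?_
          have := hτ (u i)
          have h5 : ((2 * (univ.filter fun j => τ j = u i).card : ℕ) : ℝ) ≤ (D * s : ℕ) := by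
            exact_mod_cast this
          push_cast at h5 ⊢
          linarith
      _ = _ := by rw [prod_const, card_univ, Fintype.card_fin]
  have h6 : ∑ u : Fin s → Fin 3, W u = (s + 2) * (s + 1) / 2 := by
    simp only [W]
    rw [← sum_div]
    have h7 := sum_patterns s
    have h8 : (2 : ℝ) * ∑ u : Fin s → Fin 3,
        ∏ a, ((univ.filter fun i => u i = a).card.factorial : ℝ) = (s + 2).factorial := by
      exact_mod_cast h7
    rw [Nat.factorial_succ, Nat.factorial_succ] at h8
    push_cast at h8
    have h9 : (s.factorial : ℝ) ≠ 0 := by positivity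
    rw [div_eq_iff h9]
    linarith
  rw [h1]
  simp only [sum_const, nsmul_eq_mul]
  calc ∑ u : Fin s → Fin 3, ((univ.filter fun π : Equiv.Perm (Pos D s) =>
        (fun i => τ (π (d, i))) = u).card : ℝ) * W u ≤
      ∑ u : Fin s → Fin 3, (((D * s : ℕ) / 2 : ℝ) ^ s * (D * s - s).factorial) * W u :=
        sum_le_sum fun u _ => mul_le_mul_of_nonneg_right (h2 u) (hW0 u)
    _ = (((D * s : ℕ) / 2 : ℝ) ^ s * (D * s - s).factorial) * ((s + 2) * (s + 1) / 2) := by
        rw [← mul_sum, h6]
    _ = (((D * s : ℕ) : ℝ) ^ s * (D * s - s).factorial) * ((s + 2) * (s + 1) / 2 / 2 ^ s) := by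
        rw [div_pow]; ring
    _ ≤ (2 * (D * s).factorial) * ((s + 2) * (s + 1) / 2 / 2 ^ s) := by
        refine mul_le_mul_of_nonneg_right ?_ (by positivity)
        exact pow_le_desc (D * s) s (Nat.mul_le_mul_right s hD)
    _ = (D * s).factorial * (((s + 2) * (s + 1)) / 2 ^ s) := by ring
    _ ≤ _ := by
        refine mul_le_mul_of_nonneg_left ?_ (by positivity)
        refine div_le_div_of_nonneg_right ?_ (by positivity)
        have : (0 : ℝ) ≤ s := by positivity
        nlinarith

end NegBase
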