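import Pool.Agent.Lib.MP_8fffab_lc_NB.Defs

/-! Rows PAIR3, PAIR4, UNI3. -/

open Finset FewNeg

namespace NegBase

/-- PAIR3: arithmetic and geometric mean. -/
theorem pair_amgm {α : Type} [Fintype α] (w : α → ℝ) (hw : ∀ x, 0 ≤ w x) {B : ℝ}
    (hB : ∑ x, w x ≤ Fintype.card α * B) : ∏ x, w x ≤ B ^ Fintype.card α := by
  classical
  rcases isEmpty_or_nonempty α with h | h
  · simp
  have hc : (0 : ℝ) < Fintype.card α := by exact_mod_cast Fintype.card_pos
  have hP : 0 ≤ ∏ x, w x := prod_nonneg fun x _ => hw x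
  have h1 := Real.geom_mean_le_arith_mean_weighted univ (fun _ : α => (1 : ℝ) / Fintype.card α) w
    (fun _ _ => by positivity) (by rw [sum_const, card_univ, nsmul_eq_mul]; field_simp)
    (fun x _ => hw x)
  have h2 : ∏ x, w x ^ ((1 : ℝ) / Fintype.card α) = (∏ x, w x) ^ ((1 : ℝ) / Fintype.card α) :=
    Real.finsetProd_rpow univ w (fun x _ => hw x) _
  rw [h2] at h1
  have h3 : ∑ x, (1 : ℝ) / Fintype.card α * w x ≤ B := by
    rw [← mul_sum, one_div, inv_mul_le_iff₀ hc]
    exact hB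
  have h4 := pow_le_pow_left₀ (by positivity) (h1.trans h3) (Fintype.card α)
  rwa [← Real.rpow_natCast ((∏ x, w x) ^ _), ← Real.rpow_mul hP, one_div,
    inv_mul_cancel₀ hc.ne', Real.rpow_one] at h4

end NegBase
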