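import Pool.Agent.Lib.MP_8fffab_lc_NB.Defs

open Finset FewNeg

namespace NegBase

/-- UNION2: at least half of the permutations have a mixed block. -/
theorem union_half {D s : ℕ} (hs : 2 ≤ s) (J₁ : Finset (Pos D s)) (hne : J₁.Nonempty)
    (hJ : 2 * J₁.card ≤ D * s) :
    (D * s).factorial ≤ 2 * (univ.filter fun π : Equiv.Perm (Pos D s) =>
      ∃ d i i', π (d, i) ∈ J₁ ∧ π (d, i') ∉ J₁).card := by
  classical
  obtain ⟨j₁, hj₁⟩ := hne
  have hcard : Fintype.card (Pos D s) = D * s := by simp [Pos]
  have h1 : 0 < J₁.card := card_pos.2 ⟨j₁, hj₁⟩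
  obtain ⟨j₂, hj₂⟩ : ∃ j, j ∉ J₁ := by
    by_contra hcon
    push Not at hcon
    have : J₁ = univ := eq_univ_of_forall hcon
    rw [this, card_univ, hcard] at hJ h1
    omega
  set P : Equiv.Perm (Pos D s) → Prop := fun π => ∃ d i i', π (d, i) ∈ J₁ ∧ π (d, i') ∉ J₁
    with hP
  have hinj : (univ.filter fun π => ¬ P π).card ≤ (univ.filter fun π => P π).card := by
    refine card_le_card_of_injOn (fun π => π.trans (Equiv.swap j₁ j₂)) ?_ ?_
    · intro π hπ
      simp only [coe_filter, mem_univ, true_and, Set.mem_ofPred_eq] at hπ ⊢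
      have hall : ∀ d i i', π (d, i) ∈ J₁ → π (d, i') ∈ J₁ := by
        intro d i i' hi
        by_contra hi'
        exact hπ ⟨d, i, i', hi, hi'⟩
      obtain ⟨⟨d, i⟩, hdi⟩ := π.surjective j₁
      obtain ⟨i', hi'⟩ : ∃ i' : Fin s, i' ≠ i := by
        have : Nontrivial (Fin s) := Fin.nontrivial_iff_two_le.2 hs
        exact exists_ne i
      have hm : π (d, i') ∈ J₁ := hall d i i' (hdi ▸ hj₁)
      refine ⟨d, i', i, ?_, ?_⟩
      · have h2 : π (d, i') ≠ j₁ := by
          rw [← hdi]
          intro h
          have := π.injective h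
          simp only [Prod.mk.injEq, true_and] at this
          exact hi' this
        have h3 : π (d, i') ≠ j₂ := fun h => hj₂ (h ▸ hm)
        simp only [Equiv.trans_apply]
        rw [Equiv.swap_apply_of_ne_of_ne h2 h3]
        exact hm
      · simp only [Equiv.trans_apply, hdi, Equiv.swap_apply_left]
        exact hj₂
    · intro π _ π' _ h
      ext x : 1
      have := congrArg (fun e : Equiv.Perm (Pos D s) => e x) h
      simpa using this
  have htot := card_filter_add_card_filter_not (s := (univ : Finset (Equiv.Perm (Pos D s)))) P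
  rw [card_univ, Fintype.card_perm, hcard] at htot
  have e1 : (univ.filter fun π => P π).card ≤ (univ.filter fun π : Equiv.Perm (Pos D s) =>
      ∃ d i i', π (d, i) ∈ J₁ ∧ π (d, i') ∉ J₁).card :=
    card_le_card fun π hπ => by
      simp only [mem_filter, mem_univ, true_and] at hπ ⊢
      exact hπ
  have e2 : (univ.filter fun π => ¬ P π).card + (univ.filter fun π => P π).card =
      (D * s).factorial := by
    rw [← htot, add_comm]
  omega

end NegBase
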