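import Pool.Agent.Lib.MP_8fffab_lc_NB.Pair1
import Pool.Agent.Lib.MP_8fffab_lc_NB.Pair2
import Pool.Agent.Lib.MP_8fffab_lc_NB.Pair3
import Pool.Agent.Lib.MP_8fffab_lc_NB.Uni2

/-! Few colourings of a level have given unions of classes. -/

open Finset FewNeg

namespace NegBase

theorem wT_nonneg {D s : ℕ} (τ : Pos D s → Fin 3) (π : Equiv.Perm (Pos D s)) (d : Fin D) :
    0 ≤ wT τ π d := by unfold wT; positivity

/-- PAIR4. -/
theorem fewPairs_colour {q D s : ℕ} (hs : 1 ≤ s) (hD : s ≤ D) :
    FewPairs (colour : Col q D s → Win q D s → Pos D s)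
      ((3 * ((s : ℝ) + 1) ^ 2 / 2 ^ s) ^ (D * (q * (D * s).factorial))) := by
  classical
  intro S T hST hS hT hU
  obtain ⟨B, hB⟩ : ∃ B : ℝ, B = 3 * ((s : ℝ) + 1) ^ 2 / 2 ^ s := ⟨_, rfl⟩
  have hB0 : 0 ≤ B := by rw [hB]; positivity
  rw [← hB]
  rcases pair_prod S T hST hS hT hU with h | ⟨τ, hτ, h⟩
  · have : avg (fun z : Col q D s => ind (∀ u v, colour z u = colour z v →
        (u ∈ S ↔ v ∈ S) ∧ (u ∈ T ↔ v ∈ T))) = 0 := by
      have h1 : (fun z : Col q D s => ind (∀ u v, colour z u = colour z v →
        (u ∈ S ↔ v ∈ S) ∧ (u ∈ T ↔ v ∈ T))) = fun _ => (0 : ℝ) := by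
        funext z
        exact ind_false (h z)
      have hne : Nonempty (Col q D s) := ⟨fun _ _ => 1⟩
      rw [h1, avg_const]
    rw [this]
    positivity
  · refine h.trans ?_
    have hcard : Fintype.card (Sup q D s × Fin D) = D * (q * (D * s).factorial) := by
      rw [Fintype.card_prod, Fintype.card_prod, Fintype.card_perm]
      simp only [Fintype.card_fin, Fintype.card_prod]
      ring
    have key := pair_amgm (α := Sup q D s × Fin D) (fun x => wT τ x.1.2 x.2)
      (fun x => wT_nonneg _ _ _) (B := B) (by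
        rw [hcard, Fintype.sum_prod_type, Fintype.sum_prod_type]
        have h1 : ∀ d : Fin D, ∑ π : Equiv.Perm (Pos D s), wT τ π d ≤ (D * s).factorial * B := by
          intro d
          rw [hB]
          exact pair_avg hs hD τ hτ d
        calc ∑ i : Fin q, ∑ π : Equiv.Perm (Pos D s), ∑ d, wT τ π d
            = ∑ i : Fin q, ∑ d, ∑ π : Equiv.Perm (Pos D s), wT τ π d := by
              apply sum_congr rfl
              intro i _
              exact sum_comm
          _ ≤ ∑ i : Fin q, ∑ d : Fin D, ((D * s).factorial : ℝ) * B :=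
              sum_le_sum fun i _ => sum_le_sum fun d _ => h1 d
          _ = _ := by
              rw [sum_const, sum_const, card_univ, card_univ, Fintype.card_fin, Fintype.card_fin]
              simp only [nsmul_eq_mul]
              push_cast
              ring)
    rw [hcard, Fintype.prod_prod_type] at key
    exact key

/-- UNION3. -/
theorem fewUnions_colour {q D s : ℕ} (hs : 2 ≤ s) (_hD : 1 ≤ D) :
    FewUnions (colour : Col q D s → Win q D s → Pos D s)
      ((1 / 2) ^ (q * (D * s).factorial / 2)) := by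
  classical
  intro S hne hS
  rcases union_prod hs S hne hS with h | ⟨J₁, hJ, hJ2, h⟩
  · have : avg (fun z : Col q D s => ind (∀ u v, colour z u = colour z v →
        (u ∈ S ↔ v ∈ S))) = 0 := by
      have h1 : (fun z : Col q D s => ind (∀ u v, colour z u = colour z v →
        (u ∈ S ↔ v ∈ S))) = fun _ => (0 : ℝ) := by
        funext z
        exact ind_false (h z)
      have hne : Nonempty (Col q D s) := ⟨fun _ _ => 1⟩
      rw [h1, avg_const]
    rw [this]
    positivity
  · refine h.trans ?_
    apply pow_le_pow_of_le_one (by norm_num) (by norm_num)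
    have h1 := union_half hs J₁ hJ hJ2
    have h2 : (univ.filter fun c : Sup q D s => ∃ d i i', c.2 (d, i) ∈ J₁ ∧ c.2 (d, i') ∉ J₁) =
        (univ : Finset (Fin q)) ×ˢ (univ.filter fun π : Equiv.Perm (Pos D s) =>
          ∃ d i i', π (d, i) ∈ J₁ ∧ π (d, i') ∉ J₁) := by
      ext ⟨a, π⟩
      simp
    rw [h2, card_product, card_univ, Fintype.card_fin]
    have h3 := Nat.mul_le_mul_left q h1
    have h4 : ∀ x y : ℕ, x ≤ 2 * y → x / 2 ≤ y := fun x y h => by omega
    apply h4
    calc _ ≤ _ := h3
      _ = _ := by ring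

end NegBase
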