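import Pool.Agent.Lib.MP_8fffab_lc_NB.FamV
import Pool.Agent.Lib.MP_8fffab_lc_NB.Pair
import Pool.Agent.Lib.MP_8fffab_lc_NB.Level
import Pool.Agent.Lib.MP_8fffab_lc_NB.Num
import Pool.Agent.Lib.MP_8fffab_lc_RG.Main

/-! Rows CORE, ASM: the lower bound. -/

open Finset FewNeg

namespace NegBase

open RealMono (HasRandomCircuit)
open AlmostMono (Reach reach_spec)

/-- CORE: one level. -/
theorem core_neg {p t G κ q D s : ℕ} [Fact p.Prime] (hs : 2 ≤ s) (hD : s ≤ D)
    (hG : G < 2 * t) (h1 : SetCoverMono.OneDim p (D * s) t G) (hκ : 0 < κ)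
    (hx : (κ : ℝ) ^ (D * s) * (1 / 2) ^ (q * (D * s).factorial / 2) * (2 * p ^ (D * s)) ≤ 1)
    {ι : Type} {a : (Finset (Win q D s) → Prop) → ι → Prop}
    (ha : IsLitV (Win q D s) (q * (D * s).factorial + 1) a) (C : RealMono.Circuit ι)
    (β : ℕ → Prop) (o : ℕ) :
    avg (fun z : Col q D s => ind (1 ≤ C.mval β (a (classesV (colour z))) o)) ≤
      avg (fun f : {f : Win q D s → ZMod p // ∑ v, f v ≠ 0} =>
        ind (1 ≤ C.mval β (a (zerosV f.1)) o)) +
      (C.numMono o * err1 D s (q * (D * s).factorial) κ +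
        (2 * C.numMono o + 1) * err2 D s (q * (D * s).factorial) κ p t G) := by
  classical
  have hK : 4 ≤ D * s := by nlinarith
  have hJ : Fintype.card (Pos D s) = D * s := by simp
  have hV : Fintype.card (Win q D s) = q * (D * s).factorial * (D * s) + D * s := by
    rw [Fintype.card_sum, Fintype.card_prod, Fintype.card_prod, Fintype.card_perm, hJ]
    simp
  have : Nonempty (Col q D s) := ⟨fun _ _ => 1⟩
  have key := ineq_famV (p := p) (h := q * (D * s).factorial + 1) (t := t) (G := G) (κ := κ)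
    (V := Win q D s) (J := Pos D s) hG (by rw [hJ]; exact h1) hκ
    (colour : Col q D s → Win q D s → Pos D s)
    (by
      rw [hV]
      calc 2 * (q * (D * s).factorial + 1) ≤ D * s * (q * (D * s).factorial + 1) :=
            Nat.mul_le_mul_right _ (by omega)
        _ = _ := by ring)
    (by rw [hV]; omega) (by positivity) (fewPairs_colour (by omega) hD)
    (fewUnions_colour hs (by omega)) (by rw [hJ]; exact hx) ha C β o
  refine key.trans (le_of_eq ?_)
  have hcnt : RealMono.cnt C (o + 1) = C.numMono o := rfl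
  rw [hcnt, hJ, hV]
  unfold err1 err2
  have e1 : D * (q * (D * s).factorial) = D * (q * (D * s).factorial) := rfl
  ring

/-- The sets of the level `l` with sum zero. -/
def Xv (q D s p : ℕ) (l : ℕ) (ω : {f : Win q D s → ZMod p // ∑ v, f v ≠ 0}) :
    Set (ℕ × Finset (Win q D s)) := {e | e.1 = l ∧ zerosV ω.1 e.2}

/-- The colour classes at the level `l`. -/
def Yv (q D s : ℕ) (l : ℕ) (z : Col q D s) : Set (ℕ × Finset (Win q D s)) :=
  {e | e.1 = l ∧ classesV (colour z) e.2}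

theorem no_cover {q D s M L r r₁ R₀ p : ℕ} (hr : r₁ < r) {Θ : ℕ → Sup q D s → Fin M}
    (hΘ : ∀ l < L, ∑ c, (Θ l c : ℕ) ^ 2 = R₀)
    (hinj : ∀ l < L, ∀ l' < L, Θ l = Θ l' → l = l')
    [Nonempty {f : Win q D s → ZMod p // ∑ v, f v ≠ 0}] {l : ℕ}
    {S : Set (ℕ × Finset (Win q D s))} (hS : Reach (Xv q D s p) l S) :
    ¬ Covers L r₁ r Θ (D * s + 1 + r₁) S := by
  classical
  intro hc
  obtain ⟨l', -, A, hA, hpart⟩ := cover_no hr hΘ hinj hc
  obtain ⟨ω, hω⟩ := reach_spec hS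
  have h1 : ∀ j, zerosV (ω l').1 (A j) := by
    intro j
    obtain ⟨l'', -, h2, h3⟩ := hω _ (hA j)
    simp only at h2 h3
    rw [h2]; exact h3
  apply (ω l').2
  have h2 : ∀ v, (ω l').1 v = ∑ j, if v ∈ A j then (ω l').1 v else 0 := by
    intro v
    obtain ⟨j, hj, huniq⟩ := hpart v
    rw [sum_eq_single j]
    · rw [if_pos hj]
    · intro j' _ hj'
      rw [if_neg fun h => hj' (huniq j' h)]
    · intro h; exact absurd (mem_univ j) h
  calc ∑ v, (ω l').1 v = ∑ v, ∑ j, if v ∈ A j then (ω l').1 v else 0 :=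
        sum_congr rfl fun v _ => h2 v
    _ = ∑ j, ∑ v, if v ∈ A j then (ω l').1 v else 0 := sum_comm
    _ = ∑ j, ∑ v ∈ A j, (ω l').1 v := by
        apply sum_congr rfl
        intro j _
        rw [← sum_filter]
        congr 1
        ext v; simp
    _ = 0 := sum_eq_zero fun j _ => h1 j

/-- ASM. -/
theorem main_neg (b : ℝ) (hb0 : 0 ≤ b) (hb : b < 2) (c : ℕ) {ε : ℝ} (hε : 0 < ε) :
    ∃ k₀ : ℕ, ∀ k ≥ k₀, ∃ n₀ : ℕ, ∀ n ≥ n₀, ∀ (s t w : ℕ) (γ : ℝ), 0 < γ →
      ((w : ℝ) + 1) * 2 ^ t ≤ γ * ((n.choose (n / k) : ℝ) * n) ^ (1 - ε) →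
      HasRandomCircuit (n.choose (n / k)) n k s t w γ →
        b ^ n * ((n.choose (n / k) : ℝ) * n) ^ c ≤ s := by
  classical
  obtain ⟨k₀, hk₀⟩ := num_main b hb0 hb c hε
  refine ⟨k₀, fun k hk => ?_⟩
  obtain ⟨u, D, M, G, hs, hD, hM, hDk, hnum⟩ := hk₀ k hk
  obtain ⟨p, t₀, hp, hG, h1⟩ := SetCoverMono.one_dim (D * u) G
  obtain ⟨n₀, hn₀⟩ := hnum p t₀ hp.out.pos
  refine ⟨n₀, fun n hn s t w γ hγ hw hC => ?_⟩
  obtain ⟨q, κ, hq, hκ, hfit, hκx, hrows, hlev, hfin⟩ := hn₀ n hn
  obtain ⟨g, hg⟩ : ∃ g, g = q * (D * u).factorial := ⟨_, rfl⟩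
  have hcs : Fintype.card (Sup q D u) = g := by
    rw [Fintype.card_prod, Fintype.card_perm, hg]
    simp
  have hne : Nonempty (Sup q D u) := ⟨(⟨0, hq⟩, 1)⟩
  obtain ⟨R₀, L, Θ, hΘ, hinj, hL1, hL2⟩ := exists_sphere (α := Sup q D u) hM
  rw [hcs] at hL1 hL2
  obtain ⟨r₁, hr₁⟩ : ∃ r₁, r₁ = k - 1 - D * u := ⟨_, rfl⟩
  obtain ⟨r, hr⟩ : ∃ r, r = n - g * ((D + M) * u) - D * u := ⟨_, rfl⟩
  have hkeq : D * u + 1 + r₁ = k := by omega
  have hfit' : g * ((D + M) * u) + k ≤ n := by rw [hg]; exact hfit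
  have hrr : r₁ < r := by omega
  have hneq : q * (D * u).factorial * ((D + M) * u) + (D * u + r) = n := by
    rw [← hg]; omega
  have hmle : L * (D * u * u ^ (q * (D * u).factorial)) + (L + r₁) ≤ n.choose (n / k) := by
    rw [hr₁]
    exact hrows L (by rw [← hg]; exact hL1)
  obtain ⟨a, halit, hacov⟩ := embed_rows (r := r) (r₁ := r₁) Θ hneq hmle
  have hamono : ∀ S S' : Set (ℕ × Finset (Win q D u)), S ⊆ S' → ∀ e, a S e → a S' e := by
    intro S S' hS e he
    rcases halit e with h | h | ⟨l, A, -, h⟩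
    · exact absurd he (h S)
    · exact h S'
    · exact (h S').2 (hS ((h S).1 he))
  have hL0 : 0 < L := by
    by_contra h
    have h0 : L = 0 := by omega
    rw [h0, mul_zero] at hL2
    have := Nat.pow_pos (n := g) hM
    omega
  obtain ⟨W₀, hW₀⟩ : ∃ W₀ : ℝ, W₀ = ((n.choose (n / k) : ℝ) * n) ^ (1 - ε) := ⟨_, rfl⟩
  rw [← hW₀] at hw hlev
  have hM0 : (0 : ℝ) < M := by exact_mod_cast hM
  have hg0 : 0 < g := by
    rw [hg]; exact Nat.mul_pos hq (Nat.factorial_pos _)
  have hg0' : (0 : ℝ) < g := by exact_mod_cast hg0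
  -- there are enough levels
  have hWL : W₀ ≤ L := by
    have h2 : (M : ℝ) ^ g ≤ g * M ^ 2 * L := by exact_mod_cast hL2
    have h3 : W₀ * (g * (M : ℝ) ^ 2) ≤ M ^ g := by
      rw [← hg] at hlev; exact hlev
    have h4 : W₀ * (g * (M : ℝ) ^ 2) ≤ L * (g * (M : ℝ) ^ 2) := by
      calc _ ≤ (M : ℝ) ^ g := h3
        _ ≤ g * M ^ 2 * L := h2
        _ = _ := by ring
    exact le_of_mul_le_mul_right h4 (by positivity)
  obtain ⟨P, π, C, o, hP0, hP1, hCs, hyes, hno⟩ := hC
  have hΩ : Nonempty {f : Win q D u → ZMod p // ∑ v, f v ≠ 0} := by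
    have hne1 : Nonempty (Pos D u) := ⟨(⟨0, by omega⟩, ⟨0, by omega⟩)⟩
    obtain ⟨j⟩ := hne1
    refine ⟨⟨Pi.single (Sum.inr j) 1, ?_⟩⟩
    have : Fact (1 < p) := ⟨hp.out.one_lt⟩
    rw [Finset.sum_pi_single']
    simp
  obtain ⟨e, he⟩ : ∃ e : ℝ, e = s * err1 D u g κ + (2 * s + 1) * err2 D u g κ p t₀ G :=
    ⟨_, rfl⟩
  have he1 : 0 ≤ err1 D u g κ := by unfold err1; positivity
  have he2 : 0 ≤ err2 D u g κ p t₀ G := by unfold err2; positivity
  have he0 : 0 ≤ e := by rw [he]; positivity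
  -- the monotone pieces
  choose H hH1 hH2 hH3 using fun j => RealMono.separate (C j) (o j)
  obtain ⟨F, hF⟩ : ∃ F : Fin P → ℕ × Finset ℕ → Set (ℕ × Finset (Win q D u)) → Prop,
      F = fun j x S => 1 ≤ (C j).mval (fun i => i ∈ x.2) (a S) x.1 := ⟨_, rfl⟩
  have hmono : ∀ j, ∀ l < L, ∀ x ∈ H j, ∀ S : Set (ℕ × Finset (Win q D u)),
      Reach (Xv q D u p) l S →
      avg (fun z => ind (F j x (S ∪ Yv q D u l z))) ≤
        avg (fun ω => ind (F j x (S ∪ Xv q D u p l ω))) + e := by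
    intro j l _ x hx S _
    have hL : IsLitV (Win q D u) (q * (D * u).factorial + 1)
        (fun (y : Finset (Win q D u) → Prop) e => a (S ∪ {e | e.1 = l ∧ y e.2}) e) := by
      intro i
      rcases halit i with h2 | h2 | ⟨l', A, hA, h2⟩
      · exact Or.inr (Or.inl fun y => h2 _)
      · exact Or.inl fun y => h2 _
      · by_cases hS : (l', A) ∈ S
        · exact Or.inl fun y => (h2 _).2 (Or.inl hS)
        · by_cases hl' : l' = l
          · refine Or.inr (Or.inr ⟨A, hA, fun y => (h2 _).trans ?_⟩)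
            constructor
            · rintro (h3 | h3)
              · exact absurd h3 hS
              · exact h3.2
            · exact fun h3 => Or.inr ⟨hl', h3⟩
          · refine Or.inr (Or.inl fun y hy => ?_)
            rcases (h2 _).1 hy with h3 | h3
            · exact hS h3
            · exact hl' h3.1
    have h2 := core_neg (q := q) hs hD hG h1 hκ hκx hL (C j) (fun i => i ∈ x.2) x.1
    have h3 : ((C j).numMono x.1 : ℝ) ≤ s := by
      have h4 : (C j).numMono x.1 ≤ (C j).numMono (o j) := by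
        unfold RealMono.Circuit.numMono
        apply card_le_card
        intro i hi
        rw [mem_filter, mem_range] at hi ⊢
        have := hH2 j x hx
        exact ⟨by omega, hi.2⟩
      exact_mod_cast h4.trans (hCs j).1
    rw [← hg] at h2
    rw [hF]
    refine h2.trans (add_le_add_right ?_ _)
    rw [he]
    gcongr
  have hmain := RealMono.rand_bound (X := Xv q D u p) (Y := Yv q D u) (m := L) (δ := γ)
    (W := γ * W₀) he0 hP0 hP1
    (V := fun j S => 1 ≤ (C j).val (a S) (o j)) (F := F) (H := H)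
    (fun j => by
      refine le_trans ?_ hw
      have h2 : (H j).card ≤ (w + 1) * 2 ^ t :=
        (hH1 j).trans (Nat.mul_le_mul (Nat.add_le_add_right (hCs j).2.2 1)
          (Nat.pow_le_pow_right (by norm_num) (hCs j).2.1))
      exact_mod_cast h2)
    (fun j x _ S S' hS hFS => by
      rw [hF] at hFS ⊢
      exact le_trans hFS (RealMono.mval_mono (C j) _ (hamono S S' hS) x.1))
    (fun j S S' hS h2 h3 => by
      rw [hF]
      exact hH3 j (a S) (a S') (hamono S S' hS) h2 h3)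
    hmono
    (fun l hl S z _ => by
      have h2 := hyes (fun i v => a (S ∪ Yv q D u l z) (i, v)) (by
        rw [hacov, ← hkeq]
        exact cover_yes hl z fun A hA => Or.inr ⟨rfl, hA⟩)
      simpa only [RealMono.Prob, RealMono.bit_eq_ind] using h2)
    (fun l _ S hS => by
      have h2 := hno (fun i v => a S (i, v)) (by
        rw [hacov, ← hkeq]
        exact no_cover hrr hΘ hinj hS)
      simpa only [RealMono.Prob, RealMono.bit_eq_ind] using h2)
  -- the end
  apply hfin L s (by rw [← hg]; exact hL1)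
  rw [← hg, ← he]
  have hLr : (0 : ℝ) < L := by exact_mod_cast hL0
  have h5 : 2 * γ * L ≤ γ * L * (1 + L * e) := by
    refine hmain.trans ?_
    apply mul_le_mul_of_nonneg_right _ (by positivity)
    exact mul_le_mul_of_nonneg_left hWL hγ.le
  have h6 : γ * L * 2 ≤ γ * L * (1 + L * e) := by linarith
  have h7 := le_of_mul_le_mul_left h6 (by positivity)
  linarith

end NegBase
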