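import Pool.Agent.Lib.MP_8fffab_lc_MC.NumMain

/-! Row NUM, part A: the parameters `s`, `D`, `M`. -/

open Finset Filter

namespace NegBase

theorem cube_le_two_pow {s : ℕ} (hs : 10 ≤ s) : s ^ 3 + 1 ≤ 2 ^ s := by
  induction s, hs using Nat.le_induction with
  | base => norm_num
  | succ s hs ih =>
    rw [pow_succ 2 s]
    have h1 : (s + 1) ^ 3 + 1 ≤ (s ^ 3 + 1) * 2 := by
      have h2 : 3 * s ^ 2 + 3 * s + 1 ≤ s ^ 3 + 1 := by
        have h3 : s ^ 3 = s * s ^ 2 := by ring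
        have h4 : 10 * s ^ 2 ≤ s * s ^ 2 := Nat.mul_le_mul_right _ hs
        have h5 : s ≤ s ^ 2 := by nlinarith
        rw [h3]
        omega
      have h6 : (s + 1) ^ 3 = s ^ 3 + 3 * s ^ 2 + 3 * s + 1 := by ring
      omega
    omega

/-- The integers `D = (k - 1) / s` and `M = D / s`. -/
theorem params {s k : ℕ} (hs : 10 ≤ s) (hk : 2 ^ s ≤ k) :
    ∃ D M : ℕ, s ≤ D ∧ 0 < M ∧ D * s + 1 ≤ k ∧ k ≤ (D + M) * s ∧ M * s ≤ D ∧
      k ≤ 2 * (M * s ^ 2) ∧ D * s ≤ k ∧ D + M ≤ 2 * D := by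
  have h3 := (cube_le_two_pow hs).trans hk
  obtain ⟨D, hD⟩ : ∃ D, D = (k - 1) / s := ⟨_, rfl⟩
  obtain ⟨M, hM⟩ : ∃ M, M = D / s := ⟨_, rfl⟩
  have hs0 : 0 < s := by omega
  have hD1 : s * D ≤ k - 1 := by rw [hD]; exact Nat.mul_div_le _ _
  have hD2 : k - 1 < s * D + s := by
    rw [hD]
    have := Nat.lt_mul_div_succ (k - 1) hs0
    linarith [Nat.mul_succ s ((k - 1) / s)]
  have hM1 : s * M ≤ D := by rw [hM]; exact Nat.mul_div_le _ _
  have hM2 : D < s * M + s := by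
    rw [hM]
    have := Nat.lt_mul_div_succ D hs0
    linarith [Nat.mul_succ s (D / s)]
  have e1 : D * s = s * D := mul_comm _ _
  have e2 : M * s = s * M := mul_comm _ _
  have hsD : s ^ 2 ≤ D := by
    have h4 : s * s ^ 2 < s * (D + 1) := by
      have : s * s ^ 2 = s ^ 3 := by ring
      rw [this, Nat.mul_succ]
      omega
    have := Nat.lt_of_mul_lt_mul_left h4
    omega
  have hss : s ≤ s ^ 2 := by nlinarith
  have hM0 : 0 < M := by
    rcases Nat.eq_zero_or_pos M with h | h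
    · exfalso
      rw [h, Nat.mul_zero, Nat.zero_add] at hM2
      omega
    · exact h
  have hMD : M ≤ D := by
    calc M = 1 * M := (one_mul M).symm
      _ ≤ s * M := Nat.mul_le_mul_right _ (by omega)
      _ ≤ D := hM1
  have hk1 : 1 ≤ k := by omega
  refine ⟨D, M, hss.trans hsD, hM0, by omega, ?_, by omega, ?_, by omega, by omega⟩
  · have h5 : s * 1 ≤ s * M := Nat.mul_le_mul_left _ hM0
    rw [Nat.add_mul]
    omega
  · -- `k - s ^ 2 ≤ M s ^ 2`
    have h6 : s * D < s * (s * M + s) := Nat.mul_lt_mul_of_pos_left hM2 hs0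
    have h7 : s * (s * M + s) = M * s ^ 2 + s ^ 2 := by ring
    have h8 : s ^ 2 * 10 ≤ s ^ 3 := by
      have : s ^ 3 = s ^ 2 * s := by ring
      rw [this]
      exact Nat.mul_le_mul_left _ hs
    omega

/-- `2 log s + 8 ≤ c s` for large `s`. -/
theorem log_small {c : ℝ} (hc : 0 < c) : ∃ s₀ : ℕ, ∀ s : ℕ, s₀ ≤ s →
    2 * Real.log s + 8 ≤ c * s := by
  have h1 := (Real.isLittleO_log_id_atTop.bound (show (0 : ℝ) < c / 4 by positivity))
  have h2 := tendsto_natCast_atTop_atTop (R := ℝ) |>.eventually h1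
  obtain ⟨s₁, h3⟩ := h2.exists_forall_of_atTop
  obtain ⟨s₂, h4⟩ := exists_nat_ge (16 / c)
  refine ⟨max (max s₁ s₂) 1, fun s hs => ?_⟩
  have h5 := h3 s (by omega)
  have h6 : (s₂ : ℝ) ≤ s := by
    have : s₂ ≤ s := by omega
    exact_mod_cast this
  have h7 : (1 : ℝ) ≤ s := by
    have : 1 ≤ s := by omega
    exact_mod_cast this
  simp only [id, Real.norm_eq_abs] at h5
  rw [abs_of_nonneg (Real.log_nonneg h7), abs_of_nonneg (by linarith)] at h5
  have h8 : 16 ≤ c * s := by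
    rw [div_le_iff₀ hc] at h4
    nlinarith
  linarith

end NegBase
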