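import Pool.Agent.Lib.MP_8fffab_lc_NB.NumA

/-! Row NUM, part B: the estimates for a large number of super-pieces. -/

open Finset Filter

namespace NegBase

/-- The error of one gate, and the error at the end. -/
noncomputable def err1 (D s g κ : ℕ) : ℝ :=
  (2 * (κ : ℝ)) ^ (D * s) * (2 * κ) ^ (D * s) * (3 * ((s : ℝ) + 1) ^ 2 / 2 ^ s) ^ (D * g)

noncomputable def err2 (D s g κ p t G : ℕ) : ℝ :=
  2 * ((((D * s : ℕ) : ℝ) + 1) ^ (g * (D * s) + D * s + 1) + 1) ^ 2 *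
    p ^ (D * s * (2 * t + 1)) / κ ^ G

/-- The number of the levels. -/
theorem num_levels {k W C M : ℕ} {ε δ : ℝ} (hk : 0 < k) (hM : 0 < M) (hδ : 0 < δ) (hε0 : 0 ≤ ε)
    (hε1 : ε ≤ 1) (hcond : (1 - ε) * ((W : ℝ) / k * (1 + Real.log k)) + δ ≤ Real.log M) :
    ∃ g₀ : ℕ, ∀ g ≥ g₀, ∀ n : ℕ, 0 < n → n ≤ g * W + C →
      ((n.choose (n / k) : ℝ) * n) ^ (1 - ε) * ((g : ℕ) * (M : ℝ) ^ 2) ≤ (M : ℝ) ^ g := by
  have hk' : (0 : ℝ) < k := by exact_mod_cast hk
  have hk1 : (1 : ℝ) ≤ k := by exact_mod_cast hk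
  have hM' : (0 : ℝ) < M := by exact_mod_cast hM
  have hlogk : 0 ≤ Real.log k := Real.log_nonneg hk1
  obtain ⟨s₀, hs₀⟩ := log_small (show 0 < δ / 2 by positivity)
  obtain ⟨c, hc⟩ : ∃ c : ℝ, c = (C : ℝ) / k * (1 + Real.log k) + Real.log (W + C) +
      2 * Real.log M := ⟨_, rfl⟩
  obtain ⟨g₁, hg₁⟩ := exists_nat_ge (c / (δ / 2))
  refine ⟨max (max s₀ g₁) 1, fun g hg n hn0 hn => ?_⟩
  have hg1 : 1 ≤ g := by omega
  have hg' : (1 : ℝ) ≤ g := by exact_mod_cast hg1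
  have e1 := hs₀ g (by omega)
  have e2 : c ≤ δ / 2 * g := by
    have h1 : (g₁ : ℝ) ≤ g := by
      have : g₁ ≤ g := by omega
      exact_mod_cast this
    have h2 := hg₁.trans h1
    rw [div_le_iff₀ (by positivity)] at h2
    linarith
  have hn' : (0 : ℝ) < n := by exact_mod_cast hn0
  have hn1 : (1 : ℝ) ≤ n := by exact_mod_cast hn0
  have hnr : (n : ℝ) ≤ g * W + C := by exact_mod_cast hn
  have hC : (0 : ℝ) < (n.choose (n / k) : ℝ) := by
    exact_mod_cast Nat.choose_pos (Nat.div_le_self n k)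
  have hX : 0 < (n.choose (n / k) : ℝ) * n := mul_pos hC hn'
  rw [← Real.log_le_log_iff (by positivity) (by positivity), Real.log_mul (by positivity)
    (by positivity), Real.log_rpow hX, Real.log_mul hC.ne' hn'.ne', Real.log_mul (by positivity)
    (by positivity), Real.log_pow, Real.log_pow]
  have h1 := SetCoverMono.log_choose_le n k hk
  have h2 : (n : ℝ) * ((1 + Real.log k) / k) ≤ (g * W + C) * ((1 + Real.log k) / k) :=
    mul_le_mul_of_nonneg_right hnr (by positivity)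
  have h3 : (1 - ε) * Real.log (n.choose (n / k) : ℝ) ≤
      (1 - ε) * ((g * W + C) * ((1 + Real.log k) / k)) :=
    mul_le_mul_of_nonneg_left (h1.trans h2) (by linarith)
  have h4 : (1 - ε) * ((g * W + C) * ((1 + Real.log k) / k)) ≤
      g * ((1 - ε) * ((W : ℝ) / k * (1 + Real.log k))) + (C : ℝ) / k * (1 + Real.log k) := by
    have h5 : (1 - ε) * ((g * W + C) * ((1 + Real.log k) / k)) =
        g * ((1 - ε) * ((W : ℝ) / k * (1 + Real.log k))) +
          (1 - ε) * ((C : ℝ) / k * (1 + Real.log k)) := by ring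
    rw [h5]
    have h6 : 0 ≤ (C : ℝ) / k * (1 + Real.log k) := by positivity
    nlinarith
  have h7 : (1 - ε) * Real.log n ≤ Real.log n := by
    have := Real.log_nonneg hn1
    nlinarith
  have h8 : Real.log n ≤ Real.log g + Real.log (W + C) := by
    have h9 : (n : ℝ) ≤ g * (W + C) := by
      have : (C : ℝ) ≤ g * C := by
        have : (0 : ℝ) ≤ C := Nat.cast_nonneg _
        nlinarith
      linarith
    have h10 : (0 : ℝ) < W + C := by
      by_contra h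
      push Not at h
      have : (g : ℝ) * (W + C) ≤ 0 := mul_nonpos_of_nonneg_of_nonpos (by positivity) h
      linarith
    rw [← Real.log_mul (by positivity) (by positivity)]
    exact Real.log_le_log hn' h9
  have h11 : (g : ℝ) * ((1 - ε) * ((W : ℝ) / k * (1 + Real.log k)) + δ) ≤ g * Real.log M :=
    mul_le_mul_of_nonneg_left hcond (by positivity)
  push_cast
  nlinarith

theorem log_two_le_one : Real.log 2 ≤ 1 := by
  have := Real.log_two_lt_d9
  linarith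

theorem num_err1 {D s M H k C : ℕ} {η : ℝ} (hs : 1 ≤ s) (hD : 1 ≤ D) (hM : 0 < M)
    (hη0 : 0 < η) (hη1 : η ≤ 1) (hMs : M * s ≤ D) (hH0 : 0 < H) (hH : 8 * (D * s) ^ 2 ≤ H)
    (hcond : 2 * Real.log s + 8 ≤ η * Real.log 2 * s) :
    ∃ g₀ : ℕ, ∀ g ≥ g₀, ∀ n κ : ℕ, n ≤ g * ((D + M) * s) + C →
      κ = 2 ^ ((g * (D * s) + D * s) / H) →
      (M : ℝ) ^ g * err1 D s g κ * 2 ^ ((1 - η) * n) ≤ 1 / 2 := by
  refine ⟨2 * (D * s) + C + 2, fun g hg n κ hn hκ => ?_⟩
  obtain ⟨m, hm⟩ : ∃ m, m = (g * (D * s) + D * s) / H := ⟨_, rfl⟩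
  rw [← hm] at hκ
  have hK : 0 < D * s := Nat.mul_pos hD hs
  have hmH : H * m ≤ (g + 1) * (D * s) := by
    rw [hm]
    calc H * ((g * (D * s) + D * s) / H) ≤ g * (D * s) + D * s := Nat.mul_div_le _ _
      _ = (g + 1) * (D * s) := by ring
  have hKm : 8 * (D * s) * m ≤ g + 1 := by
    have h1 : 8 * (D * s) ^ 2 * m ≤ (g + 1) * (D * s) := (Nat.mul_le_mul_right m hH).trans hmH
    have h2 : (D * s) * (8 * (D * s) * m) ≤ (D * s) * (g + 1) := by
      calc (D * s) * (8 * (D * s) * m) = 8 * (D * s) ^ 2 * m := by ring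
        _ ≤ (g + 1) * (D * s) := h1
        _ = (D * s) * (g + 1) := by ring
    exact Nat.le_of_mul_le_mul_left h2 hK
  have hKm' : 8 * ((D : ℝ) * s) * m ≤ g + 1 := by exact_mod_cast hKm
  have hM' : (0 : ℝ) < M := by exact_mod_cast hM
  have hs' : (1 : ℝ) ≤ s := by exact_mod_cast hs
  have hD' : (1 : ℝ) ≤ D := by exact_mod_cast hD
  have hMs' : (M : ℝ) * s ≤ D := by exact_mod_cast hMs
  have hg' : 2 * ((D : ℝ) * s) + C + 2 ≤ g := by exact_mod_cast hg
  have hn' : (n : ℝ) ≤ g * ((D + M) * s) + C := by exact_mod_cast hn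
  have hκ' : (κ : ℝ) = 2 ^ m := by rw [hκ]; push_cast; rfl
  have hκ0 : (0 : ℝ) < κ := by rw [hκ']; positivity
  have l2 := log_two_le_one
  have l2' : 0 < Real.log 2 := Real.log_pos one_lt_two
  have hMD : (M : ℝ) ≤ D := by nlinarith
  have hlogM : Real.log M ≤ D := by
    have := Real.log_le_sub_one_of_pos hM'
    linarith
  have hlogs0 : 0 ≤ Real.log s := Real.log_nonneg hs'
  have hl3 : Real.log (3 * ((s : ℝ) + 1) ^ 2 / 2 ^ s) ≤ 4 + 2 * Real.log s - s * Real.log 2 := by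
    rw [Real.log_div (by positivity) (by positivity), Real.log_mul (by norm_num) (by positivity),
      Real.log_pow, Real.log_pow]
    have h3 : Real.log 3 ≤ 2 := by
      have := Real.log_le_sub_one_of_pos (show (0 : ℝ) < 3 by norm_num)
      linarith
    have h4 : Real.log ((s : ℝ) + 1) ≤ 1 + Real.log s := by
      have h5 : Real.log ((s : ℝ) + 1) ≤ Real.log (2 * s) :=
        Real.log_le_log (by positivity) (by linarith)
      rw [Real.log_mul (by norm_num) (by positivity)] at h5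
      linarith
    push_cast
    linarith
  have hgoal : Real.log ((M : ℝ) ^ g * err1 D s g κ * 2 ^ ((1 - η) * n)) ≤ Real.log (1 / 2) := by
    have hpos1 : (0 : ℝ) < 3 * ((s : ℝ) + 1) ^ 2 / 2 ^ s := by positivity
    unfold err1
    rw [Real.log_mul (by positivity) (by positivity), Real.log_mul (by positivity) (by positivity),
      Real.log_mul (by positivity) (by positivity), Real.log_mul (by positivity) (by positivity),
      Real.log_pow, Real.log_pow, Real.log_pow, Real.log_rpow (by norm_num),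
      Real.log_mul (by norm_num) hκ0.ne', hκ', Real.log_pow, one_div, Real.log_inv]
    push_cast
    have a1 : (g : ℝ) * Real.log M ≤ g * D := mul_le_mul_of_nonneg_left hlogM (by positivity)
    have a2 : (D : ℝ) * g * Real.log (3 * ((s : ℝ) + 1) ^ 2 / 2 ^ s) ≤
        D * g * (4 + 2 * Real.log s - s * Real.log 2) :=
      mul_le_mul_of_nonneg_left hl3 (by positivity)
    have a3 : (D : ℝ) * s * (Real.log 2 + m * Real.log 2) ≤ D * s + (g + 1) / 8 := by
      have h5 : (D : ℝ) * s * Real.log 2 ≤ D * s * 1 :=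
        mul_le_mul_of_nonneg_left l2 (by positivity)
      have h6 : (D : ℝ) * s * m * Real.log 2 ≤ D * s * m * 1 :=
        mul_le_mul_of_nonneg_left l2 (by positivity)
      nlinarith
    have a4 : (1 - η) * n * Real.log 2 ≤ g * (D * s) * Real.log 2 - η * (g * (D * s)) * Real.log 2 +
        g * D + C := by
      have h5 : (1 - η) * n ≤ (1 - η) * (g * ((D + M) * s) + C) :=
        mul_le_mul_of_nonneg_left hn' (by linarith)
      have h6 : (1 - η) * (g * ((D + M) * s) + C) ≤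
          g * (D * s) - η * (g * (D * s)) + g * D + C := by
        have h7 : (1 - η) * (g * ((D + M) * s) + C) = g * (D * s) - η * (g * (D * s)) +
            (1 - η) * (g * (M * s) + C) := by ring
        have h8 : (1 - η) * (g * (M * s) + C) ≤ 1 * (g * (M * s) + C) :=
          mul_le_mul_of_nonneg_right (by linarith) (by positivity)
        have h9 : (g : ℝ) * (M * s) ≤ g * D := mul_le_mul_of_nonneg_left hMs' (by positivity)
        linarith
      have h10 : (1 - η) * n * Real.log 2 ≤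
          (g * (D * s) - η * (g * (D * s)) + g * D + C) * Real.log 2 :=
        mul_le_mul_of_nonneg_right (h5.trans h6) l2'.le
      have h11 : ((g : ℝ) * D + C) * Real.log 2 ≤ (g * D + C) * 1 :=
        mul_le_mul_of_nonneg_left l2 (by positivity)
      linarith
    have a5 : (g : ℝ) * D * (2 * Real.log s + 8) ≤ g * D * (η * Real.log 2 * s) :=
      mul_le_mul_of_nonneg_left hcond (by positivity)
    have a6 : (g : ℝ) * 1 ≤ g * D := mul_le_mul_of_nonneg_left hD' (by positivity)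
    linarith
  have hpos : (0 : ℝ) < (M : ℝ) ^ g * err1 D s g κ * 2 ^ ((1 - η) * n) := by
    unfold err1
    positivity
  exact (Real.log_le_log_iff hpos (by norm_num)).1 hgoal

theorem num_err2 {D s M H C p t : ℕ} {η : ℝ} (hs : 1 ≤ s) (hD : 1 ≤ D) (hM : 0 < M)
    (hη0 : 0 < η) (hMD : D + M ≤ 2 * D) (hH0 : 0 < H) :
    ∃ g₀ : ℕ, ∀ g ≥ g₀, ∀ n κ : ℕ, n ≤ g * ((D + M) * s) + C →
      κ = 2 ^ ((g * (D * s) + D * s) / H) →
      (M : ℝ) ^ g * (3 * err2 D s g κ p t ((2 * (D * s) + 5) * H)) * 2 ^ ((1 - η) * n) ≤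
        1 / 2 := by
  obtain ⟨K, hK⟩ : ∃ K, K = D * s := ⟨_, rfl⟩
  have hK0 : 0 < K := by rw [hK]; exact Nat.mul_pos hD hs
  obtain ⟨E, hE⟩ : ∃ E : ℕ, E = 48 * 2 ^ (2 * K + (2 * K + 5) * H) * p ^ (K * (2 * t + 1)) *
      2 ^ C := ⟨_, rfl⟩
  refine ⟨E, fun g hg n κ hn hκ => ?_⟩
  rw [← hK] at hκ ⊢
  obtain ⟨N, hN⟩ : ∃ N, N = g * K + K := ⟨_, rfl⟩
  obtain ⟨m, hm⟩ : ∃ m, m = N / H := ⟨_, rfl⟩
  rw [← hN, ← hm] at hκ
  have hm2 : N < H * m + H := by
    rw [hm]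
    have := Nat.lt_mul_div_succ N hH0
    linarith [Nat.mul_succ H (N / H)]
  have hgN : g ≤ N := by
    rw [hN]
    have : g * 1 ≤ g * K := Nat.mul_le_mul_left _ hK0
    omega
  have hMK : M ≤ K := by
    have h1 : D * 1 ≤ D * s := Nat.mul_le_mul_left _ hs
    rw [hK]
    omega
  -- bounds of the factors
  have b1 : (M : ℝ) ^ g ≤ 2 ^ N := by
    have h1 : (M : ℝ) ≤ 2 ^ K := by
      have : M ≤ 2 ^ K := hMK.trans (Nat.lt_two_pow_self).le
      exact_mod_cast this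
    calc (M : ℝ) ^ g ≤ (2 ^ K) ^ g := pow_le_pow_left₀ (by positivity) h1 g
      _ = 2 ^ (K * g) := by rw [← pow_mul]
      _ ≤ 2 ^ N := pow_le_pow_right₀ (by norm_num) (by rw [hN, mul_comm]; omega)
  have b2 : (2 : ℝ) ^ ((1 - η) * n) ≤ 2 ^ (2 * N) * 2 ^ C := by
    have h1 : n ≤ 2 * N + C := by
      have h2 : g * ((D + M) * s) ≤ g * (2 * K) := by
        apply Nat.mul_le_mul_left
        calc (D + M) * s ≤ 2 * D * s := Nat.mul_le_mul_right _ hMD
          _ = 2 * K := by rw [hK]; ring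
      have h3 : g * (2 * K) = 2 * (g * K) := by ring
      rw [hN]
      omega
    have h2 : (n : ℝ) ≤ 2 * N + C := by exact_mod_cast h1
    have h3 : (2 : ℝ) ^ (2 * N) * 2 ^ C = 2 ^ ((2 * N + C : ℝ)) := by
      rw [← pow_add, ← Real.rpow_natCast]
      push_cast
      rfl
    rw [h3]
    apply Real.rpow_le_rpow_of_exponent_le (by norm_num)
    have : (0 : ℝ) ≤ n := Nat.cast_nonneg _
    nlinarith
  have b3 : ((((K : ℕ) : ℝ) + 1) ^ (N + 1) + 1) ^ 2 ≤ 4 * 2 ^ (2 * K * (N + 1)) := by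
    have h0 : ((K : ℝ) + 1) ^ (N + 1) ≤ 2 ^ (K * (N + 1)) := by
      rw [pow_mul]
      have : (K : ℝ) + 1 ≤ 2 ^ K := by
        have := @Nat.lt_two_pow_self K
        exact_mod_cast this
      gcongr
    have h0' : (1 : ℝ) ≤ 2 ^ (K * (N + 1)) := one_le_pow₀ (by norm_num)
    have h00 : (0 : ℝ) ≤ ((K : ℝ) + 1) ^ (N + 1) + 1 := by positivity
    calc (((K : ℝ) + 1) ^ (N + 1) + 1) ^ 2 ≤ (2 * 2 ^ (K * (N + 1))) ^ 2 := by
          apply pow_le_pow_left₀ h00
          linarith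
      _ = 4 * 2 ^ (2 * K * (N + 1)) := by
          have e : K * (N + 1) * 2 = 2 * K * (N + 1) := by ring
          rw [mul_pow, ← pow_mul, e]
          norm_num
  have b4 : (2 : ℝ) ^ ((2 * K + 5) * N) ≤
      (κ : ℝ) ^ ((2 * K + 5) * H) * 2 ^ ((2 * K + 5) * H) := by
    rw [hκ]
    push_cast
    rw [← pow_mul, ← pow_add]
    apply pow_le_pow_right₀ (by norm_num)
    calc (2 * K + 5) * N ≤ (2 * K + 5) * (H * m + H) := Nat.mul_le_mul_left _ hm2.le
      _ = m * ((2 * K + 5) * H) + (2 * K + 5) * H := by ring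
  have hκ0 : (0 : ℝ) < (κ : ℝ) ^ ((2 * K + 5) * H) := by
    rw [hκ]; positivity
  have b5 : (E : ℝ) ≤ 2 ^ N := by
    have h1 : E ≤ 2 ^ N := (hg.trans hgN).trans (Nat.lt_two_pow_self).le
    exact_mod_cast h1
  have hEr : (E : ℝ) = 48 * 2 ^ (2 * K + (2 * K + 5) * H) * p ^ (K * (2 * t + 1)) * 2 ^ C := by
    rw [hE]; push_cast; rfl
  have hdef : err2 D s g κ p t ((2 * K + 5) * H) =
      2 * ((((K : ℕ) : ℝ) + 1) ^ (N + 1) + 1) ^ 2 * p ^ (K * (2 * t + 1)) /
        κ ^ ((2 * K + 5) * H) := by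
    unfold err2
    rw [← hK, ← hN]
  rw [hdef]
  have h4 : (0 : ℝ) < 2 ^ ((2 * K + 5) * H) := by positivity
  have hp0 : (0 : ℝ) ≤ (p : ℝ) ^ (K * (2 * t + 1)) := by positivity
  rw [show (M : ℝ) ^ g * (3 * (2 * ((((K : ℕ) : ℝ) + 1) ^ (N + 1) + 1) ^ 2 *
      p ^ (K * (2 * t + 1)) / κ ^ ((2 * K + 5) * H))) * 2 ^ ((1 - η) * n) =
      ((M : ℝ) ^ g * (6 * ((((K : ℕ) : ℝ) + 1) ^ (N + 1) + 1) ^ 2 *
      p ^ (K * (2 * t + 1))) * 2 ^ ((1 - η) * n)) / κ ^ ((2 * K + 5) * H) by ring,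
    div_le_iff₀ hκ0]
  have h5 : ((M : ℝ) ^ g * (6 * ((((K : ℕ) : ℝ) + 1) ^ (N + 1) + 1) ^ 2 *
      p ^ (K * (2 * t + 1))) * 2 ^ ((1 - η) * n)) * 2 ^ ((2 * K + 5) * H) ≤
      (1 / 2 * (κ : ℝ) ^ ((2 * K + 5) * H)) * 2 ^ ((2 * K + 5) * H) := by
    calc ((M : ℝ) ^ g * (6 * ((((K : ℕ) : ℝ) + 1) ^ (N + 1) + 1) ^ 2 *
        p ^ (K * (2 * t + 1))) * 2 ^ ((1 - η) * n)) * 2 ^ ((2 * K + 5) * H)
        ≤ (2 ^ N * (6 * (4 * 2 ^ (2 * K * (N + 1))) * p ^ (K * (2 * t + 1))) *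
          (2 ^ (2 * N) * 2 ^ C)) * 2 ^ ((2 * K + 5) * H) := by gcongr
      _ = 1 / 2 * (E * 2 ^ (2 * K * N + 3 * N)) := by
          rw [hEr, pow_add 2 (2 * K), Nat.mul_succ (2 * K) N, pow_add 2 (2 * K * N) (2 * K),
            pow_add 2 (2 * K * N) (3 * N), show 3 * N = N + 2 * N by ring, pow_add 2 N (2 * N)]
          ring
      _ ≤ 1 / 2 * (2 ^ N * 2 ^ (2 * K * N + 3 * N)) := by gcongr
      _ ≤ 1 / 2 * 2 ^ ((2 * K + 5) * N) := by
          rw [← pow_add]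
          have h6 : (2 : ℝ) ^ (N + (2 * K * N + 3 * N)) ≤ 2 ^ ((2 * K + 5) * N) := by
            apply pow_le_pow_right₀ (by norm_num)
            nlinarith
          linarith
      _ ≤ 1 / 2 * ((κ : ℝ) ^ ((2 * K + 5) * H) * 2 ^ ((2 * K + 5) * H)) := by linarith
      _ = _ := by ring
  exact le_of_mul_le_mul_right h5 h4

end NegBase
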