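import Pool.Agent.Lib.MP_8fffab_lc_NB.NumB

/-! Row NUM, part C: the assembly. -/

open Finset Filter

namespace NegBase

theorem pow_le_choose' {k : ℕ} (hk : 1 ≤ k) : ∀ (h n : ℕ), k * h ≤ n → k ^ h ≤ n.choose h := by
  intro h
  induction h with
  | zero => intro n _; simp
  | succ h ih =>
    intro n hn
    obtain ⟨n', rfl⟩ : ∃ n', n = n' + 1 := by
      refine ⟨n - 1, ?_⟩
      have : 1 * 1 ≤ k * (h + 1) := Nat.mul_le_mul hk (by omega)
      omega
    have h1 : k * h ≤ n' := by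
      have : k * (h + 1) = k * h + k := by ring
      omega
    have h2 := ih n' h1
    have h3 := Nat.add_one_mul_choose_eq n' h
    have h4 : (h + 1) * k ^ (h + 1) ≤ (h + 1) * (n' + 1).choose (h + 1) := by
      calc (h + 1) * k ^ (h + 1) = (k * (h + 1)) * k ^ h := by ring
        _ ≤ (n' + 1) * n'.choose h := Nat.mul_le_mul hn h2
        _ = (n' + 1).choose (h + 1) * (h + 1) := h3
        _ = (h + 1) * (n' + 1).choose (h + 1) := by ring
    exact Nat.le_of_mul_le_mul_left h4 (by omega)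

/-- The condition on the levels. -/
theorem num_F4 {s D M k : ℕ} {ε : ℝ} (hs : 1 ≤ s) (hk1 : 2 ^ s ≤ k) (hk2 : k < 2 ^ (s + 1))
    (hM : 0 < M) (hMs : M * s ≤ D) (hkM : k ≤ 2 * (M * s ^ 2)) (hDs : D * s ≤ k)
    (hε0 : 0 ≤ ε) (hε1 : ε ≤ 1)
    (hcond : 2 * Real.log s + 8 ≤ ε * Real.log 2 * s) :
    (1 - ε) * ((((D + M) * s : ℕ) : ℝ) / k * (1 + Real.log k)) + 1 ≤ Real.log M := by
  have hk0 : 0 < k := lt_of_lt_of_le (by positivity) hk1
  have hk' : (0 : ℝ) < k := by exact_mod_cast hk0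
  have hs' : (1 : ℝ) ≤ s := by exact_mod_cast hs
  have hM' : (1 : ℝ) ≤ M := by exact_mod_cast hM
  have h2 := log_two_le_one
  have h20 : 0 < Real.log 2 := Real.log_pos one_lt_two
  -- bounds of log k
  have hl1 : s * Real.log 2 ≤ Real.log k := by
    have : ((2 : ℝ) ^ s) ≤ k := by exact_mod_cast hk1
    have := Real.log_le_log (by positivity) this
    rwa [Real.log_pow] at this
  have hl2 : Real.log k ≤ (s + 1) * Real.log 2 := by
    have : (k : ℝ) ≤ (2 : ℝ) ^ (s + 1) := by exact_mod_cast hk2.le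
    have := Real.log_le_log hk' this
    rw [Real.log_pow] at this
    push_cast at this
    exact this
  have hl3 : Real.log k ≤ Real.log 2 + Real.log M + 2 * Real.log s := by
    have h1 : (k : ℝ) ≤ 2 * (M * (s : ℝ) ^ 2) := by exact_mod_cast hkM
    have h3 := Real.log_le_log hk' h1
    rw [Real.log_mul (by norm_num) (by positivity), Real.log_mul (by positivity) (by positivity),
      Real.log_pow] at h3
    push_cast at h3
    linarith
  -- the ratio W / k
  have hD : (D : ℝ) * s ≤ k := by exact_mod_cast hDs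
  have hMs' : (M : ℝ) * s ≤ D := by exact_mod_cast hMs
  have hW : (((D + M) * s : ℕ) : ℝ) / k ≤ 1 + 1 / s := by
    rw [div_le_iff₀ hk']
    push_cast
    have h5 : (D : ℝ) ≤ 1 / s * k := by
      rw [one_div, inv_mul_eq_div, le_div_iff₀ (by linarith)]
      exact hD
    nlinarith
  have hlk : 0 ≤ Real.log k := by
    have : 0 ≤ s * Real.log 2 := by positivity
    linarith
  have hsum : (((D + M) * s : ℕ) : ℝ) / k * (1 + Real.log k) ≤ Real.log k + 4 := by
    have h6 : (((D + M) * s : ℕ) : ℝ) / k * (1 + Real.log k) ≤ (1 + 1 / s) * (1 + Real.log k) :=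
      mul_le_mul_of_nonneg_right hW (by linarith)
    have h7 : 1 / (s : ℝ) * Real.log k ≤ 2 := by
      rw [one_div, inv_mul_eq_div, div_le_iff₀ (by linarith)]
      nlinarith
    have h8 : 1 / (s : ℝ) ≤ 1 := by
      rw [div_le_one (by linarith)]
      exact hs'
    have h9 : (1 + 1 / (s : ℝ)) * (1 + Real.log k) = 1 + Real.log k + 1 / s + 1 / s * Real.log k := by
      ring
    linarith
  have h10 : (1 - ε) * ((((D + M) * s : ℕ) : ℝ) / k * (1 + Real.log k)) ≤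
      (1 - ε) * (Real.log k + 4) := mul_le_mul_of_nonneg_left hsum (by linarith)
  have h11 : ε * (s * Real.log 2) ≤ ε * Real.log k := mul_le_mul_of_nonneg_left hl1 hε0
  nlinarith

/-- Item (ii). -/
theorem num_ii {K H p : ℕ} (hK : 0 < K) (hH : 8 * K ^ 2 ≤ H) :
    ∃ g₀ : ℕ, ∀ g ≥ g₀, ∀ κ : ℕ, κ = 2 ^ ((g * K + K) / H) →
      (κ : ℝ) ^ K * (1 / 2) ^ (g / 2) * (2 * p ^ K) ≤ 1 := by
  refine ⟨8 * (2 * p ^ K) + 8, fun g hg κ hκ => ?_⟩
  obtain ⟨m, hm⟩ : ∃ m, m = (g * K + K) / H := ⟨_, rfl⟩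
  rw [← hm] at hκ
  have hmH : H * m ≤ (g + 1) * K := by
    rw [hm]
    calc H * ((g * K + K) / H) ≤ g * K + K := Nat.mul_div_le _ _
      _ = (g + 1) * K := by ring
  have hKm : 8 * (K * m) ≤ g + 1 := by
    have h1 : K * (8 * (K * m)) ≤ K * (g + 1) := by
      calc K * (8 * (K * m)) = 8 * K ^ 2 * m := by ring
        _ ≤ H * m := Nat.mul_le_mul_right _ hH
        _ ≤ (g + 1) * K := hmH
        _ = K * (g + 1) := by ring
    exact Nat.le_of_mul_le_mul_left h1 hK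
  obtain ⟨P, hP⟩ : ∃ P, P = 2 * p ^ K := ⟨_, rfl⟩
  rw [← hP] at hg
  have h2 : P ≤ 2 ^ P := Nat.lt_two_pow_self.le
  have h3 : m * K + P ≤ g / 2 := by
    have : m * K = K * m := mul_comm _ _
    omega
  have h4 : 2 ^ (m * K) * P ≤ 2 ^ (g / 2) := by
    calc 2 ^ (m * K) * P ≤ 2 ^ (m * K) * 2 ^ P := Nat.mul_le_mul_left _ h2
      _ = 2 ^ (m * K + P) := (pow_add _ _ _).symm
      _ ≤ 2 ^ (g / 2) := Nat.pow_le_pow_right (by norm_num) h3
  have h5 : ((2 : ℝ) ^ (m * K)) * P ≤ 2 ^ (g / 2) := by exact_mod_cast h4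
  have h6 : (2 * (p : ℝ) ^ K) = P := by rw [hP]; push_cast; rfl
  rw [h6, hκ]
  push_cast
  rw [← pow_mul]
  calc (2 : ℝ) ^ (m * K) * (1 / 2) ^ (g / 2) * P = ((2 : ℝ) ^ (m * K) * P) * (1 / 2) ^ (g / 2) := by
        ring
    _ ≤ 2 ^ (g / 2) * (1 / 2) ^ (g / 2) := mul_le_mul_of_nonneg_right h5 (by positivity)
    _ = 1 := by rw [← mul_pow]; norm_num

/-- Item (iii). -/
theorem num_iii {s D M k g n : ℕ} (hs : 10 ≤ s) (hM : 0 < M) (hMs : M * s ≤ D)
    (hDs : D * s + 1 ≤ k) (hg : 1 ≤ g) (hW : k ≤ (D + M) * s) (hn : g * ((D + M) * s) + k ≤ n) :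
    ∀ L ≤ M ^ g, L * (D * s * s ^ g) + (L + (k - 1 - D * s)) ≤ n.choose (n / k) := by
  intro L hL
  have hk : 1 ≤ k := by omega
  have h1 : g * k + k ≤ n := le_trans (by
    have := Nat.mul_le_mul_left g hW
    omega) hn
  have h2 : g + 1 ≤ n / k := by
    rw [Nat.le_div_iff_mul_le (by omega)]
    rw [Nat.add_mul, Nat.one_mul]
    exact h1
  have h3 : k ^ (g + 1) ≤ n.choose (n / k) :=
    (Nat.pow_le_pow_right hk h2).trans (pow_le_choose' hk _ _ (Nat.mul_div_le n k))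
  refine le_trans ?_ h3
  have h4 : 2 * (M * s) ≤ k := by
    have : D * 10 ≤ D * s := Nat.mul_le_mul_left _ hs
    omega
  have hMs0 : 1 ≤ M * s := Nat.mul_pos hM (by omega)
  have h5 : 1 ≤ (M * s) ^ g := Nat.one_le_pow _ _ hMs0
  have h6 : M ^ g ≤ (M * s) ^ g := Nat.pow_le_pow_left (by
    calc M = M * 1 := (mul_one M).symm
      _ ≤ M * s := Nat.mul_le_mul_left _ (by omega)) _
  have h7 : L * (D * s * s ^ g) ≤ D * s * (M * s) ^ g := by
    calc L * (D * s * s ^ g) ≤ M ^ g * (D * s * s ^ g) := Nat.mul_le_mul_right _ hL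
      _ = D * s * (M * s) ^ g := by rw [mul_pow]; ring
  have h8 : 2 * (k * (M * s) ^ g) ≤ k ^ (g + 1) := by
    calc 2 * (k * (M * s) ^ g) ≤ 2 ^ g * (k * (M * s) ^ g) :=
          Nat.mul_le_mul_right _ (by
            calc 2 = 2 ^ 1 := (pow_one 2).symm
              _ ≤ 2 ^ g := Nat.pow_le_pow_right (by norm_num) hg)
      _ = k * (2 * (M * s)) ^ g := by rw [mul_pow 2 (M * s) g]; ring
      _ ≤ k * k ^ g := Nat.mul_le_mul_left _ (Nat.pow_le_pow_left h4 _)
      _ = k ^ (g + 1) := by ring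
  have h9 : D * s * (M * s) ^ g + (M * s) ^ g ≤ k * (M * s) ^ g := by
    calc D * s * (M * s) ^ g + (M * s) ^ g = (D * s + 1) * (M * s) ^ g := by ring
      _ ≤ k * (M * s) ^ g := Nat.mul_le_mul_right _ hDs
  have h10 : k ≤ k * (M * s) ^ g := by
    calc k = k * 1 := (mul_one k).symm
      _ ≤ k * (M * s) ^ g := Nat.mul_le_mul_left _ h5
  omega

end NegBase
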