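import Pool.Agent.Lib.MP_8fffab_lc_NB.Defs

/-! Rows PAIR1 and UNI1: independence of the blocks. -/

open Finset FewNeg

namespace NegBase

private theorem card_win (q D s : ℕ) :
    Fintype.card (Win q D s) = D * s * (Fintype.card (Sup q D s) + 1) := by
  simp only [Win, Pos, Fintype.card_sum, Fintype.card_prod, Fintype.card_fin]
  ring

private theorem event_iff {q D s : ℕ} {β : Type} (σ : Win q D s → β) (z : Col q D s) :
    (∀ u v, colour z u = colour z v → σ u = σ v) ↔
      ∀ c d i, σ (.inl (c, d, i)) = σ (.inr (c.2 (d, z c d i))) := by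
  constructor
  · intro h c d i
    exact h _ _ rfl
  · intro h
    have key : ∀ u, σ u = σ (.inr (colour z u)) := by
      rintro (⟨c, d, i⟩ | j)
      · exact h c d i
      · rfl
    intro u v huv
    rw [key u, key v, huv]

private theorem count_type {q D s : ℕ} {β : Type} [DecidableEq β] (σ : Win q D s → β) (z : Col q D s)
    (hz : ∀ u v, colour z u = colour z v → σ u = σ v) (a : β) :
    (univ.filter fun v : Win q D s => σ v = a).card =
      (univ.filter fun j : Pos D s => σ (.inr j) = a).card * (Fintype.card (Sup q D s) + 1) := by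
  rw [event_iff] at hz
  rw [card_filter, card_filter, Fintype.sum_sum_type]
  have h1 : ∑ x : Sup q D s × Fin D × Fin s, (if σ (.inl x) = a then 1 else 0) =
      ∑ _c : Sup q D s, ∑ j : Pos D s, (if σ (.inr j) = a then 1 else 0) := by
    rw [Fintype.sum_prod_type]
    refine sum_congr rfl fun c _ => ?_
    let e : Pos D s ≃ Pos D s := (Equiv.prodShear (Equiv.refl (Fin D)) (fun d => z c d)).trans c.2
    refine Eq.trans ?_ (Equiv.sum_comp e (fun j => if σ (.inr j) = a then 1 else 0))
    refine sum_congr rfl fun x _ => ?_
    obtain ⟨d, i⟩ := x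
    have : e (d, i) = c.2 (d, z c d i) := rfl
    rw [this, hz c d i]
  rw [h1, sum_const, card_univ, smul_eq_mul]
  ring

private theorem gen_prod {q D s : ℕ} {β : Type} [Fintype β] [DecidableEq β] (σ : Win q D s → β) :
    avg (fun z : Col q D s => ind (∀ u v, colour z u = colour z v → σ u = σ v)) ≤
      ∏ c : Sup q D s, ∏ d, (∏ a, (((univ.filter fun i : Fin s => σ (.inr (c.2 (d, i))) = a).card.factorial : ℕ) : ℝ)) /
        (s.factorial : ℝ) := by
  classical
  have h1 : ∀ c : Sup q D s, ∀ d : Fin D,
      (univ.filter fun ρ : Equiv.Perm (Fin s) =>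
        ∀ i, σ (.inl (c, d, i)) = σ (.inr (c.2 (d, ρ i)))).card ≤
      ∏ a, (univ.filter fun i : Fin s => σ (.inr (c.2 (d, i))) = a).card.factorial := by
    intro c d
    have h2 := SetCoverMono.ModP.card_carry (fun i : Fin s => σ (.inr (c.2 (d, i)))) (fun i : Fin s => σ (.inl (c, d, i)))
    have h3 : ∀ a, Fintype.card {i : Fin s // σ (.inr (c.2 (d, i))) = a} =
        (univ.filter fun i : Fin s => σ (.inr (c.2 (d, i))) = a).card := fun a => Fintype.card_subtype _
    simp only [h3] at h2
    refine le_trans (le_of_eq ?_) h2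
    refine card_bij (fun ρ _ => ρ⁻¹) ?_ ?_ ?_
    · intro ρ hρ
      simp only [mem_filter, mem_univ, true_and] at hρ ⊢
      intro i
      have := hρ (ρ⁻¹ i)
      rw [this]
      simp
    · intro ρ _ ρ' _ h
      exact inv_injective h
    · intro ρ hρ
      simp only [mem_filter, mem_univ, true_and] at hρ
      refine ⟨ρ⁻¹, ?_, inv_inv ρ⟩
      simp only [mem_filter, mem_univ, true_and]
      intro i
      rw [hρ (ρ⁻¹ i)]
      simp
  have h4 : (univ.filter fun z : Col q D s => ∀ u v, colour z u = colour z v → σ u = σ v) =
      Fintype.piFinset fun c : Sup q D s => Fintype.piFinset fun d : Fin D =>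
        univ.filter fun ρ : Equiv.Perm (Fin s) => ∀ i, σ (.inl (c, d, i)) = σ (.inr (c.2 (d, ρ i))) := by
    ext z
    simp only [mem_filter, mem_univ, true_and, Fintype.mem_piFinset]
    exact event_iff σ z
  rw [SetCoverMono.avg_ind, h4, Fintype.card_piFinset]
  simp only [Fintype.card_piFinset]
  have h5 : Fintype.card (Col q D s) = ∏ _c : Sup q D s, ∏ _d : Fin D, s.factorial := by
    unfold Col
    rw [Fintype.card_pi]
    refine prod_congr rfl fun c _ => ?_
    rw [Fintype.card_pi]
    refine prod_congr rfl fun d _ => ?_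
    rw [Fintype.card_perm, Fintype.card_fin]
  rw [h5]
  push_cast
  rw [← prod_div_distrib]
  refine prod_le_prod (fun c _ => by positivity) fun c _ => ?_
  rw [← prod_div_distrib]
  refine prod_le_prod (fun d _ => by positivity) fun d _ => ?_
  apply div_le_div_of_nonneg_right _ (by positivity)
  exact_mod_cast h1 c d

/-- PAIR1: independence of the blocks. -/
theorem pair_prod {q D s : ℕ} (S T : Finset (Win q D s)) (hST : Disjoint S T)
    (hS : 2 * S.card ≤ Fintype.card (Win q D s)) (hT : 2 * T.card ≤ Fintype.card (Win q D s))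
    (hU : Fintype.card (Win q D s) ≤ 2 * (S.card + T.card)) :
    (∀ z : Col q D s, ¬ ∀ u v, colour z u = colour z v → (u ∈ S ↔ v ∈ S) ∧ (u ∈ T ↔ v ∈ T)) ∨
    ∃ τ : Pos D s → Fin 3, (∀ a, 2 * (univ.filter fun j => τ j = a).card ≤ D * s) ∧
      avg (fun z : Col q D s =>
        ind (∀ u v, colour z u = colour z v → (u ∈ S ↔ v ∈ S) ∧ (u ∈ T ↔ v ∈ T))) ≤
        ∏ c : Sup q D s, ∏ d, wT τ c.2 d := by
  classical
  let σ : Win q D s → Fin 3 := fun v => if v ∈ S then 0 else if v ∈ T then 1 else 2
  have hσ : ∀ u v, ((u ∈ S ↔ v ∈ S) ∧ (u ∈ T ↔ v ∈ T)) ↔ σ u = σ v := by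
    intro u v
    have hu : ¬ (u ∈ S ∧ u ∈ T) := fun h => (Finset.disjoint_left.1 hST h.1) h.2
    have hv : ¬ (v ∈ S ∧ v ∈ T) := fun h => (Finset.disjoint_left.1 hST h.1) h.2
    simp only [σ]
    by_cases a1 : u ∈ S <;> by_cases a2 : v ∈ S <;> by_cases a3 : u ∈ T <;> by_cases a4 : v ∈ T <;>
      simp_all
  simp only [hσ]
  by_cases hz : ∃ z : Col q D s, ∀ u v, colour z u = colour z v → σ u = σ v
  · right
    obtain ⟨z, hz⟩ := hz
    refine ⟨fun j => σ (.inr j), fun a => ?_, ?_⟩
    · have h1 := count_type σ z hz a
      have h2 : 2 * (univ.filter fun v : Win q D s => σ v = a).card ≤ Fintype.card (Win q D s) := by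
        fin_cases a
        · have : (univ.filter fun v : Win q D s => σ v = 0) = S := by
            ext v
            simp only [mem_filter, mem_univ, true_and, σ]
            by_cases a1 : v ∈ S <;> by_cases a3 : v ∈ T <;> simp_all
          show 2 * (univ.filter fun v : Win q D s => σ v = 0).card ≤ _
          rw [this]; exact hS
        · have : (univ.filter fun v : Win q D s => σ v = 1) = T := by
            ext v
            have hv : ¬ (v ∈ S ∧ v ∈ T) := fun h => (Finset.disjoint_left.1 hST h.1) h.2
            simp only [mem_filter, mem_univ, true_and, σ]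
            by_cases a1 : v ∈ S <;> by_cases a3 : v ∈ T <;> simp_all
          show 2 * (univ.filter fun v : Win q D s => σ v = 1).card ≤ _
          rw [this]; exact hT
        · have : (univ.filter fun v : Win q D s => σ v = 2) = (S ∪ T)ᶜ := by
            ext v
            simp only [mem_filter, mem_univ, true_and, σ, mem_compl, mem_union]
            by_cases a1 : v ∈ S <;> by_cases a3 : v ∈ T <;> simp_all
          show 2 * (univ.filter fun v : Win q D s => σ v = 2).card ≤ _
          rw [this, card_compl, card_union_of_disjoint hST]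
          omega
      rw [h1, card_win] at h2
      have h3 : 0 < Fintype.card (Sup q D s) + 1 := by omega
      have h4 : (2 * (univ.filter fun j : Pos D s => σ (.inr j) = a).card) * (Fintype.card (Sup q D s) + 1) ≤
          (D * s) * (Fintype.card (Sup q D s) + 1) := by
        rw [mul_assoc]; exact h2
      exact Nat.le_of_mul_le_mul_right h4 h3
    · refine (gen_prod σ).trans (le_of_eq ?_)
      rfl
  · left
    intro z h
    exact hz ⟨z, h⟩

/-- UNION1: independence of the blocks. -/
theorem union_prod {q D s : ℕ} (hs : 2 ≤ s) (S : Finset (Win q D s)) (hne : S.Nonempty)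
    (hS : 2 * S.card ≤ Fintype.card (Win q D s)) :
    (∀ z : Col q D s, ¬ ∀ u v, colour z u = colour z v → (u ∈ S ↔ v ∈ S)) ∨
    ∃ J₁ : Finset (Pos D s), J₁.Nonempty ∧ 2 * J₁.card ≤ D * s ∧
      avg (fun z : Col q D s => ind (∀ u v, colour z u = colour z v → (u ∈ S ↔ v ∈ S))) ≤
        (1 / 2) ^ (univ.filter fun c : Sup q D s =>
          ∃ d i i', c.2 (d, i) ∈ J₁ ∧ c.2 (d, i') ∉ J₁).card := by
  classical
  let σ : Win q D s → Bool := fun v => decide (v ∈ S)
  have hσ : ∀ u v, (u ∈ S ↔ v ∈ S) ↔ σ u = σ v := by
    intro u v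
    simp only [σ, decide_eq_decide]
  simp only [hσ]
  by_cases hz : ∃ z : Col q D s, ∀ u v, colour z u = colour z v → σ u = σ v
  · right
    obtain ⟨z, hz⟩ := hz
    refine ⟨univ.filter fun j => σ (.inr j) = true, ?_, ?_, ?_⟩
    · obtain ⟨u, hu⟩ := hne
      refine ⟨colour z u, ?_⟩
      simp only [mem_filter, mem_univ, true_and]
      rw [← hz u (.inr (colour z u)) rfl]
      simpa [σ] using hu
    · have h1 := count_type σ z hz true
      have h2 : (univ.filter fun v : Win q D s => σ v = true) = S := by
        ext v
        simp [σ]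
      rw [h2] at h1
      rw [h1, card_win] at hS
      have h3 : 0 < Fintype.card (Sup q D s) + 1 := by omega
      have h4 : (2 * (univ.filter fun j : Pos D s => σ (.inr j) = true).card) * (Fintype.card (Sup q D s) + 1) ≤
          (D * s) * (Fintype.card (Sup q D s) + 1) := by
        rw [mul_assoc]; exact hS
      exact Nat.le_of_mul_le_mul_right h4 h3
    · refine (gen_prod σ).trans ?_
      have hfac : ∀ (c : Sup q D s) (d : Fin D),
          0 ≤ (∏ a, (((univ.filter fun i : Fin s => σ (.inr (c.2 (d, i))) = a).card.factorial : ℕ) : ℝ)) /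
            (s.factorial : ℝ) ∧
          (∏ a, (((univ.filter fun i : Fin s => σ (.inr (c.2 (d, i))) = a).card.factorial : ℕ) : ℝ)) /
            (s.factorial : ℝ) ≤ 1 ∧
          ((∃ i i', σ (.inr (c.2 (d, i))) = true ∧ σ (.inr (c.2 (d, i'))) ≠ true) →
            (∏ a, (((univ.filter fun i : Fin s => σ (.inr (c.2 (d, i))) = a).card.factorial : ℕ) : ℝ)) /
            (s.factorial : ℝ) ≤ 1 / 2) := by
        intro c d
        obtain ⟨m, hm⟩ : ∃ m, m = (univ.filter fun i : Fin s => σ (.inr (c.2 (d, i))) = true).card := ⟨_, rfl⟩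
        have hf : (univ.filter fun i : Fin s => σ (.inr (c.2 (d, i))) = false).card = s - m := by
          have : (univ.filter fun i : Fin s => σ (.inr (c.2 (d, i))) = false) =
              (univ.filter fun i : Fin s => σ (.inr (c.2 (d, i))) = true)ᶜ := by
            ext i
            simp
          rw [this, card_compl, Fintype.card_fin, hm]
        have hms : m ≤ s := by
          rw [hm]
          refine (card_filter_le _ _).trans ?_
          simp
        rw [Fintype.prod_bool, hf, ← hm]
        have hch := Nat.choose_mul_factorial_mul_factorial hms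
        have hs0 : (0 : ℝ) < s.factorial := by exact_mod_cast s.factorial_pos
        refine ⟨by positivity, ?_, ?_⟩
        · rw [div_le_one hs0]
          have : m.factorial * (s - m).factorial ≤ s.factorial := by
            rw [← hch, mul_assoc]
            exact Nat.le_mul_of_pos_left _ (Nat.choose_pos hms)
          exact_mod_cast this
        · rintro ⟨i, i', hi, hi'⟩
          have hm1 : 1 ≤ m := by
            rw [hm]
            exact card_pos.2 ⟨i, by simpa using hi⟩
          have hm2 : m < s := by
            have h6 : 0 < s - m := by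
              rw [← hf]
              refine card_pos.2 ⟨i', ?_⟩
              simpa using hi'
            omega
          have h7 : 2 ≤ s.choose m := by
            obtain ⟨s', rfl⟩ : ∃ s', s = s' + 1 := ⟨s - 1, by omega⟩
            obtain ⟨m', rfl⟩ : ∃ m', m = m' + 1 := ⟨m - 1, by omega⟩
            rw [Nat.choose_succ_succ]
            have h8 : 0 < s'.choose m' := Nat.choose_pos (by omega)
            have h9 : 0 < s'.choose (m' + 1) := Nat.choose_pos (by omega)
            show 2 ≤ s'.choose m' + s'.choose (m' + 1)
            omega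
          rw [div_le_iff₀ hs0]
          have h10 : 2 * (m.factorial * (s - m).factorial) ≤ s.factorial := by
            rw [← hch, mul_assoc]
            exact Nat.mul_le_mul_right _ h7
          have h11 : (2 : ℝ) * (m.factorial * (s - m).factorial) ≤ s.factorial := by exact_mod_cast h10
          linarith
      have hprod : ∀ c : Sup q D s, ∏ d, (∏ a, (((univ.filter fun i : Fin s =>
          σ (.inr (c.2 (d, i))) = a).card.factorial : ℕ) : ℝ)) / (s.factorial : ℝ) ≤
          if (∃ d i i', c.2 (d, i) ∈ (univ.filter fun j => σ (.inr j) = true) ∧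
            c.2 (d, i') ∉ (univ.filter fun j => σ (.inr j) = true)) then 1 / 2 else 1 := by
        intro c
        split_ifs with h
        · obtain ⟨d, i, i', h1, h2⟩ := h
          simp only [mem_filter, mem_univ, true_and] at h1 h2
          rw [← mul_prod_erase univ _ (mem_univ d)]
          calc _ ≤ (1 / 2 : ℝ) * 1 := by
                apply mul_le_mul ((hfac c d).2.2 ⟨i, i', h1, h2⟩)
                · exact prod_le_one (fun d' _ => (hfac c d').1) (fun d' _ => (hfac c d').2.1)
                · exact prod_nonneg fun d' _ => (hfac c d').1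
                · norm_num
            _ = 1 / 2 := by norm_num
        · exact prod_le_one (fun d' _ => (hfac c d').1) (fun d' _ => (hfac c d').2.1)
      refine (prod_le_prod (fun c _ => prod_nonneg fun d' _ => (hfac c d').1) fun c _ => hprod c).trans ?_
      rw [prod_ite, prod_const, prod_const, one_pow, mul_one]
  · left
    intro z h
    exact hz ⟨z, h⟩

end NegBase
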