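import Pool.Agent.Lib.MP_8fffab_lc_NB.Defs

/-! Row SPH: many vectors of the same length. -/

open Finset FewNeg

namespace NegBase

/-- SPHERE: many vectors of the same length. -/
theorem exists_sphere {α : Type} [Fintype α] [Nonempty α] {M : ℕ} (hM : 0 < M) :
    ∃ (R : ℕ) (L : ℕ) (Θ : ℕ → α → Fin M), (∀ l < L, ∑ c, (Θ l c : ℕ) ^ 2 = R) ∧
      (∀ l < L, ∀ l' < L, Θ l = Θ l' → l = l') ∧ L ≤ M ^ Fintype.card α ∧
      M ^ Fintype.card α ≤ Fintype.card α * M ^ 2 * L := by
  classical
  have hα : 0 < Fintype.card α := Fintype.card_pos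
  let f : (α → Fin M) → ℕ := fun θ => ∑ c, (θ c : ℕ) ^ 2
  let B : Finset ℕ := Finset.range (Fintype.card α * M ^ 2)
  have hmap : ∀ θ ∈ (Finset.univ : Finset (α → Fin M)), f θ ∈ B := by
    intro θ _
    rw [Finset.mem_range]
    have h1 : f θ ≤ ∑ _c : α, (M - 1) ^ 2 :=
      Finset.sum_le_sum fun c _ => Nat.pow_le_pow_left (by have := (θ c).2; omega) 2
    rw [Finset.sum_const, Finset.card_univ, smul_eq_mul] at h1
    refine lt_of_le_of_lt h1 ?_
    apply Nat.mul_lt_mul_of_pos_left _ hα
    exact Nat.pow_lt_pow_left (by omega) (by norm_num)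
  have hcard : (Finset.univ : Finset (α → Fin M)).card = M ^ Fintype.card α := by
    rw [Finset.card_univ, Fintype.card_fun, Fintype.card_fin]
  have hBne : B.Nonempty := by
    refine ⟨0, ?_⟩
    rw [Finset.mem_range]
    positivity
  obtain ⟨R, -, hR⟩ := Finset.exists_max_image B
    (fun R => ((Finset.univ : Finset (α → Fin M)).filter fun θ => f θ = R).card) hBne
  let F : Finset (α → Fin M) := (Finset.univ : Finset (α → Fin M)).filter fun θ => f θ = R
  have hsum := Finset.card_eq_sum_card_fiberwise hmap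
  have hle : M ^ Fintype.card α ≤ Fintype.card α * M ^ 2 * F.card := by
    rw [← hcard, hsum]
    refine (Finset.sum_le_card_nsmul B _ F.card fun R' hR' => hR R' hR').trans ?_
    rw [smul_eq_mul, Finset.card_range]
  have hFle : F.card ≤ M ^ Fintype.card α := by
    rw [← hcard]; exact Finset.card_le_card (Finset.filter_subset _ _)
  have : Nonempty (Fin M) := ⟨⟨0, hM⟩⟩
  let e := F.equivFin
  refine ⟨R, F.card, fun l => if h : l < F.card then (e.symm ⟨l, h⟩ : α → Fin M) else fun _ => ⟨0, hM⟩,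
    ?_, ?_, hFle, hle⟩
  · intro l hl
    simp only [hl, dif_pos]
    have h1 := (e.symm ⟨l, hl⟩).2
    exact (Finset.mem_filter.1 h1).2
  · intro l hl l' hl' h
    simp only [hl, hl', dif_pos] at h
    have h1 := Subtype.ext h
    have h2 := e.symm.injective h1
    exact Fin.mk.inj_iff.1 h2

end NegBase
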